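import Pool.Agent.H11.NW.Pnt

/-!
# CQ Count: a property of all large non-Wieferich primes holds for a positive proportion of primes
-/

open Finset Filter Topology

namespace H10CQ

theorem count_good (P : ℕ → Prop) (B : ℕ)
    (hP : ∀ p : ℕ, p.Prime → B < p → ¬ p ^ 2 ∣ 2 ^ (p - 1) - 1 → P p) :
    ∃ X₀ : ℕ, ∀ X : ℕ, X₀ ≤ X →
      (9 / 500 : ℝ) * X / Real.log X ≤ Nat.card {p : ℕ // p.Prime ∧ p ≤ X ∧ P p} := by
  classical
  obtain ⟨m0, h⟩ := Pool.Agent.H11.NW.non_wieferich_count_nat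
  have h1 : Tendsto (fun x : ℝ => Real.log x / x) atTop (𝓝 0) := by
    have := Real.isLittleO_log_id_atTop.tendsto_div_nhds_zero
    simpa using this
  have h2 : Tendsto (fun X : ℕ => Real.log (X : ℝ) / X) atTop (𝓝 0) :=
    h1.comp tendsto_natCast_atTop_atTop
  have hc : (0 : ℝ) < 3 / 4000 / ((B : ℝ) + 1) := by positivity
  obtain ⟨X₁, hX₁⟩ := eventually_atTop.1 (h2.eventually_lt_const hc)
  refine ⟨max (24 * 2 ^ m0) X₁, fun X hX => ?_⟩
  have h3 := h X ((le_max_left _ _).trans hX)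
  have h4 := hX₁ X ((le_max_right _ _).trans hX)
  have hm0 : 1 ≤ 2 ^ m0 := Nat.one_le_two_pow
  have hX1 : (24 : ℝ) ≤ X := by
    have : 24 ≤ X := by
      have := (le_max_left (24 * 2 ^ m0) X₁).trans hX
      omega
    exact_mod_cast this
  have hX0 : (0 : ℝ) < X := by linarith
  have hlX : 0 < Real.log X := Real.log_pos (by linarith)
  -- the count
  have h5 : (((Icc 1 X).filter (fun p => p.Prime ∧ ¬ Pool.Agent.H11.NW.Wf p)).card : ℝ)
      ≤ (Nat.card {p : ℕ // p.Prime ∧ p ≤ X ∧ P p} : ℝ) + ((B : ℝ) + 1) := by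
    have h6 : Nat.card {p : ℕ // p.Prime ∧ p ≤ X ∧ P p}
        = ((Icc 1 X).filter (fun p => p.Prime ∧ P p)).card := by
      refine Nat.subtype_card _ fun p => ?_
      rw [mem_filter, mem_Icc]
      constructor
      · rintro ⟨⟨-, e1⟩, e2, e3⟩
        exact ⟨e2, e1, e3⟩
      · rintro ⟨e1, e2, e3⟩
        exact ⟨⟨e1.one_le, e2⟩, e1, e3⟩
    have h7 : (Icc 1 X).filter (fun p => p.Prime ∧ ¬ Pool.Agent.H11.NW.Wf p)
        ⊆ (Icc 1 X).filter (fun p => p.Prime ∧ P p) ∪ range (B + 1) := by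
      intro p hp
      rw [mem_filter, mem_Icc] at hp
      rw [mem_union, mem_filter, mem_Icc, mem_range]
      by_cases hB : p < B + 1
      · exact Or.inr hB
      · exact Or.inl ⟨hp.1, hp.2.1, hP p hp.2.1 (by omega) hp.2.2⟩
    have h8 := (card_le_card h7).trans (card_union_le _ _)
    rw [card_range, ← h6] at h8
    exact_mod_cast h8
  have h9 : ((B : ℝ) + 1) ≤ 3 / 4000 * (X : ℝ) / Real.log X := by
    rw [le_div_iff₀ hlX]
    rw [div_lt_iff₀ hX0, div_mul_eq_mul_div, lt_div_iff₀ (by positivity)] at h4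
    linarith
  have h10 : (9 / 500 : ℝ) * X / Real.log X
      = 3 / 160 * (X : ℝ) / Real.log X - 3 / 4000 * (X : ℝ) / Real.log X := by
    ring
  rw [h10]
  linarith

end H10CQ
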