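import Pool.Agent.H80.HF.Main
import Pool.Agent.H2.HF.LowB

/-!
# CQ Count3: a property of all large non-Wieferich primes holds for 3/10 of the primes
-/

open Finset Filter Topology

namespace H10CQ

theorem count_good3 (P : ℕ → Prop) (B : ℕ)
    (hP : ∀ p : ℕ, p.Prime → B < p → ¬ p ^ 2 ∣ 2 ^ (p - 1) - 1 → P p) :
    ∃ X₀ : ℕ, ∀ X : ℕ, X₀ ≤ X →
      (3 / 10 : ℝ) * X / Real.log X ≤ Nat.card {p : ℕ // p.Prime ∧ p ≤ X ∧ P p} := by
  classical
  obtain ⟨x₀, h⟩ := Pool.Agent.H2.HF.low_NW' Pool.Agent.H80.HF.main_ineq (1 / 200) (by norm_num)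
  have h1 : Tendsto (fun x : ℝ => Real.log x / x) atTop (𝓝 0) := by
    have := Real.isLittleO_log_id_atTop.tendsto_div_nhds_zero
    simpa using this
  have h2 : Tendsto (fun X : ℕ => Real.log (X : ℝ) / X) atTop (𝓝 0) :=
    h1.comp tendsto_natCast_atTop_atTop
  have hc : (0 : ℝ) < 1 / 200 / ((B : ℝ) + 1) := by positivity
  obtain ⟨X₁, hX₁⟩ := eventually_atTop.1 (h2.eventually_lt_const hc)
  refine ⟨max (max x₀ X₁) 24, fun X hX => ?_⟩
  have h3 := h X ((le_max_left _ _).trans ((le_max_left _ _).trans hX))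
  have h4 := hX₁ X ((le_max_right _ _).trans ((le_max_left _ _).trans hX))
  have hX1 : (24 : ℝ) ≤ X := by
    have : 24 ≤ X := (le_max_right _ _).trans hX
    exact_mod_cast this
  have hX0 : (0 : ℝ) < X := by linarith
  have hlX : 0 < Real.log X := Real.log_pos (by linarith)
  -- the count
  have h5 : (({p ∈ Pool.Agent.H2.HF.NonW | p ≤ X}.ncard : ℕ) : ℝ)
      ≤ (Nat.card {p : ℕ // p.Prime ∧ p ≤ X ∧ P p} : ℝ) + ((B : ℝ) + 1) := by
    have h6 : Nat.card {p : ℕ // p.Prime ∧ p ≤ X ∧ P p}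
        = ((Icc 1 X).filter (fun p => p.Prime ∧ P p)).card := by
      refine Nat.subtype_card _ fun p => ?_
      rw [mem_filter, mem_Icc]
      constructor
      · rintro ⟨⟨-, e1⟩, e2, e3⟩
        exact ⟨e2, e1, e3⟩
      · rintro ⟨e1, e2, e3⟩
        exact ⟨⟨e1.one_le, e2⟩, e1, e3⟩
    have h7 : {p ∈ Pool.Agent.H2.HF.NonW | p ≤ X}
        ⊆ ((((Icc 1 X).filter (fun p => p.Prime ∧ P p)) ∪ range (B + 1) : Finset ℕ) : Set ℕ) := by
      intro p hp
      obtain ⟨⟨q1, q2, q3⟩, q4⟩ := hp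
      rw [Finset.mem_coe, mem_union, mem_filter, mem_Icc, mem_range]
      by_cases hB : p < B + 1
      · exact Or.inr hB
      · exact Or.inl ⟨⟨by omega, q4⟩, q1, hP p q1 (by omega) q3⟩
    have h8 := Set.ncard_le_ncard h7 (Finset.finite_toSet _)
    rw [Set.ncard_coe_finset] at h8
    have h9 := h8.trans (card_union_le _ _)
    rw [card_range, ← h6] at h9
    exact_mod_cast h9
  have h9 : ((B : ℝ) + 1) ≤ 1 / 200 * ((X : ℝ) / Real.log X) := by
    rw [← mul_div_assoc, le_div_iff₀ hlX]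
    rw [div_lt_iff₀ hX0, div_mul_eq_mul_div, lt_div_iff₀ (by positivity)] at h4
    linarith
  have h10 : (3 / 10 : ℝ) * X / Real.log X
      = (31 / 100 - 1 / 200) * ((X : ℝ) / Real.log X) - 1 / 200 * ((X : ℝ) / Real.log X) := by
    ring
  rw [h10]
  linarith

end H10CQ
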