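import Pool.Agent.H10.CQ.Wrap

/-!
# CQ Elim3: no solution of the six equations with three elements

`e1, e2, e3` elementary symmetric functions of `t_1, t_2, t_3`.  The equations 1, 2, 3 give
`e2 = e1 e3`, `27 + 6 e2 - 6 e1^2 + e2^2 = 0`, `e3 (15 + e2) = e1 (3 + e2)`, so
`(e2 - 3)^2 (e2 + 9) = 0` and `e1^2 = 9`.  `e2 = 3` gives `t_i = ± 1`; `e2 = -9` gives `e3 = -e1`, and
equation 4 gives `128 e1 = 0`.
-/

namespace H10CQ

theorem no_six_three {p : ℕ} [Fact p.Prime] (hp : 5 ≤ p) {Ω : Type*} [Field Ω] [CharP Ω p]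
    (t : Fin 3 → Ω) (h : Six t) : False := by
  have two : (2 : Ω) ≠ 0 := by
    have := cast_ne p (Ω := Ω) (k := 2) (by omega) (by omega)
    exact_mod_cast this
  have three : (3 : Ω) ≠ 0 := by
    have := cast_ne p (Ω := Ω) (k := 3) (by omega) (by omega)
    exact_mod_cast this
  obtain ⟨d0, d1, d2, d3, d4, d5, -, -, e1, e2, e3, e4, -, -⟩ := h
  rw [Fin.sum_univ_three] at e1 e2 e3 e4
  obtain ⟨x, hx⟩ : ∃ x, x = t 0 := ⟨_, rfl⟩
  obtain ⟨y, hy⟩ : ∃ y, y = t 1 := ⟨_, rfl⟩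
  obtain ⟨z, hz⟩ : ∃ z, z = t 2 := ⟨_, rfl⟩
  have x0 := d0 0
  have x1 := d1 0
  have x2 := d2 0
  have x3 := d3 0
  have x4 := d4 0
  have x5 := d5 0
  have y0 := d0 1
  have y1 := d1 1
  have y2 := d2 1
  have y3 := d3 1
  have y4 := d4 1
  have y5 := d5 1
  have z0 := d0 2
  have z1 := d1 2
  have z2 := d2 2
  have z3 := d3 2
  have z4 := d4 2
  have z5 := d5 2
  rw [← hx] at e1 e2 e3 e4 x0 x1 x2 x3 x4 x5
  rw [← hy] at e1 e2 e3 e4 y0 y1 y2 y3 y4 y5
  rw [← hz] at e1 e2 e3 e4 z0 z1 z2 z3 z4 z5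
  clear d0 d1 d2 d3 d4 d5 hx hy hz
  obtain ⟨s1, hs1⟩ : ∃ s1, s1 = x + y + z := ⟨_, rfl⟩
  obtain ⟨s2, hs2⟩ : ∃ s2, s2 = x * y + y * z + z * x := ⟨_, rfl⟩
  obtain ⟨s3, hs3⟩ : ∃ s3, s3 = x * y * z := ⟨_, rfl⟩
  have f1 : s1 * s3 = s2 := by
    field_simp at e1
    rw [hs1, hs2, hs3]
    linear_combination e1
  have f2 : (3 - 2 * s1 + s2) * (-27 - 9 * s1 - 3 * s2 - s3)
      + (27 + 6 * s1 + s2) * (1 - s1 + s2 - s3) = 0 := by
    have g : (3 - 2 * s1 + s2) * (-27 - 9 * s1 - 3 * s2 - s3)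
      + (27 + 6 * s1 + s2) * (1 - s1 + s2 - s3)
      = (1 / (x - 1) + 1 / (x + 3) + (1 / (y - 1) + 1 / (y + 3)) + (1 / (z - 1) + 1 / (z + 3)))
        * (-((x - 1) * (y - 1) * (z - 1) * ((x + 3) * (y + 3) * (z + 3)))) := by
      rw [hs1, hs2, hs3]
      field_simp
      ring
    rw [g, e2, zero_mul]
  have f3 : (3 + 2 * s1 + s2) * (27 - 9 * s1 + 3 * s2 - s3)
      + (27 - 6 * s1 + s2) * (-1 - s1 - s2 - s3) = 0 := by
    have g : (3 + 2 * s1 + s2) * (27 - 9 * s1 + 3 * s2 - s3)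
      + (27 - 6 * s1 + s2) * (-1 - s1 - s2 - s3)
      = (1 / (x + 1) + 1 / (x - 3) + (1 / (y + 1) + 1 / (y - 3)) + (1 / (z + 1) + 1 / (z - 3)))
        * (-((x + 1) * (y + 1) * (z + 1) * ((x - 3) * (y - 3) * (z - 3)))) := by
      rw [hs1, hs2, hs3]
      field_simp
      ring
    rw [g, e3, zero_mul]
  have f4 : s1 * ((s1 - s3) ^ 2 + (s2 - 1) ^ 2)
      + 2 * ((s2 - 3) * (s1 - s3) - 2 * s1 * (s2 - 1)) = 0 := by
    have k1 : ∀ w : Ω, w ≠ 0 → w ^ 2 + 1 ≠ 0 →
        (w ^ 2 - 1) ^ 2 / (w * (w ^ 2 + 1)) = w + 1 / w - 4 * (w / (w ^ 2 + 1)) := by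
      intro w h1 h2
      field_simp
      ring
    rw [k1 x x0 x5, k1 y y0 y5, k1 z z0 z5] at e4
    have g2 : 1 / x + 1 / y + 1 / z = s1 := by
      have : x - 1 / x + (y - 1 / y) + (z - 1 / z) = x + y + z - (1 / x + 1 / y + 1 / z) := by ring
      rw [this] at e1
      rw [hs1]
      linear_combination -e1
    have g3 : s1 = 2 * (x / (x ^ 2 + 1) + y / (y ^ 2 + 1) + z / (z ^ 2 + 1)) := by
      have : 2 * (s1 - 2 * (x / (x ^ 2 + 1) + y / (y ^ 2 + 1) + z / (z ^ 2 + 1))) = 0 := by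
        linear_combination e4 - g2 + hs1
      exact sub_eq_zero.1 ((mul_eq_zero.1 this).resolve_left two)
    have g4 : (x ^ 2 + 1) * (y ^ 2 + 1) * (z ^ 2 + 1) = (s1 - s3) ^ 2 + (s2 - 1) ^ 2 := by
      rw [hs1, hs2, hs3]
      ring
    have g5 : (x / (x ^ 2 + 1) + y / (y ^ 2 + 1) + z / (z ^ 2 + 1))
        * ((x ^ 2 + 1) * (y ^ 2 + 1) * (z ^ 2 + 1))
        = -((s2 - 3) * (s1 - s3) - 2 * s1 * (s2 - 1)) := by
      rw [hs1, hs2, hs3]
      field_simp
      ring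
    rw [← g4]
    linear_combination ((x ^ 2 + 1) * (y ^ 2 + 1) * (z ^ 2 + 1)) * g3 + 2 * g5
  have fS : 27 + 6 * s2 - 6 * s1 ^ 2 + s2 ^ 2 = 0 := by
    have : 4 * (27 + 6 * s2 - 6 * s1 ^ 2 + s2 ^ 2) = 0 := by
      linear_combination -f2 + f3 - 8 * f1
    have h4 : (4 : Ω) ≠ 0 := by
      have e : (4 : Ω) = 2 * 2 := by norm_num
      rw [e]
      exact mul_ne_zero two two
    exact (mul_eq_zero.1 this).resolve_left h4
  have fD : s3 * (15 + s2) = s1 * (3 + s2) := by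
    have : 4 * (s3 * (15 + s2) - s1 * (3 + s2)) = 0 := by
      linear_combination -f2 - f3
    have h4 : (4 : Ω) ≠ 0 := by
      have e : (4 : Ω) = 2 * 2 := by norm_num
      rw [e]
      exact mul_ne_zero two two
    exact sub_eq_zero.1 ((mul_eq_zero.1 this).resolve_left h4)
  have fU : (s2 - 3) * ((s2 - 3) * (s2 + 9)) = 0 := by
    linear_combination (3 + s2) * fS - 6 * s1 * fD + (90 + 6 * s2) * f1
  have h1 : s1 ^ 2 = 9 := by
    have h6 : (6 : Ω) ≠ 0 := by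
      have e : (6 : Ω) = 2 * 3 := by norm_num
      rw [e]
      exact mul_ne_zero two three
    have h7 : 6 * (s1 ^ 2 - 9) = 0 := by
      rcases mul_eq_zero.1 fU with h | h
      · linear_combination -fS + (s2 + 9) * h
      · rcases mul_eq_zero.1 h with h | h
        · linear_combination -fS + (s2 + 9) * h
        · linear_combination -fS + (s2 - 3) * h
    exact sub_eq_zero.1 ((mul_eq_zero.1 h7).resolve_left h6)
  have hs10 : s1 ≠ 0 := by
    intro h0
    rw [h0] at h1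
    have : (3 : Ω) * 3 = 0 := by linear_combination -h1
    exact mul_ne_zero three three this
  have hs1' : s1 = 3 ∨ s1 = -3 := by
    have : (s1 - 3) * (s1 + 3) = 0 := by linear_combination h1
    rcases mul_eq_zero.1 this with h | h
    · exact Or.inl (sub_eq_zero.1 h)
    · exact Or.inr (eq_neg_of_add_eq_zero_left h)
  rcases (show s2 = 3 ∨ s2 = -9 by
    rcases mul_eq_zero.1 fU with h | h
    · exact Or.inl (sub_eq_zero.1 h)
    · rcases mul_eq_zero.1 h with h | h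
      · exact Or.inl (sub_eq_zero.1 h)
      · exact Or.inr (eq_neg_of_add_eq_zero_left h)) with hu | hu
  · -- `t_i = ± 1`
    have h2 : 3 * s3 = s1 := by
      have : 3 * s1 * (3 * s3 - s1) = 0 := by
        linear_combination 9 * f1 + 9 * hu - 3 * h1
      exact sub_eq_zero.1 ((mul_eq_zero.1 this).resolve_left (mul_ne_zero three hs10))
    rcases hs1' with h3 | h3
    · have h4 : s3 = 1 := by
        have : 3 * (s3 - 1) = 0 := by linear_combination h2 + h3
        exact sub_eq_zero.1 ((mul_eq_zero.1 this).resolve_left three)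
      have h5 : (x - 1) * (y - 1) * (z - 1) = 0 := by
        have : (x - 1) * (y - 1) * (z - 1) = s3 - s2 + s1 - 1 := by
          rw [hs1, hs2, hs3]
          ring
        rw [this, h4, hu, h3]
        norm_num
      exact mul_ne_zero (mul_ne_zero x1 y1) z1 h5
    · have h4 : s3 = -1 := by
        have : 3 * (s3 + 1) = 0 := by linear_combination h2 + h3
        exact eq_neg_of_add_eq_zero_left ((mul_eq_zero.1 this).resolve_left three)
      have h5 : (x + 1) * (y + 1) * (z + 1) = 0 := by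
        have : (x + 1) * (y + 1) * (z + 1) = s3 + s2 + s1 + 1 := by
          rw [hs1, hs2, hs3]
          ring
        rw [this, h4, hu, h3]
        norm_num
      exact mul_ne_zero (mul_ne_zero x2 y2) z2 h5
  · have h2 : s3 = -s1 := by
      have : s1 * (s3 + s1) = 0 := by linear_combination f1 + hu + h1
      exact eq_neg_of_add_eq_zero_left ((mul_eq_zero.1 this).resolve_left hs10)
    rw [h2, hu] at f4
    have h3 : (2 : Ω) ^ 7 * s1 = 0 := by linear_combination f4 - 4 * s1 * h1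
    exact mul_ne_zero (pow_ne_zero 7 two) hs10 h3

end H10CQ
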