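import Pool.Agent.H10.CQ.Fin4
import Pool.Agent.H10.CQ.Elim3
import Pool.Agent.H77.FD.KumG
import Pool.Agent.H45.KC.KMain

/-!
# CQ Cubic: all solutions over cubic fields

`a ^ p + b ^ p + c ^ p = 0` over a cubic field, `p ≥ 5` not a Wieferich prime.  The number `n'` of the
places (with local degrees) above `p` which divide none of `a, b, c` is `0` or `2`; if it is `2`, then
`a ^ 2 + a b + b ^ 2 = 0` there.

The relations of `two_four` hold for the pair `a, b` and the places dividing none of `a, b, c` if no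
place above `p` divides `c`.  `n' = 3`: `no_six_three`.  `n' = 1`: one of `a, b, c`, say `c`, is divisible
by no place; `s / (s ^ 2 - 1) = 0` is impossible.  `n' = 2`: two of `a, b, c` are divisible by no place.
-/

open NumberField IsDedekindDomain H9FC

namespace H10CQ

theorem dat_of_datG {p : ℕ} {Ω ι : Type*} [Field Ω] {Z : Finset ι} {s : ι → Ω}
    (h : H77FD.DatG p 0 Z s) {n : ℕ} (f : Fin n → ι) (hf : Function.Injective f)
    (hmem : ∀ k, f k ∈ Z) (hsurj : ∀ i ∈ Z, ∃ k, f k = i) : Dat p (fun k => s (f k)) := by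
  have hsum : ∀ g : ι → Ω, ∑ k, g (f k) = ∑ i ∈ Z, g i := by
    intro g
    refine Finset.sum_nbij f (fun k _ => hmem k) (fun x _ y _ hxy => hf hxy) ?_ (fun k _ => rfl)
    intro i hi
    obtain ⟨k, hk⟩ := hsurj i hi
    exact ⟨k, Finset.mem_coe.2 (Finset.mem_univ k), hk⟩
  refine ⟨fun k => h.ne0 _ (hmem k), fun k => h.ne1 _ (hmem k), fun k => h.l1 _ (hmem k), ?_, ?_⟩
  · intro i hi hi2 hip hB
    rw [hsum (fun x => el p i (s x) / (1 - s x ^ p))]
    exact h.kum i hi hi2 (by omega) hip hB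
  · rw [hsum (fun x => 1 / (1 - s x)), hsum (fun x => 1 / (1 - s x ^ p))]
    exact h.frob

/-- one element is impossible -/
theorem no_one {p : ℕ} [Fact p.Prime] (hp : 5 ≤ p) (hW : ¬ p ^ 2 ∣ 2 ^ (p - 1) - 1)
    {Ω : Type*} [Field Ω] [CharP Ω p] {s : Fin 1 → Ω} (h : Dat p s) : False := by
  obtain ⟨h1, -, h2, -⟩ := two_four p hp hW h
  rw [Fin.sum_univ_one] at h2
  exact div_ne_zero (h.ne0 0) (h1 0) h2

/-- two elements, two pairs -/
theorem two_pairs {p : ℕ} [Fact p.Prime] (hp : 5 ≤ p) (hW : ¬ p ^ 2 ∣ 2 ^ (p - 1) - 1)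
    {Ω : Type*} [Field Ω] [CharP Ω p] (a b c : Fin 2 → Ω) (ha : ∀ k, a k ≠ 0)
    (hb : ∀ k, b k ≠ 0) (hc : ∀ k, c k ≠ 0) (h0 : ∀ k, a k + b k + c k = 0)
    (h1 : Dat p (fun k => -(b k) / a k)) (h3 : Dat p (fun k => -(a k) / c k)) :
    ∀ k, a k ^ 2 + a k * b k + b k ^ 2 = 0 := by
  have two : (2 : Ω) ≠ 0 := by
    have := cast_ne p (Ω := Ω) (k := 2) (by omega) (by omega)
    exact_mod_cast this
  obtain ⟨p1, -, p3, -⟩ := two_four p hp hW h1
  obtain ⟨r1, -, r3, -⟩ := two_four p hp hW h3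
  have key : ∀ x y : Ω, x ≠ 0 → (-y / x) ^ 2 - 1 ≠ 0 → y - x ≠ 0 ∧ y + x ≠ 0 := by
    intro x y hx h
    have e : (-y / x) ^ 2 - 1 = (y - x) * (y + x) / x ^ 2 := by
      field_simp
      ring
    rw [e] at h
    refine ⟨?_, ?_⟩ <;>
    · intro h5
      apply h
      rw [h5]
      simp
  have kp := fun k => key _ _ (ha k) (p1 k)
  have kr := fun k => key _ _ (hc k) (r1 k)
  have t1 : ∀ k, (a k - b k) / c k - 1 = 2 * a k / c k := by
    intro k
    have := hc k
    field_simp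
    linear_combination -h0 k
  have t2 : ∀ k, (a k - b k) / c k + 1 = -(2 * b k) / c k := by
    intro k
    have := hc k
    field_simp
    linear_combination h0 k
  have t3 : ∀ k, (a k - b k) / c k - 3 = 2 * (a k - c k) / c k := by
    intro k
    have := hc k
    field_simp
    linear_combination -h0 k
  have n0 : ∀ k, (a k - b k) / c k ≠ 0 := fun k =>
    div_ne_zero (fun h => (kp k).1 (by linear_combination -h)) (hc k)
  have n1 : ∀ k, (a k - b k) / c k - 1 ≠ 0 := fun k => by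
    rw [t1]
    exact div_ne_zero (mul_ne_zero two (ha k)) (hc k)
  have n2 : ∀ k, (a k - b k) / c k + 1 ≠ 0 := fun k => by
    rw [t2]
    exact div_ne_zero (neg_ne_zero.2 (mul_ne_zero two (hb k))) (hc k)
  have n3 : ∀ k, (a k - b k) / c k - 3 ≠ 0 := fun k => by
    rw [t3]
    exact div_ne_zero (mul_ne_zero two (kr k).1) (hc k)
  have u1 : ∀ k, -b k / a k = ((a k - b k) / c k + 1) / ((a k - b k) / c k - 1) := by
    intro k
    rw [t1, t2]
    have := hc k
    have := ha k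
    field_simp
  have u3 : ∀ k, -a k / c k = -((a k - b k) / c k - 1) / 2 := by
    intro k
    rw [t1]
    have := hc k
    field_simp
  obtain ⟨t, ht⟩ : ∃ t : Fin 2 → Ω, t = fun k => (a k - b k) / c k := ⟨_, rfl⟩
  have htk : ∀ k, (a k - b k) / c k = t k := fun k => by rw [ht]
  simp only [u1, u3, htk] at p3 r3
  simp only [htk] at n0 n1 n2 n3
  rw [Fin.sum_univ_two] at p3 r3
  obtain ⟨x, hx⟩ : ∃ x, x = t 0 := ⟨_, rfl⟩
  obtain ⟨y, hy⟩ : ∃ y, y = t 1 := ⟨_, rfl⟩
  have x0 := n0 0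
  have x1 := n1 0
  have x2 := n2 0
  have x3 := n3 0
  have y0 := n0 1
  have y1 := n1 1
  have y2 := n2 1
  have y3 := n3 1
  rw [← hx] at p3 r3 x0 x1 x2 x3
  rw [← hy] at p3 r3 y0 y1 y2 y3
  have four : (4 : Ω) ≠ 0 := four_ne (p := p) hp
  have q1 : ∀ w : Ω, w ≠ 0 → w - 1 ≠ 0 →
      (w + 1) / (w - 1) / (((w + 1) / (w - 1)) ^ 2 - 1) = (w ^ 2 - 1) / (4 * w) := by
    intro w h1 h2
    have e1 : ((w + 1) / (w - 1)) ^ 2 - 1 = 4 * w / (w - 1) ^ 2 := by
      field_simp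
      ring
    rw [e1]
    field_simp
    ring
  have q3 : ∀ w : Ω, w + 1 ≠ 0 → w - 3 ≠ 0 →
      -(w - 1) / 2 / ((-(w - 1) / 2) ^ 2 - 1) = -(2 * (w - 1)) / ((w + 1) * (w - 3)) := by
    intro w h1 h2
    have e1 : (-(w - 1) / 2) ^ 2 - 1 = ((w + 1) * (w - 3)) / 4 := by
      field_simp
      ring
    rw [e1]
    field_simp
    ring
  rw [q1 x x0 x1, q1 y y0 y1] at p3
  rw [q3 x x2 x3, q3 y y2 y3] at r3
  obtain ⟨s1, hs1⟩ : ∃ s1, s1 = x + y := ⟨_, rfl⟩
  obtain ⟨s2, hs2⟩ : ∃ s2, s2 = x * y := ⟨_, rfl⟩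
  have f1 : s1 * (s2 - 1) = 0 := by
    have g : s1 * (s2 - 1) = ((x ^ 2 - 1) / (4 * x) + (y ^ 2 - 1) / (4 * y)) * (4 * (x * y)) := by
      rw [hs1, hs2]
      field_simp
      ring
    rw [g, p3, zero_mul]
  have f3 : 6 - s1 - 2 * s2 - s1 ^ 2 + s1 * s2 = 0 := by
    have g : 2 * (6 - s1 - 2 * s2 - s1 ^ 2 + s1 * s2)
      = (-(2 * (x - 1)) / ((x + 1) * (x - 3)) + -(2 * (y - 1)) / ((y + 1) * (y - 3)))
        * (-((x + 1) * (y + 1) * ((x - 3) * (y - 3)))) := by
      rw [hs1, hs2]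
      field_simp
      ring
    rw [r3, zero_mul] at g
    exact (mul_eq_zero.1 g).resolve_left two
  have hs0 : s1 = 0 := by
    rcases mul_eq_zero.1 f1 with h | h
    · exact h
    · exfalso
      have h2 : s2 = 1 := sub_eq_zero.1 h
      have h3 : (s1 - 2) * (s1 + 2) = 0 := by
        rw [h2] at f3
        linear_combination -f3
      rcases mul_eq_zero.1 h3 with h4 | h4
      · have h5 : (x - 1) * (y - 1) = 0 := by
          have : (x - 1) * (y - 1) = s2 - s1 + 1 := by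
            rw [hs1, hs2]
            ring
          rw [this, h2]
          linear_combination -h4
        exact mul_ne_zero x1 y1 h5
      · have h5 : (x + 1) * (y + 1) = 0 := by
          have : (x + 1) * (y + 1) = s2 + s1 + 1 := by
            rw [hs1, hs2]
            ring
          rw [this, h2]
          linear_combination h4
        exact mul_ne_zero x2 y2 h5
  have h2 : s2 = 3 := by
    rw [hs0] at f3
    have : 2 * (3 - s2) = 0 := by linear_combination f3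
    exact (sub_eq_zero.1 ((mul_eq_zero.1 this).resolve_left two)).symm
  have hfin : ∀ k, t k ^ 2 + 3 = 0 := by
    intro k
    fin_cases k
    · show t 0 ^ 2 + 3 = 0
      rw [← hx]
      linear_combination x * (hs0.symm.trans hs1).symm + hs2 - h2
    · show t 1 ^ 2 + 3 = 0
      rw [← hy]
      linear_combination y * (hs0.symm.trans hs1).symm + hs2 - h2
  intro k
  refine sq_of_t (hc k) (h0 k) four ?_
  rw [htk]
  exact hfin k

/-- all solutions over a cubic field: the residues -/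
theorem cubic_card (K : Type*) [Field K] [NumberField K] (p : ℕ) [Fact p.Prime] (hp : 5 ≤ p)
    (hK : Module.finrank ℚ K = 3) (hW : ¬ p ^ 2 ∣ 2 ^ (p - 1) - 1) (a b c : 𝓞 K)
    (h : FSol K p a b c) (hcp : CopAt K p a b c)
    {Ω : Type*} [Field Ω] [CharP Ω p] {ψ : Fin (Module.finrank ℚ K) → (𝓞 K →+* Ω)}
    (hψ : IsRedFam ψ) :
    (ZZ ψ a b c).card = 0 ∨ ((ZZ ψ a b c).card = 2 ∧
      ∀ k ∈ ZZ ψ a b c, ψ k a ^ 2 + ψ k a * ψ k b + ψ k b ^ 2 = 0) := by
  classical
  have hcard := (H45KC.card_ZZ K p a b c h hcp hψ).trans hK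
  have hd : Module.finrank ℚ K < p := by omega
  have hp2 : p ≠ 2 := by omega
  obtain ⟨m, hm⟩ : ∃ m, m = (ZZ ψ a b c).card := ⟨_, rfl⟩
  rw [← hm] at hcard ⊢
  let φ : Fin m ≃ ZZ ψ a b c := (Fin.castOrderIso hm).toEquiv.trans (ZZ ψ a b c).equivFin.symm
  obtain ⟨f, hf⟩ : ∃ f : Fin m → Fin (Module.finrank ℚ K), f = fun k => (φ k : Fin _) := ⟨_, rfl⟩
  have hinj : Function.Injective f := by
    rw [hf]
    intro x y hxy
    exact φ.injective (Subtype.ext hxy)
  have hmem : ∀ k, f k ∈ ZZ ψ a b c := fun k => by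
    rw [hf]
    exact (φ k).2
  have hsurj : ∀ i ∈ ZZ ψ a b c, ∃ k, f k = i := by
    intro i hi
    refine ⟨φ.symm ⟨i, hi⟩, ?_⟩
    rw [hf]
    simp
  have dat : ∀ x y z : 𝓞 K, FSol K p x y z → CopAt K p x y z → ZZ ψ x y z = ZZ ψ a b c →
      mm K p z = 0 → Dat p (fun k => -(ψ (f k) y) / ψ (f k) x) := by
    intro x y z h' hcp' hZ hz
    have h1 := H77FD.datG_of_sol hp2 hd h' hcp' hψ
    rw [hz, hZ] at h1
    exact dat_of_datG h1 f hinj hmem hsurj
  have r1 : ZZ ψ b c a = ZZ ψ a b c := H45KC.ZZ_rot ψ a b c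
  have r2 : ZZ ψ c a b = ZZ ψ a b c := (H45KC.ZZ_rot ψ b c a).trans r1
  have hne : ∀ k, ψ (f k) a ≠ 0 ∧ ψ (f k) b ≠ 0 ∧ ψ (f k) c ≠ 0 := fun k =>
    (mem_ZZ ψ a b c (f k)).1 (hmem k)
  have hs0 : ∀ k, ψ (f k) a + ψ (f k) b + ψ (f k) c = 0 := fun k => fsol_hom h _
  have dab := dat a b c h hcp rfl
  have dbc := dat b c a h.rot hcp.rot r1
  have dca := dat c a b h.rot.rot hcp.rot.rot r2
  clear dat
  clear_value φ
  have hm3 : m = 0 ∨ m = 1 ∨ m = 2 ∨ m = 3 := by omega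
  rcases hm3 with h0 | h0 | h0 | h0
  · exact Or.inl h0
  · exfalso
    subst h0
    rcases (show mm K p c = 0 ∨ mm K p a = 0 ∨ mm K p b = 0 by omega) with h4 | h4 | h4
    · exact no_one hp hW (dab h4)
    · exact no_one hp hW (dbc h4)
    · exact no_one hp hW (dca h4)
  · refine Or.inr ⟨h0, ?_⟩
    subst h0
    have key : ∀ k, ψ (f k) a ^ 2 + ψ (f k) a * ψ (f k) b + ψ (f k) b ^ 2 = 0 := by
      rcases (show (mm K p b = 0 ∧ mm K p c = 0) ∨ (mm K p c = 0 ∧ mm K p a = 0) ∨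
        (mm K p a = 0 ∧ mm K p b = 0) by omega) with ⟨h4, h5⟩ | ⟨h4, h5⟩ | ⟨h4, h5⟩
      · exact two_pairs hp hW _ _ _ (fun k => (hne k).1) (fun k => (hne k).2.1)
          (fun k => (hne k).2.2) hs0 (dab h5) (dca h4)
      · intro k
        have e := two_pairs hp hW (fun k => ψ (f k) b) (fun k => ψ (f k) c) (fun k => ψ (f k) a)
          (fun k => (hne k).2.1) (fun k => (hne k).2.2) (fun k => (hne k).1)
          (fun k => by linear_combination hs0 k) (dbc h5) (dab h4) k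
        linear_combination e + (ψ (f k) a - ψ (f k) c) * hs0 k
      · intro k
        have e := two_pairs hp hW (fun k => ψ (f k) c) (fun k => ψ (f k) a) (fun k => ψ (f k) b)
          (fun k => (hne k).2.2) (fun k => (hne k).1) (fun k => (hne k).2.1)
          (fun k => by linear_combination hs0 k) (dca h5) (dbc h4) k
        linear_combination e + (ψ (f k) b - ψ (f k) c) * hs0 k
    intro i hi
    obtain ⟨k, rfl⟩ := hsurj i hi
    exact key k
  · exfalso
    subst h0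
    have h4 : mm K p a = 0 ∧ mm K p b = 0 ∧ mm K p c = 0 := by omega
    exact no_six_three hp _ (six p hp hW (fun k => ψ (f k) a) (fun k => ψ (f k) b)
      (fun k => ψ (f k) c) (fun k => (hne k).1) (fun k => (hne k).2.1) (fun k => (hne k).2.2)
      hs0 (dab h4.2.2) (dbc h4.1) (dca h4.2.1))

/-- all solutions over a cubic field -/
theorem cubic_all (K : Type*) [Field K] [NumberField K] (p : ℕ) [Fact p.Prime] (hp : 5 ≤ p)
    (hK : Module.finrank ℚ K = 3) (hW : ¬ p ^ 2 ∣ 2 ^ (p - 1) - 1)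
    (a b c : K) (ha : a ≠ 0) (hb : b ≠ 0) (hc : c ≠ 0) (h : a ^ p + b ^ p + c ^ p = 0) :
    ∃ s : ℕ, s + H45KC.nu K p a b c + H45KC.nu K p b c a + H45KC.nu K p c a b = 3 ∧
      (s = 0 ∨ s = 2) ∧
      ∀ v : HeightOneSpectrum (𝓞 K), (p : 𝓞 K) ∈ v.asIdeal →
        v.valuation K a = v.valuation K b → v.valuation K b = v.valuation K c →
        v.valuation K (a ^ 2 + a * b + b ^ 2) < v.valuation K (a ^ 2) := by
  obtain ⟨l, a', b', c', hl, ea, eb, ec, hF, hcp, -⟩ := H45KC.exists_norm K p p a b c ha hb hc h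
  obtain ⟨ψ, hψ⟩ := exists_redFam K p (AlgebraicClosure (ZMod p))
  have hcard := (H45KC.card_ZZ K p a' b' c' hF hcp hψ).trans hK
  have hC := cubic_card K p hp hK hW a' b' c' hF hcp hψ
  refine ⟨(ZZ ψ a' b' c').card, ?_, ?_, ?_⟩
  · rw [H45KC.nu_eq_mm hl ea eb ec hcp, H45KC.nu_eq_mm hl eb ec ea hcp.rot,
      H45KC.nu_eq_mm hl ec ea eb hcp.rot.rot]
    exact hcard
  · rcases hC with h0 | h0
    · exact Or.inl h0
    · exact Or.inr h0.1
  · intro v hv h1 h2
    obtain ⟨n1, n2, n3⟩ := (H45KC.not_dv_iff ha hb hc h v).mpr ⟨h1, h2⟩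
    rw [H45KC.dv_iff hl ea eb ec hcp v hv] at n1
    rw [H45KC.dv_iff hl eb ec ea hcp.rot v hv] at n2
    rw [H45KC.dv_iff hl ec ea eb hcp.rot.rot v hv] at n3
    obtain ⟨k, hk⟩ := exists_redFam_ker hψ p v.asIdeal v.isPrime hv
    have hkZ : k ∈ ZZ ψ a' b' c' := by
      rw [mem_ZZ]
      refine ⟨fun h0 => n1 ?_, fun h0 => n2 ?_, fun h0 => n3 ?_⟩ <;>
      · rw [← hk, RingHom.mem_ker]
        exact h0
    have hz : a' ^ 2 + a' * b' + b' ^ 2 ∈ v.asIdeal := by
      rw [← hk, RingHom.mem_ker]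
      rcases hC with h0 | h0
      · exfalso
        rw [Finset.card_eq_zero] at h0
        rw [h0] at hkZ
        exact absurd hkZ (Finset.notMem_empty k)
      · have := h0.2 k hkZ
        simpa [map_add, map_mul, map_pow] using this
    have h4 : v.valuation K ((a' ^ 2 + a' * b' + b' ^ 2 : 𝓞 K) : K) < 1 := by
      rw [HeightOneSpectrum.valuation_lt_one_iff_mem]
      exact hz
    have h5 : v.valuation K ((a' : 𝓞 K) : K) = 1 := by
      refine le_antisymm (v.valuation_le_one a') ?_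
      by_contra h6
      exact n1 ((HeightOneSpectrum.valuation_lt_one_iff_mem (K := K) v a').mp (not_le.mp h6))
    have h6 : ((a' ^ 2 + a' * b' + b' ^ 2 : 𝓞 K) : K) = l ^ 2 * (a ^ 2 + a * b + b ^ 2) := by
      have h8 : ((a' ^ 2 + a' * b' + b' ^ 2 : 𝓞 K) : K)
          = (a' : K) ^ 2 + (a' : K) * (b' : K) + (b' : K) ^ 2 := by
        simp only [map_add, map_mul, map_pow]
      rw [h8, ea, eb]
      ring
    have h7 : v.valuation K (l ^ 2) * v.valuation K (a ^ 2) = 1 := by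
      rw [← map_mul, ← mul_pow, ← ea, map_pow, h5, one_pow]
    rw [h6, map_mul, ← h7] at h4
    exact lt_of_mul_lt_mul_left' h4

end H10CQ
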