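import Mathlib

/-!
# Project CQ (MP_ef6a16_nt): the first case over cubic and quintic fields.  Definitions.

`Ω` is a field of characteristic `p` (the algebraic closure of `ℤ/p`).
* `Hh Ω m = ∑_{k=1}^m 1/k` in `Ω`;
* `el p i s = ∑_{0<k<p} k^(p-1-i) s^k`, that is `ℓ_i(s) = ∑_{0<k<p} s^k / k^i` (`0 ≤ i ≤ p-1`);
* `Dat p s`: what is known about the values `s_k = -ψ_k(b)/ψ_k(a)`;
* `Wr p N`: the `y`, `1 ≤ y ≤ p-1`, with `⌊Ny/p⌋ ≠ ⌊N(y-1)/p⌋`;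
* `WW p N s = ∑_{y ∈ Wr} H_{y-1} s^(Ny mod p)`.
* `Six t`: the six equations for `t_k = (a_k - b_k)/c_k`, `a_k + b_k + c_k = 0`.
-/

namespace H10CQ

/-- harmonic numbers in `Ω` -/
def Hh (Ω : Type*) [Field Ω] (m : ℕ) : Ω := ∑ k ∈ Finset.Icc 1 m, ((k : ℕ) : Ω)⁻¹

/-- `ℓ_i(s) = ∑_{0<k<p} s^k / k^i` -/
def el (p : ℕ) {Ω : Type*} [Field Ω] (i : ℕ) (s : Ω) : Ω :=
  ∑ k ∈ Finset.Icc 1 (p - 1), ((k : ℕ) : Ω) ^ (p - 1 - i) * s ^ k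

/-- the properties of the values `s_k = -ψ_k(b)/ψ_k(a)` of a first case solution -/
structure Dat (p : ℕ) {Ω : Type*} [Field Ω] {n : ℕ} (s : Fin n → Ω) : Prop where
  ne0 : ∀ k, s k ≠ 0
  ne1 : ∀ k, s k ≠ 1
  l1 : ∀ k, el p 1 (s k) = 0
  kum : ∀ i, Even i → 2 ≤ i → i + 3 ≤ p → ¬ (p : ℤ) ∣ (bernoulli i).num →
    ∑ k, el p i (s k) / (1 - s k ^ p) = 0
  frob : ∑ k, 1 / (1 - s k) = ∑ k, 1 / (1 - s k ^ p)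

/-- the wrapping points -/
def Wr (p N : ℕ) : Finset ℕ := (Finset.Icc 1 (p - 1)).filter (fun y => N * y / p ≠ N * (y - 1) / p)

/-- the sum over the wrapping points -/
def WW (p N : ℕ) {Ω : Type*} [Field Ω] (s : Ω) : Ω := ∑ y ∈ Wr p N, Hh Ω (y - 1) * s ^ (N * y % p)

/-- the six equations -/
structure Six {Ω : Type*} [Field Ω] {n : ℕ} (t : Fin n → Ω) : Prop where
  d0 : ∀ k, t k ≠ 0
  d1 : ∀ k, t k - 1 ≠ 0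
  d2 : ∀ k, t k + 1 ≠ 0
  d3 : ∀ k, t k - 3 ≠ 0
  d4 : ∀ k, t k + 3 ≠ 0
  d5 : ∀ k, t k ^ 2 + 1 ≠ 0
  d6 : ∀ k, t k ^ 2 - 2 * t k + 5 ≠ 0
  d7 : ∀ k, t k ^ 2 + 2 * t k + 5 ≠ 0
  e1 : ∑ k, (t k - 1 / t k) = 0
  e2 : ∑ k, (1 / (t k - 1) + 1 / (t k + 3)) = 0
  e3 : ∑ k, (1 / (t k + 1) + 1 / (t k - 3)) = 0
  e4 : ∑ k, (t k ^ 2 - 1) ^ 2 / (t k * (t k ^ 2 + 1)) = 0
  e5 : ∑ k, (t k + 1) ^ 2 / ((t k - 1) * (t k + 3) * (t k ^ 2 + 2 * t k + 5)) = 0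
  e6 : ∑ k, (t k - 1) ^ 2 / ((t k + 1) * (t k - 3) * (t k ^ 2 - 2 * t k + 5)) = 0

end H10CQ
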