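import Pool.Agent.H10.CQ.E5Def

/-!
# Project CQ, elimination for `n = 5`: first step
Generated certificates.  `x, y, z, w` are the elementary symmetric functions `c1, c2, c3, c5` of the
five values `t_k`, and `c4 = c1 * c5`.
-/

namespace H10CQ.E5

variable {R : Type*} [CommRing R]

theorem A0e0_eq (x y z w : R) : (1 : R) * A0e0 x y z w =
    (-w) * G2 x y z w := by
  simp only [A0e0, G2]
  ring

theorem A0e1_eq (x y z w : R) : (2560 : R) * A0e1 x y z w =
    (1610 * x + 290 * z - 710 * w) * G0 x y z w +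
    (1010 * y - 70 * x * w - 2070) * G1 x y z w +
    (-512 * w) * G2 x y z w +
    (195) * G4 x y z w +
    (-3) * G6 x y z w := by
  simp only [A0e1, G0, G1, G2, G4, G6]
  ring

theorem A0e2_eq (x y z w : R) : (1 : R) * A0e2 x y z w =
    (-w) * G0 x y z w +
    (-7 * w) * G2 x y z w := by
  simp only [A0e2, G0, G2]
  ring

theorem A0e3_eq (x y z w : R) : (512 : R) * A0e3 x y z w =
    (82 * x + 10 * z + 514 * w) * G0 x y z w +
    (154 * y + 2 * x * w - 526) * G1 x y z w +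
    (3584 * w) * G2 x y z w +
    (-1) * G4 x y z w +
    (1) * G6 x y z w := by
  simp only [A0e3, G0, G1, G2, G4, G6]
  ring

theorem A0e4_eq (x y z w : R) : (2560 : R) * A0e4 x y z w =
    (1170 * x - 950 * z + 1090 * w) * G0 x y z w +
    (-1190 * y - 830 * x * w + 690) * G1 x y z w +
    (6144 * w) * G2 x y z w +
    (-65) * G4 x y z w +
    (1) * G6 x y z w := by
  simp only [A0e4, G0, G1, G2, G4, G6]
  ring

theorem A0e5_eq (x y z w : R) : (1 : R) * A0e5 x y z w =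
    (-x - w) * G0 x y z w +
    (-8 * w) * G2 x y z w := by
  simp only [A0e5, G0, G2]
  ring

theorem A0e6_eq (x y z w : R) : (1 : R) * A0e6 x y z w =
    (z) * G0 x y z w +
    (-4 * w) * G2 x y z w := by
  simp only [A0e6, G0, G2]
  ring

theorem A0e7_eq (x y z w : R) : (512 : R) * A0e7 x y z w =
    (-594 * x - 10 * z - 2 * w) * G0 x y z w +
    (-154 * y + 510 * x * w + 526) * G1 x y z w +
    (1536 * w) * G2 x y z w +
    (1) * G4 x y z w +
    (-1) * G6 x y z w := by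
  simp only [A0e7, G0, G1, G2, G4, G6]
  ring

theorem A0e8_eq (x y z w : R) : (2560 : R) * A0e8 x y z w =
    (-5970 * x - 1290 * z - 770 * w) * G0 x y z w +
    (-2970 * y + 1790 * x * w + 7950) * G1 x y z w +
    (-3584 * w) * G2 x y z w +
    (-255) * G4 x y z w +
    (-1) * G6 x y z w := by
  simp only [A0e8, G0, G1, G2, G4, G6]
  ring

theorem A1e0_eq (x y z w : R) : (1 : R) * A1e0 x y z w =
    (1) * G2 x y z w := by
  simp only [A1e0, G2]

theorem A1e1_eq (x y z w : R) : (64 : R) * A1e1 x y z w =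
    (-y + 7 * x * w + 55) * G0 x y z w +
    (13 * x + 5 * z - 3 * w) * G1 x y z w +
    (96) * G2 x y z w +
    (-2) * G3 x y z w := by
  simp only [A1e1, G0, G1, G2, G3]
  ring

theorem A1e2_eq (x y z w : R) : (8 : R) * A1e2 x y z w =
    (y + x * w - 55) * G0 x y z w +
    (-13 * x + 3 * z + 11 * w) * G1 x y z w +
    (-32) * G2 x y z w +
    (2) * G3 x y z w := by
  simp only [A1e2, G0, G1, G2, G3]
  ring

theorem A1e3_eq (x y z w : R) : (128 : R) * A1e3 x y z w =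
    (-95 * y - 19 * x * w + 629) * G0 x y z w +
    (x ^ 3 - 2 * x ^ 2 * z + x * y ^ 2 - 2 * x ^ 2 * y * w + x * z ^ 2 + x ^ 3 * w ^ 2 - 4 * x *
      y + 10 * x ^ 2 * w - 2 * y * z + 6 * y * w - 4 * x * z * w - x * w ^ 2 + 168 * x - 45 * z
      - 57 * w) * G1 x y z w +
    (108 * x ^ 2 + 42 * x * z - 27 * y ^ 2 - 4 * x * y * w + 6 * z ^ 2 - 2 * z * w - x ^ 2 * w ^
      2 - 216 * y + 22 * x * w + 555) * G2 x y z w +
    (-31) * G3 x y z w +
    (-1) * G5 x y z w := by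
  simp only [A1e3, G0, G1, G2, G3, G5]
  ring

theorem A1e4_eq (x y z w : R) : (128 : R) * A1e4 x y z w =
    (-9 * y + 19 * x * w - 389) * G0 x y z w +
    (x ^ 3 - 2 * x ^ 2 * z + x * y ^ 2 - 2 * x ^ 2 * y * w + x * z ^ 2 + x ^ 3 * w ^ 2 - 4 * x *
      y + 10 * x ^ 2 * w - 2 * y * z + 6 * y * w - 4 * x * z * w - x * w ^ 2 - 54 * x + 37 * z
      + 73 * w) * G1 x y z w +
    (108 * x ^ 2 + 42 * x * z - 27 * y ^ 2 - 4 * x * y * w + 6 * z ^ 2 - 2 * z * w - x ^ 2 * w ^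
      2 - 216 * y + 22 * x * w - 149) * G2 x y z w +
    (13) * G3 x y z w +
    (-1) * G5 x y z w := by
  simp only [A1e4, G0, G1, G2, G3, G5]
  ring

theorem A1e5_eq (x y z w : R) : (16 : R) * A1e5 x y z w =
    (25 * y + x * w - 31) * G0 x y z w +
    (-5 * x + 3 * z - 5 * w) * G1 x y z w +
    (-144) * G2 x y z w +
    (2) * G3 x y z w := by
  simp only [A1e5, G0, G1, G2, G3]
  ring

theorem A1e6_eq (x y z w : R) : (64 : R) * A1e6 x y z w =
    (-71 * y - 15 * x * w + 321) * G0 x y z w +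
    (91 * x - 29 * z - 21 * w) * G1 x y z w +
    (800) * G2 x y z w +
    (-14) * G3 x y z w := by
  simp only [A1e6, G0, G1, G2, G3]
  ring

theorem A1e7_eq (x y z w : R) : (128 : R) * A1e7 x y z w =
    (7 * y - 5 * x * w + 371) * G0 x y z w +
    (-x ^ 3 + 2 * x ^ 2 * z - x * y ^ 2 + 2 * x ^ 2 * y * w - x * z ^ 2 - x ^ 3 * w ^ 2 + 4 * x
      * y - 10 * x ^ 2 * w + 2 * y * z - 6 * y * w + 4 * x * z * w + x * w ^ 2 + 80 * x - 27 *
      z - 79 * w) * G1 x y z w +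
    (-108 * x ^ 2 - 42 * x * z + 27 * y ^ 2 + 4 * x * y * w - 6 * z ^ 2 + 2 * z * w + x ^ 2 * w
      ^ 2 + 216 * y - 22 * x * w - 555) * G2 x y z w +
    (-17) * G3 x y z w +
    (1) * G5 x y z w := by
  simp only [A1e7, G0, G1, G2, G3, G5]
  ring

theorem A1e8_eq (x y z w : R) : (128 : R) * A1e8 x y z w =
    (-115 * y + 81 * x * w + 41) * G0 x y z w +
    (-x ^ 3 + 2 * x ^ 2 * z - x * y ^ 2 + 2 * x ^ 2 * y * w - x * z ^ 2 - x ^ 3 * w ^ 2 + 4 * x
      * y - 10 * x ^ 2 * w + 2 * y * z - 6 * y * w + 4 * x * z * w + x * w ^ 2 + 2 * x - 57 * z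
      + 67 * w) * G1 x y z w +
    (-108 * x ^ 2 - 42 * x * z + 27 * y ^ 2 + 4 * x * y * w - 6 * z ^ 2 + 2 * z * w + x ^ 2 * w
      ^ 2 + 216 * y - 22 * x * w + 1685) * G2 x y z w +
    (-5) * G3 x y z w +
    (1) * G5 x y z w := by
  simp only [A1e8, G0, G1, G2, G3, G5]
  ring

end H10CQ.E5
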