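import Pool.Agent.H10.CQ.E5Def

/-!
# Project CQ, elimination for `n = 5`: second step, B9
Generated certificates.  `x, y, z, w` are the elementary symmetric functions `c1, c2, c3, c5` of the
five values `t_k`, and `c4 = c1 * c5`.
-/

namespace H10CQ.E5

variable {R : Type*} [CommRing R]

theorem B9_eq (x y z w : R) : (256 : R) * B9 x y z w =
    (45 * x ^ 2 + 18 * x * z - 985 * y ^ 2 - x * y * w + 558 * z ^ 2 - 892 * z * w - 144 * x ^ 2
      * w ^ 2 + 2134 * w ^ 2 + 924 * y - 322 * x * w - 482) * A0e0 x y z w +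
    (471 * x ^ 2 + 65 * x * z - 1250 * y ^ 2 + 4472 * x * y * w - 1952 * z ^ 2 + 2070 * z * w -
      1143 * x ^ 2 * w ^ 2 - 476 * w ^ 2 - 5339 * y - 1638 * x * w + 2384) * A0e1 x y z w +
    (1762 * x ^ 2 + 882 * x * z - 225 * y ^ 2 - 3001 * x * y * w + 388 * z ^ 2 + 1563 * z * w +
      2245 * x ^ 2 * w ^ 2 - 3726 * w ^ 2 + 313 * y - 1693 * x * w - 1483) * A0e2 x y z w +
    (1564 * x ^ 2 + 745 * x * z - 731 * y ^ 2 + 430 * x * y * w - 838 * z ^ 2 + 3279 * z * w +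
      748 * x ^ 2 * w ^ 2 - 5547 * w ^ 2 + 7492 * y - 1933 * x * w + 188) * A0e3 x y z w +
    (-3816 * x ^ 2 + 2412 * x * z - 2473 * y ^ 2 + 596 * x * y * w + 364 * z ^ 2 + 327 * z * w +
      1738 * x ^ 2 * w ^ 2 + 1108 * w ^ 2 - 2126 * y + 14 * x * w + 496) * A0e4 x y z w +
    (-2273 * x ^ 2 + 43 * x * z - 724 * y ^ 2 + 1570 * x * y * w - 65 * z ^ 2 + 1427 * z * w -
      73 * x ^ 2 * w ^ 2 - 1029 * w ^ 2 + 3897 * y - 569 * x * w - 1119) * A0e5 x y z w +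
    (1033 * x ^ 2 + 1081 * x * z - 1725 * y ^ 2 + 662 * x * y * w - 554 * z ^ 2 - 30 * z * w +
      80 * x ^ 2 * w ^ 2 + 728 * w ^ 2 + 1943 * y - 2045 * x * w - 859) * A0e6 x y z w +
    (-3152 * x ^ 2 + 196 * x * z - 27 * y ^ 2 - 1511 * x * y * w + 696 * z ^ 2 - 213 * z * w +
      1309 * x ^ 2 * w ^ 2 + 1973 * w ^ 2 - 1159 * y + 422 * x * w + 1119) * A0e7 x y z w +
    (-3 * x ^ 2 - 76 * x * z + 82 * y ^ 2 + 2953 * x * y * w - 1502 * z ^ 2 + 731 * z * w - 1359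
      * x ^ 2 * w ^ 2 - 634 * w ^ 2 + 2346 * y - 633 * x * w - 1356) * A0e8 x y z w +
    (-662 * x * y - 45 * x ^ 2 * w + 680 * y * z - 924 * y * w - 17 * x * z * w + 322 * x * w ^
      2 - 84 * x - 158 * z + 481 * w) * A1e0 x y z w +
    (-2083 * x * y - 122 * x ^ 2 * w + 54 * y * z - 809 * y * w + 532 * x * z * w - 112 * x * w
      ^ 2 - 736 * x - 828 * z + 559 * w) * A1e1 x y z w +
    (3353 * x * y - 91 * x ^ 2 * w - 2807 * y * z + 227 * y * w + 395 * x * z * w - 46 * x * w ^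
      2 - 1312 * x + 1071 * z - 1868 * w) * A1e2 x y z w +
    (1054 * x * y - 120 * x ^ 2 * w - 305 * y * z + 1081 * y * w + 290 * x * z * w - 778 * x * w
      ^ 2 - 3005 * x - 418 * z + 761 * w) * A1e3 x y z w +
    (-264 * x * y + 3021 * x ^ 2 * w - 922 * y * z + 1796 * y * w + 801 * x * z * w - 1983 * x *
      w ^ 2 - 880 * x - 462 * z - 1896 * w) * A1e4 x y z w +
    (894 * x * y - 950 * x ^ 2 * w + 269 * y * z + 181 * y * w + 368 * x * z * w - 9 * x * w ^ 2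
      + 2007 * x - 1088 * z + 1926 * w) * A1e5 x y z w +
    (2030 * x * y + 167 * x ^ 2 * w - 1758 * y * z + 872 * y * w + 176 * x * z * w - 494 * x * w
      ^ 2 + 2267 * x - 763 * z + 796 * w) * A1e6 x y z w +
    (5461 * x * y - 1381 * x ^ 2 * w - 2031 * y * z - 2292 * y * w + 612 * x * z * w + 180 * x *
      w ^ 2 + 1562 * x - 319 * z + 974 * w) * A1e7 x y z w +
    (-147 * x * y - 874 * x ^ 2 * w + 382 * y * z - 1533 * y * w - 199 * x * z * w - 83 * x * w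
      ^ 2 + 717 * x + 49 * z + 2101 * w) * A1e8 x y z w := by
  simp only [B9, A0e0, A0e1, A0e2, A0e3, A0e4, A0e5, A0e6, A0e7, A0e8, A1e0, A1e1, A1e2, A1e3, A1e4, A1e5, A1e6, A1e7, A1e8]
  ring

end H10CQ.E5
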