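import Pool.Agent.H10.CQ.E5Def

/-!
# Project CQ, elimination for `n = 5`: second step, B10
Generated certificates.  `x, y, z, w` are the elementary symmetric functions `c1, c2, c3, c5` of the
five values `t_k`, and `c4 = c1 * c5`.
-/

namespace H10CQ.E5

variable {R : Type*} [CommRing R]

theorem B10_eq (x y z w : R) : (1536 : R) * B10 x y z w =
    (-3520 * x ^ 2 + 6896 * x * z - 16791 * y ^ 2 + 13788 * x * y * w + 3941 * z ^ 2 - 11365 * z
      * w - 12129 * x ^ 2 * w ^ 2 + 31193 * w ^ 2 + 12869 * y - 6651 * x * w - 2531) * A0e0 x y z w +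
    (-1671 * x ^ 2 + 1975 * x * z + 22464 * y ^ 2 + 35980 * x * y * w - 25738 * z ^ 2 + 6753 * z
      * w - 26011 * x ^ 2 * w ^ 2 + 17637 * w ^ 2 - 95865 * y + 6104 * x * w + 72654) * A0e1 x y z w +
    (5317 * x ^ 2 + 19094 * x * z - 12069 * y ^ 2 + 2566 * x * y * w - 27092 * z ^ 2 + 37263 * z
      * w - 14070 * x ^ 2 * w ^ 2 - 34376 * w ^ 2 + 21775 * y - 32874 * x * w - 17198) * A0e2 x y z w +
    (11930 * x ^ 2 - 2930 * x * z - 18236 * y ^ 2 + 30166 * x * y * w - 26543 * z ^ 2 + 21458 *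
      z * w - 17283 * x ^ 2 * w ^ 2 - 19055 * w ^ 2 + 50353 * y - 19186 * x * w - 12148) * A0e3 x y z w +
    (-1948 * x ^ 2 + 21833 * x * z - 14545 * y ^ 2 + 16804 * x * y * w - 27557 * z ^ 2 + 29246 *
      z * w - 10792 * x ^ 2 * w ^ 2 + 7999 * w ^ 2 + 15273 * y - 22059 * x * w - 2939) * A0e4 x y z w +
    (-34697 * x ^ 2 + 13481 * x * z - 15102 * y ^ 2 + 9960 * x * y * w + 4423 * z ^ 2 - 3277 * z
      * w + 8089 * x ^ 2 * w ^ 2 + 10502 * w ^ 2 + 27459 * y - 9572 * x * w - 1640) * A0e5 x y z w +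
    (-1573 * x ^ 2 + 6 * x * z - 3693 * y ^ 2 + 12473 * x * y * w - 16441 * z ^ 2 + 9220 * z * w
      - 14057 * x ^ 2 * w ^ 2 + 7961 * w ^ 2 - 20969 * y + 2567 * x * w + 1612) * A0e6 x y z w +
    (-15386 * x ^ 2 + 16950 * x * z - 4422 * y ^ 2 - 15104 * x * y * w + 2240 * z ^ 2 + 11148 *
      z * w + 6051 * x ^ 2 * w ^ 2 + 13285 * w ^ 2 - 56348 * y + 44256 * x * w + 33000) * A0e7 x y z w +
    (11415 * x ^ 2 - 10146 * x * z + 13778 * y ^ 2 + 23466 * x * y * w - 11474 * z ^ 2 - 7351 *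
      z * w - 16226 * x ^ 2 * w ^ 2 + 11228 * w ^ 2 - 3143 * y - 8853 * x * w - 7686) * A0e8 x y z w +
    (-6904 * x * y + 3521 * x ^ 2 * w + 16822 * y * z - 12869 * y * w - 6895 * x * z * w + 6652
      * x * w ^ 2 - 94 * x - 4386 * z + 2532 * w) * A1e0 x y z w +
    (-12734 * x * y + 1103 * x ^ 2 * w + 13248 * y * z - 17321 * y * w - 3851 * x * z * w + 9489
      * x * w ^ 2 - 11073 * x - 9553 * z + 2746 * w) * A1e1 x y z w +
    (14350 * x * y - 6375 * x ^ 2 * w - 27403 * y * z - 21040 * y * w + 7910 * x * z * w + 11148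
      * x * w ^ 2 - 17701 * x + 9066 * z - 36228 * w) * A1e2 x y z w +
    (54456 * x * y - 26723 * x ^ 2 * w - 53224 * y * z + 59594 * y * w + 2057 * x * z * w -
      17576 * x * w ^ 2 - 34961 * x + 15171 * z - 2452 * w) * A1e3 x y z w +
    (29916 * x * y - 8825 * x ^ 2 * w - 31937 * y * z + 61653 * y * w + 7586 * x * z * w - 40175
      * x * w ^ 2 - 44871 * x + 27300 * z - 62492 * w) * A1e4 x y z w +
    (1500 * x * y + 8448 * x ^ 2 * w - 2004 * y * z + 12166 * y * w + 162 * x * z * w + 10809 *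
      x * w ^ 2 + 26608 * x - 33514 * z + 26571 * w) * A1e5 x y z w +
    (-2497 * x * y + 6314 * x ^ 2 * w - 1699 * y * z - 10728 * y * w + 5450 * x * z * w + 5359 *
      x * w ^ 2 + 16713 * x - 31746 * z + 19273 * w) * A1e6 x y z w +
    (-1518 * x * y + 15243 * x ^ 2 * w - 116 * y * z - 57200 * y * w + 7655 * x * z * w + 16789
      * x * w ^ 2 + 52538 * x - 17889 * z + 48042 * w) * A1e7 x y z w +
    (-33449 * x * y - 9032 * x ^ 2 * w + 31012 * y * z - 46501 * y * w + 9615 * x * z * w + 9598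
      * x * w ^ 2 + 24531 * x - 33183 * z + 41758 * w) * A1e8 x y z w := by
  simp only [B10, A0e0, A0e1, A0e2, A0e3, A0e4, A0e5, A0e6, A0e7, A0e8, A1e0, A1e1, A1e2, A1e3, A1e4, A1e5, A1e6, A1e7, A1e8]
  ring

end H10CQ.E5
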