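import Pool.Agent.H10.CQ.E5Def

/-!
# Project CQ, elimination for `n = 5`: second step, B11
Generated certificates.  `x, y, z, w` are the elementary symmetric functions `c1, c2, c3, c5` of the
five values `t_k`, and `c4 = c1 * c5`.
-/

namespace H10CQ.E5

variable {R : Type*} [CommRing R]

theorem B11_eq (x y z w : R) : (96 : R) * B11 x y z w =
    (-195 * x ^ 2 + 190 * x * z - 584 * y ^ 2 + 367 * x * y * w + 25 * z ^ 2 - 83 * z * w - 288
      * x ^ 2 * w ^ 2 + 340 * w ^ 2 + 242 * y - 108 * x * w + 38) * A0e0 x y z w +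
    (355 * x ^ 2 - 640 * x * z + 915 * y ^ 2 + 580 * x * y * w - 114 * z ^ 2 + 164 * z * w - 527
      * x ^ 2 * w ^ 2 + 1080 * w ^ 2 - 1198 * y + 545 * x * w + 1493) * A0e1 x y z w +
    (-1594 * x ^ 2 + 1230 * x * z - 235 * y ^ 2 + 776 * x * y * w - 433 * z ^ 2 + 302 * z * w -
      719 * x ^ 2 * w ^ 2 - 432 * w ^ 2 + 270 * y - 219 * x * w + 196) * A0e2 x y z w +
    (-242 * x ^ 2 + 541 * x * z - 323 * y ^ 2 + 570 * x * y * w - 38 * z ^ 2 - 88 * z * w - 590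
      * x ^ 2 * w ^ 2 + 479 * w ^ 2 - 399 * y - 59 * x * w - 185) * A0e3 x y z w +
    (375 * x ^ 2 - 293 * x * z + 110 * y ^ 2 + 596 * x * y * w - 336 * z ^ 2 + 843 * z * w - 661
      * x ^ 2 * w ^ 2 + 132 * w ^ 2 + 1497 * y - 158 * x * w - 488) * A0e4 x y z w +
    (458 * x ^ 2 - 533 * x * z - 389 * y ^ 2 - 160 * x * y * w + 368 * z ^ 2 + 129 * z * w + 126
      * x ^ 2 * w ^ 2 + 437 * w ^ 2 - 422 * y - 563 * x * w + 272) * A0e5 x y z w +
    (1177 * x ^ 2 - 21 * x * z + 16 * y ^ 2 - 54 * x * y * w - 201 * z ^ 2 + 262 * z * w - 394 *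
      x ^ 2 * w ^ 2 + 489 * w ^ 2 - 2526 * y - 337 * x * w + 822) * A0e6 x y z w +
    (766 * x ^ 2 - 208 * x * z + 48 * y ^ 2 - 73 * x * y * w - 131 * z ^ 2 + 896 * z * w - 166 *
      x ^ 2 * w ^ 2 + 134 * w ^ 2 - 654 * y + 14 * x * w + 959) * A0e7 x y z w +
    (532 * x ^ 2 + 36 * x * z + 359 * y ^ 2 + 293 * x * y * w + 9 * z ^ 2 - 175 * z * w - 227 *
      x ^ 2 * w ^ 2 + 777 * w ^ 2 - 644 * y - 94 * x * w + 110) * A0e8 x y z w +
    (-132 * x * y + 194 * x ^ 2 * w + 353 * y * z - 242 * y * w - 190 * x * z * w + 107 * x * w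
      ^ 2 - 180 * x - 99 * z - 39 * w) * A1e0 x y z w +
    (290 * x * y + 524 * x ^ 2 * w - 204 * y * z - 671 * y * w - 157 * x * z * w + 119 * x * w ^
      2 + 81 * x - 314 * z - 104 * w) * A1e1 x y z w +
    (-304 * x * y - 32 * x ^ 2 * w + 182 * y * z - 1040 * y * w + 153 * x * z * w + 239 * x * w
      ^ 2 - 164 * x - 117 * z - 495 * w) * A1e2 x y z w +
    (1412 * x * y - 1044 * x ^ 2 * w - 77 * y * z + 426 * y * w - 282 * x * z * w - 327 * x * w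
      ^ 2 - 228 * x - 1288 * z - 544 * w) * A1e3 x y z w +
    (474 * x * y - 1361 * x ^ 2 * w + 370 * y * z + 988 * y * w + 443 * x * z * w - 702 * x * w
      ^ 2 - 1301 * x - 151 * z - 1496 * w) * A1e4 x y z w +
    (-561 * x * y - 665 * x ^ 2 * w + 697 * y * z - 120 * y * w + 347 * x * z * w + 415 * x * w
      ^ 2 + 1013 * x - 1347 * z + 1300 * w) * A1e5 x y z w +
    (-932 * x * y - 440 * x ^ 2 * w + 347 * y * z - 186 * y * w + 495 * x * z * w + 126 * x * w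
      ^ 2 - 1550 * x + 324 * z + 208 * w) * A1e6 x y z w +
    (-194 * x * y + 290 * x ^ 2 * w + 450 * y * z - 1389 * y * w + 630 * x * z * w + 604 * x * w
      ^ 2 + 2669 * x - 154 * z + 1590 * w) * A1e7 x y z w +
    (-1359 * x * y + 201 * x ^ 2 * w + 609 * y * z - 969 * y * w + 176 * x * z * w + 182 * x * w
      ^ 2 - 1146 * x + 284 * z + 589 * w) * A1e8 x y z w := by
  simp only [B11, A0e0, A0e1, A0e2, A0e3, A0e4, A0e5, A0e6, A0e7, A0e8, A1e0, A1e1, A1e2, A1e3, A1e4, A1e5, A1e6, A1e7, A1e8]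
  ring

end H10CQ.E5
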