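import Pool.Agent.H10.CQ.E5Def

/-!
# Project CQ, elimination for `n = 5`: second step, B12
Generated certificates.  `x, y, z, w` are the elementary symmetric functions `c1, c2, c3, c5` of the
five values `t_k`, and `c4 = c1 * c5`.
-/

namespace H10CQ.E5

variable {R : Type*} [CommRing R]

theorem B12_eq (x y z w : R) : (256 : R) * B12 x y z w =
    (63 * x ^ 2 + 33 * x * z + 140 * y ^ 2 - 95 * x * y * w - 49 * z ^ 2 + 125 * z * w - 420 * x
      ^ 2 * w ^ 2 + 145 * w ^ 2 - 611 * y + 91 * x * w + 413) * A0e0 x y z w +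
    (1215 * x ^ 2 + 4131 * x * z - 5927 * y ^ 2 + 850 * x * y * w + 5901 * z ^ 2 + 3260 * z * w
      + 149 * x ^ 2 * w ^ 2 + 1924 * w ^ 2 + 168 * y + 1166 * x * w + 1432) * A0e1 x y z w +
    (-2490 * x ^ 2 - 423 * x * z - 556 * y ^ 2 + 362 * x * y * w - 246 * z ^ 2 - 332 * z * w -
      198 * x ^ 2 * w ^ 2 + 209 * w ^ 2 + 1709 * y - 696 * x * w + 250) * A0e2 x y z w +
    (-1384 * x ^ 2 + 948 * x * z - 3378 * y ^ 2 + 2004 * x * y * w + 1928 * z ^ 2 + 318 * z * w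
      + 94 * x ^ 2 * w ^ 2 - 1166 * w ^ 2 + 4948 * y - 2852 * x * w - 1183) * A0e3 x y z w +
    (-2250 * x ^ 2 + 198 * x * z - 140 * y ^ 2 - 609 * x * y * w - 1169 * z ^ 2 - 993 * z * w -
      430 * x ^ 2 * w ^ 2 + 2700 * w ^ 2 - 822 * y + 536 * x * w - 40) * A0e4 x y z w +
    (282 * x ^ 2 + 61 * x * z - 622 * y ^ 2 + 842 * x * y * w - 1135 * z ^ 2 - 850 * z * w - 92
      * x ^ 2 * w ^ 2 - 987 * w ^ 2 + 4220 * y - 3534 * x * w - 524) * A0e5 x y z w +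
    (-205 * x ^ 2 + 966 * x * z - 1090 * y ^ 2 - 163 * x * y * w + 938 * z ^ 2 + 420 * z * w +
      126 * x ^ 2 * w ^ 2 + 1793 * w ^ 2 + 321 * y + 1011 * x * w + 1306) * A0e6 x y z w +
    (-1048 * x ^ 2 - 1329 * x * z + 1801 * y ^ 2 - 754 * x * y * w - 3567 * z ^ 2 - 1033 * z * w
      - 379 * x ^ 2 * w ^ 2 + 1342 * w ^ 2 + 484 * y + 1297 * x * w + 49) * A0e7 x y z w +
    (109 * x ^ 2 + 1688 * x * z - 3780 * y ^ 2 + 905 * x * y * w + 4449 * z ^ 2 + 2360 * z * w +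
      320 * x ^ 2 * w ^ 2 + 768 * w ^ 2 + 3940 * y - 1419 * x * w - 1632) * A0e8 x y z w +
    (-168 * x * y - 62 * x ^ 2 * w - 146 * y * z + 611 * y * w - 33 * x * z * w - 91 * x * w ^ 2
      - 313 * x - 143 * z - 413 * w) * A1e0 x y z w +
    (-844 * x * y - 96 * x ^ 2 * w + 41 * y * z - 642 * y * w + 130 * x * z * w - 208 * x * w ^
      2 + 1276 * x + 2940 * z + 961 * w) * A1e1 x y z w +
    (2127 * x * y - 460 * x ^ 2 * w - 264 * y * z - 457 * y * w - 716 * x * z * w + 319 * x * w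
      ^ 2 - 1318 * x + 758 * z - 1245 * w) * A1e2 x y z w +
    (-65 * x * y - 272 * x ^ 2 * w + 140 * y * z + 1577 * y * w + 892 * x * z * w - 2224 * x * w
      ^ 2 - 432 * x - 2150 * z - 3513 * w) * A1e3 x y z w +
    (940 * x * y - 1565 * x ^ 2 * w - 623 * y * z + 3426 * y * w + 503 * x * z * w - 2054 * x *
      w ^ 2 + 59 * x - 2225 * z - 2051 * w) * A1e4 x y z w +
    (940 * x * y - 936 * x ^ 2 * w - 1313 * y * z + 821 * y * w + 608 * x * z * w - 418 * x * w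
      ^ 2 - 714 * x - 148 * z - 1769 * w) * A1e5 x y z w +
    (2136 * x * y - 1470 * x ^ 2 * w - 921 * y * z + 754 * y * w - 624 * x * z * w + 820 * x * w
      ^ 2 + 396 * x + 1075 * z - 712 * w) * A1e6 x y z w +
    (2514 * x * y - 1023 * x ^ 2 * w - 1075 * y * z - 2360 * y * w - 797 * x * z * w + 1149 * x
      * w ^ 2 + 2219 * x + 6508 * z + 3263 * w) * A1e7 x y z w +
    (2749 * x * y - 1109 * x ^ 2 * w - 1113 * y * z - 461 * y * w - 332 * x * z * w + 202 * x *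
      w ^ 2 - 895 * x + 1041 * z - 1590 * w) * A1e8 x y z w := by
  simp only [B12, A0e0, A0e1, A0e2, A0e3, A0e4, A0e5, A0e6, A0e7, A0e8, A1e0, A1e1, A1e2, A1e3, A1e4, A1e5, A1e6, A1e7, A1e8]
  ring

end H10CQ.E5
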