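import Pool.Agent.H10.CQ.E5Def

/-!
# Project CQ, elimination for `n = 5`: second step, B13
Generated certificates.  `x, y, z, w` are the elementary symmetric functions `c1, c2, c3, c5` of the
five values `t_k`, and `c4 = c1 * c5`.
-/

namespace H10CQ.E5

variable {R : Type*} [CommRing R]

theorem B13_eq (x y z w : R) : (192 : R) * B13 x y z w =
    (-334 * x ^ 2 + 825 * x * z - 900 * y ^ 2 + 1569 * x * y * w + 70 * z ^ 2 - 520 * z * w -
      1435 * x ^ 2 * w ^ 2 + 1936 * w ^ 2 + 739 * y - 723 * x * w - 56) * A0e0 x y z w +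
    (-3867 * x ^ 2 + 3565 * x * z + 2042 * y ^ 2 + 3443 * x * y * w - 93 * z ^ 2 + 2498 * z * w
      - 2304 * x ^ 2 * w ^ 2 + 1381 * w ^ 2 - 11215 * y - 1033 * x * w + 7832) * A0e1 x y z w +
    (3583 * x ^ 2 + 1054 * x * z - 1127 * y ^ 2 + 1311 * x * y * w - 3001 * z ^ 2 + 3558 * z * w
      - 3149 * x ^ 2 * w ^ 2 - 1531 * w ^ 2 + 6333 * y - 3741 * x * w - 2520) * A0e2 x y z w +
    (3211 * x ^ 2 + 707 * x * z - 2817 * y ^ 2 + 3985 * x * y * w - 1334 * z ^ 2 + 1949 * z * w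
      - 2138 * x ^ 2 * w ^ 2 + 199 * w ^ 2 + 6459 * y + 550 * x * w - 2270) * A0e3 x y z w +
    (550 * x ^ 2 + 120 * x * z - 859 * y ^ 2 + 835 * x * y * w - 2997 * z ^ 2 + 2626 * z * w -
      1924 * x ^ 2 * w ^ 2 + 1359 * w ^ 2 + 2238 * y - 5276 * x * w - 1208) * A0e4 x y z w +
    (-5956 * x ^ 2 - 318 * x * z - 1459 * y ^ 2 + 392 * x * y * w + 503 * z ^ 2 - 1684 * z * w +
      1533 * x ^ 2 * w ^ 2 + 1719 * w ^ 2 + 3023 * y + 1464 * x * w + 1394) * A0e5 x y z w +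
    (861 * x ^ 2 - 135 * x * z - 249 * y ^ 2 + 1244 * x * y * w - 970 * z ^ 2 + 1404 * z * w -
      1363 * x ^ 2 * w ^ 2 + 566 * w ^ 2 - 3988 * y + 1836 * x * w + 1131) * A0e6 x y z w +
    (-1276 * x ^ 2 - 1339 * x * z - 121 * y ^ 2 - 2414 * x * y * w - 890 * z ^ 2 - 557 * z * w +
      251 * x ^ 2 * w ^ 2 + 1277 * w ^ 2 - 10284 * y + 6542 * x * w + 3371) * A0e7 x y z w +
    (-564 * x ^ 2 + 2113 * x * z + 858 * y ^ 2 + 2577 * x * y * w + 722 * z ^ 2 + 1032 * z * w -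
      1144 * x ^ 2 * w ^ 2 + 696 * w ^ 2 + 26 * y - 1075 * x * w - 1636) * A0e8 x y z w +
    (-368 * x * y + 335 * x ^ 2 * w + 1268 * y * z - 739 * y * w - 826 * x * z * w + 722 * x * w
      ^ 2 + 745 * x - 630 * z + 56 * w) * A1e0 x y z w +
    (687 * x * y - 321 * x ^ 2 * w + 702 * y * z - 1815 * y * w - 371 * x * z * w + 1305 * x * w
      ^ 2 + 428 * x + 635 * z + 561 * w) * A1e1 x y z w +
    (590 * x * y - 513 * x ^ 2 * w - 1671 * y * z - 1615 * y * w + 394 * x * z * w + 1001 * x *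
      w ^ 2 - 903 * x + 1320 * z - 3059 * w) * A1e2 x y z w +
    (3416 * x * y - 3315 * x ^ 2 * w - 5227 * y * z + 9089 * y * w + 361 * x * z * w - 1690 * x
      * w ^ 2 - 4103 * x - 667 * z - 2479 * w) * A1e3 x y z w +
    (2944 * x * y - 781 * x ^ 2 * w - 2078 * y * z + 9454 * y * w + 407 * x * z * w - 3555 * x *
      w ^ 2 - 3188 * x + 2526 * z - 6390 * w) * A1e4 x y z w +
    (-104 * x * y + 3852 * x ^ 2 * w - 145 * y * z + 3066 * y * w - 54 * x * z * w + 1166 * x *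
      w ^ 2 + 966 * x - 1922 * z - 2913 * w) * A1e5 x y z w +
    (322 * x * y + 2874 * x ^ 2 * w + 1168 * y * z - 1433 * y * w + 145 * x * z * w + 1003 * x *
      w ^ 2 + 2288 * x - 36 * z + 1754 * w) * A1e6 x y z w +
    (-3726 * x * y + 4042 * x ^ 2 * w + 840 * y * z - 4936 * y * w + 275 * x * z * w + 1120 * x
      * w ^ 2 + 2369 * x + 1158 * z + 4432 * w) * A1e7 x y z w +
    (-2070 * x * y - 985 * x ^ 2 * w + 2184 * y * z - 4716 * y * w + 749 * x * z * w + 969 * x *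
      w ^ 2 + 1949 * x - 303 * z + 3489 * w) * A1e8 x y z w := by
  simp only [B13, A0e0, A0e1, A0e2, A0e3, A0e4, A0e5, A0e6, A0e7, A0e8, A1e0, A1e1, A1e2, A1e3, A1e4, A1e5, A1e6, A1e7, A1e8]
  ring

end H10CQ.E5
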