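import Pool.Agent.H10.CQ.E5Def

/-!
# Project CQ, elimination for `n = 5`: third step
Generated certificates.  `x, y, z, w` are the elementary symmetric functions `c1, c2, c3, c5` of the
five values `t_k`, and `c4 = c1 * c5`.
-/

namespace H10CQ.E5

variable {R : Type*} [CommRing R]

theorem TT_eq (x y z w : R) : (664730062302240000 : R) * TT x y z w =
    (2648712093834191275813174 * y + 3802872008518377946171579 * x * w +
      66413537263203022411281786) * A0e0 x y z w +
    (35626279325898407367505941 * y + 23175084023366089028342720 * x * w +
      94544539658908536296272166) * A0e1 x y z w +
    (-33463845655561722665222164 * y + 81662254262946000076133151 * x * w -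
      128857411113809934841649721) * A0e2 x y z w +
    (-58261499891018409884516294 * y + 60955341612960065099991892 * x * w -
      79003960580918462564461569) * A0e3 x y z w +
    (62792345965102083396433729 * y - 6996602974503889804418001 * x * w +
      12487350049778273338469505) * A0e4 x y z w +
    (-20437278200426236712891318 * y - 10749196621798794232631657 * x * w +
      50177432517083060489460122) * A0e5 x y z w +
    (37359935895408365734937208 * y - 25569922699601293266891374 * x * w +
      196292707082105432059912) * A0e6 x y z w +
    (-2052853408378515418060675 * y - 4668089602566272582470301 * x * w +
      172763979870557153082430530) * A0e7 x y z w +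
    (-12428625745266500464793763 * y + 2130068366994426396302290 * x * w +
      35843796723363161441594558) * A0e8 x y z w +
    (-8610887337101717757477738 * x + 18825924836105736271681037 * z -
      66413537263203022411281786 * w) * A1e0 x y z w +
    (13573948719424162854827754 * x - 12375334321569753468089412 * z +
      47711300581465710937808892 * w) * A1e1 x y z w +
    (97067682186670020963712187 * x + 14631997307521731833408956 * z +
      196953698347514524388374131 * w) * A1e2 x y z w +
    (97140799014880404483032377 * x - 9154620337121876329564589 * z - 51329355786893525336674101
      * w) * A1e3 x y z w +
    (130271806221757894930972417 * x + 69720107578762811059250108 * z -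
      273904056636617391238783810 * w) * A1e4 x y z w +
    (-36223155037907681502251128 * x - 9572396566630107974906536 * z -
      16753645887084905164687632 * w) * A1e5 x y z w +
    (-22229428950372243806635074 * x + 15168189403860034359084813 * z +
      19964342275442866452282890 * w) * A1e6 x y z w +
    (56199660225068265146027577 * x + 51580940592657265783960476 * z +
      192757946104273167334942983 * w) * A1e7 x y z w +
    (-15847615497129697161175374 * x + 25803626901042584908160560 * z +
      56000960158776604632290899 * w) * A1e8 x y z w +
    (1735398059497419632688 * y - 210459854282074403836 * x * w + 746537929140067377665860) * B9 x y z w +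
    (-31993667594742925279296 * y + 20902778868118541347392 * x * w - 23838382428297086882112) * B10 x y z w +
    (44009677334273567251740 * y - 19386828399152247353052 * x * w - 987909937131275930642124) * B11 x y z w +
    (15351041407648051834752 * y + 7195379348457551885972 * x * w - 435215659253120263427372) * B12 x y z w +
    (3566089687100628475392 * y + 516479674254392261316 * x * w - 199460881425292742402940) * B13 x y z w := by
  simp only [TT, A0e0, A0e1, A0e2, A0e3, A0e4, A0e5, A0e6, A0e7, A0e8, A1e0, A1e1, A1e2, A1e3, A1e4, A1e5, A1e6, A1e7, A1e8, B10, B11, B12, B13, B9]
  ring

end H10CQ.E5
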