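import Mathlib

/-!
# Project CQ, elimination for `n = 5`: the polynomials
Generated certificates.  `x, y, z, w` are the elementary symmetric functions `c1, c2, c3, c5` of the
five values `t_k`, and `c4 = c1 * c5`.
-/

namespace H10CQ.E5

variable {R : Type*} [CommRing R]

def G0 (x y z w : R) : R :=
  27 * x * y - 19 * x ^ 2 * w - 3 * y * z + 15 * y * w - x * z * w + x * w ^ 2 - 135 * x - 21 *
    z + 205 * w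

def G1 (x y z w : R) : R :=
  -108 * x ^ 2 - 42 * x * z + 27 * y ^ 2 + 4 * x * y * w - 6 * z ^ 2 + 2 * z * w + x ^ 2 * w ^
    2 + 216 * y - 22 * x * w + 405

def G2 (x y z w : R) : R :=
  x ^ 3 - 2 * x ^ 2 * z + x * y ^ 2 - 2 * x ^ 2 * y * w + x * z ^ 2 + x ^ 3 * w ^ 2 - 4 * x * y
    + 10 * x ^ 2 * w - 2 * y * z + 6 * y * w - 4 * x * z * w - x * w ^ 2 - x + 6 * z - 10 * w

def G3 (x y z w : R) : R :=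
  -750 * x ^ 3 + 65 * x ^ 2 * z + 50 * x * y ^ 2 - 94 * x ^ 2 * y * w - 12 * x ^ 3 * w ^ 2 + 5
    * y ^ 2 * z + 48 * y ^ 2 * w + 32 * x * y * z * w - 18 * x * y * w ^ 2 - 15 * z ^ 3 + 14 *
    z ^ 2 * w - x ^ 2 * z * w ^ 2 - 3 * z * w ^ 2 + 2 * x ^ 2 * w ^ 3 + 2150 * x * y + 80 * x ^
    2 * w - 300 * y * z - 686 * y * w + 112 * x * z * w - 6 * x * w ^ 2 - 1000 * x - 1005 * z +
    3270 * w

def G4 (x y z w : R) : R :=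
  175 * x ^ 2 * y - 39 * x ^ 3 * w - 590 * x * y * z + 150 * x ^ 2 * z * w + 225 * y ^ 3 - 83 *
    x * y ^ 2 * w - 5 * y * z ^ 2 + 58 * y * z * w + 15 * x ^ 2 * y * w ^ 2 - 9 * y * w ^ 2 -
    11 * x * z ^ 2 * w - 2 * x * z * w ^ 2 + 3 * x ^ 3 * w ^ 3 + x * w ^ 3 - 875 * x ^ 2 + 430
    * x * z - 375 * y ^ 2 + 636 * x * y * w + 465 * z ^ 2 - 810 * z * w - 193 * x ^ 2 * w ^ 2 +
    125 * w ^ 2 + 775 * y - 1773 * x * w + 9375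

def G5 (x y z w : R) : R :=
  1350 * x ^ 3 + 363 * x ^ 2 * z + 146 * x ^ 2 * y * w - 216 * x * z ^ 2 - 58 * x ^ 3 * w ^ 2 +
    33 * y ^ 2 * z + 42 * y ^ 2 * w - 20 * x * y * z * w - 10 * x * y * w ^ 2 + 3 * z ^ 3 + 2 *
    z ^ 2 * w - x ^ 2 * z * w ^ 2 - z * w ^ 2 - 4050 * x * y + 3572 * x ^ 2 * w - 2376 * y * z
    + 562 * y * w - 396 * x * z * w - 62 * x * w ^ 2 + 14850 * x + 8043 * z + 220 * w

def G6 (x y z w : R) : R :=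
  7425 * x ^ 2 * y + 5831 * x ^ 3 * w - 2850 * x * y * z - 1542 * x ^ 2 * z * w + 675 * y ^ 3 +
    271 * x * y ^ 2 * w - 75 * y * z ^ 2 + 118 * y * z * w - 147 * x ^ 2 * y * w ^ 2 - 39 * y *
    w ^ 2 + 11 * x * z ^ 2 * w - 14 * x * z * w ^ 2 + x ^ 3 * w ^ 3 - x * w ^ 3 + 16875 * x ^ 2
    + 17250 * x * z - 31725 * y ^ 2 + 5436 * x * y * w - 8625 * z ^ 2 + 1306 * z * w - 1715 * x
    ^ 2 * w ^ 2 - 285 * w ^ 2 + 47925 * y + 57369 * x * w + 253125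

def A0e0 (x y z w : R) : R :=
  -x ^ 3 * w + 2 * x ^ 2 * z * w - x * y ^ 2 * w + 2 * y * z * w + 2 * x ^ 2 * y * w ^ 2 - 6 *
    y * w ^ 2 - x * z ^ 2 * w + 4 * x * z * w ^ 2 - x ^ 3 * w ^ 3 + x * w ^ 3 + 4 * x * y * w -
    6 * z * w - 10 * x ^ 2 * w ^ 2 + 10 * w ^ 2 + x * w

def A0e1 (x y z w : R) : R :=
  -21 * x ^ 2 * y - 19 * x ^ 3 * w - 57 * x * y * z + 12 * x ^ 2 * z * w + 27 * y ^ 3 - 6 * x *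
    y ^ 2 * w - 3 * y * z ^ 2 + 8 * y * z * w + 2 * x ^ 2 * y * w ^ 2 - 6 * y * w ^ 2 - x * z ^
    2 * w + x * z * w ^ 2 - 84 * x ^ 2 + 18 * x * z + 72 * y ^ 2 + 27 * x * y * w + 48 * z ^ 2
    - 37 * z * w - 9 * x ^ 2 * w ^ 2 - 45 * w ^ 2 - 12 * y - 29 * x * w + 90

def A0e2 (x y z w : R) : R :=
  -7 * x ^ 3 * w + 14 * x ^ 2 * z * w - 7 * x * y ^ 2 * w + 17 * y * z * w + 14 * x ^ 2 * y * w
    ^ 2 - 57 * y * w ^ 2 - 7 * x * z ^ 2 * w + 29 * x * z * w ^ 2 - 7 * x ^ 3 * w ^ 3 + 6 * x *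
    w ^ 3 + x * y * w - 21 * z * w - 51 * x ^ 2 * w ^ 2 - 135 * w ^ 2 + 142 * x * w

def A0e3 (x y z w : R) : R :=
  -14 * x ^ 2 * y + 15 * x ^ 3 * w - 17 * x * y * z - 18 * x ^ 2 * z * w + 9 * y ^ 3 + 9 * x *
    y ^ 2 * w - 2 * y * z ^ 2 - 16 * y * z * w - 14 * x ^ 2 * y * w ^ 2 + 57 * y * w ^ 2 + 7 *
    x * z ^ 2 * w - 29 * x * z * w ^ 2 + 7 * x ^ 3 * w ^ 3 - 6 * x * w ^ 3 + 124 * x ^ 2 + 70 *
    x * z - 24 * y ^ 2 + x * y * w - 12 * z ^ 2 + 27 * z * w + 47 * x ^ 2 * w ^ 2 + 135 * w ^ 2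
    - 8 * y + 30 * x * w + 60

def A0e4 (x y z w : R) : R :=
  61 * x ^ 2 * y + 32 * x ^ 3 * w + 22 * x * y * z + 11 * x ^ 2 * z * w - 18 * y ^ 3 - 6 * x *
    y ^ 2 * w + 4 * y * z ^ 2 - 14 * y * z * w - 7 * x ^ 2 * y * w ^ 2 + 21 * y * w ^ 2 + 5 * x
    * z ^ 2 * w - 11 * x * z * w ^ 2 + 2 * x ^ 3 * w ^ 3 - 2 * x * w ^ 3 - 62 * x ^ 2 + 25 * x
    * z - 96 * y ^ 2 - 64 * x * y * w - 9 * z ^ 2 - 49 * z * w + 28 * x ^ 2 * w ^ 2 + 60 * w ^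
    2 - 131 * y - 36 * x * w - 30

def A0e5 (x y z w : R) : R :=
  -27 * x ^ 2 * y + 11 * x ^ 3 * w + 3 * x * y * z + 17 * x ^ 2 * z * w - 8 * x * y ^ 2 * w +
    19 * y * z * w + 16 * x ^ 2 * y * w ^ 2 - 63 * y * w ^ 2 - 8 * x * z ^ 2 * w + 33 * x * z *
    w ^ 2 - 8 * x ^ 3 * w ^ 3 + 7 * x * w ^ 3 + 135 * x ^ 2 + 21 * x * z - 10 * x * y * w - 27
    * z * w - 62 * x ^ 2 * w ^ 2 - 125 * w ^ 2 - 62 * x * w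

def A0e6 (x y z w : R) : R :=
  -4 * x ^ 3 * w + 27 * x * y * z - 11 * x ^ 2 * z * w - 4 * x * y ^ 2 * w - 3 * y * z ^ 2 + 23
    * y * z * w + 8 * x ^ 2 * y * w ^ 2 - 24 * y * w ^ 2 - 5 * x * z ^ 2 * w + 17 * x * z * w ^
    2 - 4 * x ^ 3 * w ^ 3 + 4 * x * w ^ 3 - 135 * x * z + 16 * x * y * w - 21 * z ^ 2 + 181 * z
    * w - 40 * x ^ 2 * w ^ 2 + 40 * w ^ 2 + 4 * x * w

def A0e7 (x y z w : R) : R :=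
  -13 * x ^ 2 * y - 94 * x ^ 3 * w + 20 * x * y * z - 43 * x ^ 2 * z * w - 9 * y ^ 3 + 28 * x *
    y ^ 2 * w + 2 * y * z ^ 2 - 7 * y * z * w - 2 * x ^ 2 * y * w ^ 2 + 18 * y * w ^ 2 - 3 * x
    * z ^ 2 * w - 10 * x * z * w ^ 2 + 4 * x ^ 3 * w ^ 3 - 3 * x * w ^ 3 + 11 * x ^ 2 - 49 * x
    * z + 24 * y ^ 2 + 187 * x * y * w + 12 * z ^ 2 + 12 * z * w + 11 * x ^ 2 * w ^ 2 - 30 * w
    ^ 2 + 8 * y + 25 * x * w - 60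

def A0e8 (x y z w : R) : R :=
  42 * x ^ 2 * y - 31 * x ^ 3 * w + 102 * x * y * z - 29 * x ^ 2 * z * w - 54 * y ^ 3 + 21 * x
    * y ^ 2 * w + 9 * y * z ^ 2 - 12 * y * z * w + 3 * x ^ 2 * y * w ^ 2 - 12 * y * w ^ 2 - 4 *
    x * z ^ 2 * w + 7 * x * z * w ^ 2 - x ^ 3 * w ^ 3 + x * w ^ 3 + 60 * x ^ 2 - 63 * x * z -
    117 * y ^ 2 + 86 * x * y * w - 51 * z ^ 2 - 19 * z * w - 3 * x ^ 2 * w ^ 2 - 60 * w ^ 2 +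
    105 * y - 67 * x * w + 225

def A1e0 (x y z w : R) : R :=
  x ^ 3 - 2 * x ^ 2 * z + x * y ^ 2 - 2 * x ^ 2 * y * w + x * z ^ 2 + x ^ 3 * w ^ 2 - 4 * x * y
    + 10 * x ^ 2 * w - 2 * y * z + 6 * y * w - 4 * x * z * w - x * w ^ 2 - x + 6 * z - 10 * w

def A1e1 (x y z w : R) : R :=
  3 * x ^ 3 - 22 * x ^ 2 * z + 5 * x * y ^ 2 + 4 * x ^ 2 * y * w - 3 * x * z ^ 2 + 2 * y ^ 2 *
    z - 3 * y ^ 2 * w - x * y * z * w + 2 * x * y * w ^ 2 - 4 * x * y - 18 * x ^ 2 * w + 21 * y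
    * z + 30 * y * w - 12 * x * z * w + 23 * x * w ^ 2 - 4 * x + 54 * z + 40 * w

def A1e2 (x y z w : R) : R :=
  -16 * x ^ 3 + 52 * x ^ 2 * z - 32 * x * y ^ 2 - 21 * x ^ 2 * y * w - 10 * x * z ^ 2 - 11 * x
    ^ 3 * w ^ 2 + 11 * y ^ 2 * z + 51 * y ^ 2 * w + 9 * x * y * z * w + 3 * x * y * w ^ 2 - 6 *
    z ^ 3 - 4 * z ^ 2 * w + 2 * z * w ^ 2 + 2 * x ^ 2 * w ^ 3 - 19 * x ^ 2 * w + 32 * y * z +
    24 * y * w - 21 * x * z * w - 9 * x * w ^ 2 + 24 * x + 21 * z + 5 * w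

def A1e3 (x y z w : R) : R :=
  36 * x ^ 3 - 46 * x ^ 2 * z + 11 * x * y ^ 2 + 22 * x ^ 2 * y * w + 18 * x * z ^ 2 + 15 * x ^
    3 * w ^ 2 - 10 * y ^ 2 * z - 33 * y ^ 2 * w - 8 * x * y * z * w + 6 * z ^ 3 - 2 * z ^ 2 * w
    - x ^ 2 * w ^ 3 - x * y - 35 * x ^ 2 * w - 9 * y * z + 49 * y * w - 29 * x * z * w - 23 * x
    * w ^ 2 - 10 * x - 39 * z - 10 * w

def A1e4 (x y z w : R) : R :=
  -40 * x ^ 3 - 9 * x ^ 2 * z - 6 * x * y ^ 2 - 11 * x ^ 2 * y * w - 4 * x * z ^ 2 - 2 * x ^ 3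
    * w ^ 2 + 7 * y ^ 2 * z + 21 * y ^ 2 * w + 4 * x * y * z * w + 3 * x * y * w ^ 2 - 3 * z ^
    3 - 2 * z ^ 2 * w + z * w ^ 2 + x ^ 2 * w ^ 3 + 80 * x * y - 23 * x ^ 2 * w + 47 * y * z +
    18 * y * w - 27 * x * z * w + 11 * x * w ^ 2 + 23 * x + 9 * z - 50 * w

def A1e5 (x y z w : R) : R :=
  -69 * x ^ 3 + 19 * x ^ 2 * z + 31 * x * y ^ 2 - 23 * x ^ 2 * y * w - 15 * x * z ^ 2 - 12 * x
    ^ 3 * w ^ 2 + y ^ 2 * z + 21 * y ^ 2 * w + 3 * x * y * z * w - x * y * w ^ 2 - 3 * z ^ 3 +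
    4 * z ^ 2 * w - z * w ^ 2 - 26 * x * y - 11 * x ^ 2 * w - 6 * y * z + 84 * y * w + 59 * x *
    z * w + 26 * x * w ^ 2 + 19 * x - 63 * z - 25 * w

def A1e6 (x y z w : R) : R :=
  23 * x ^ 3 - 50 * x ^ 2 * z + 10 * x * y ^ 2 + 16 * x ^ 2 * y * w + 23 * x * z ^ 2 + 21 * x ^
    3 * w ^ 2 - 10 * y ^ 2 * z - 36 * y ^ 2 * w - 7 * x * y * z * w - 2 * x * y * w ^ 2 + 6 * z
    ^ 3 - 2 * z ^ 2 * w - x ^ 2 * w ^ 3 + 72 * x * y + 48 * x ^ 2 * w - 49 * y * z + 2 * y * w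
    - 48 * x * z * w - 47 * x * w ^ 2 + 105 * x + 6 * z + 55 * w

def A1e7 (x y z w : R) : R :=
  36 * x ^ 3 + x ^ 2 * z + 4 * x * y ^ 2 + 29 * x ^ 2 * y * w - 6 * x * z ^ 2 - 5 * x ^ 3 * w ^
    2 - 5 * y ^ 2 * z - 24 * y ^ 2 * w - 5 * x * y * z * w - x * y * w ^ 2 + 3 * z ^ 3 + 2 * z
    ^ 2 * w - z * w ^ 2 - x ^ 2 * w ^ 3 - 83 * x * y - 46 * x ^ 2 * w - 9 * y * z - 45 * y * w
    + 44 * x * z * w + 18 * x * w ^ 2 + 115 * x + 24 * z - 45 * w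

def A1e8 (x y z w : R) : R :=
  49 * x ^ 3 + 23 * x ^ 2 * z - 16 * x * y ^ 2 + 19 * x ^ 2 * y * w + 25 * x * z ^ 2 - 2 * x ^
    3 * w ^ 2 - 8 * y ^ 2 * z - 3 * y ^ 2 * w - 4 * x * y * z * w + 11 * x * y * w ^ 2 + 3 * z
    ^ 3 - 4 * z ^ 2 * w - x ^ 2 * z * w ^ 2 + z * w ^ 2 + x ^ 2 * w ^ 3 - 24 * x * y - 15 * x ^
    2 * w - 95 * y * z + 8 * y * w - 71 * x * z * w + 110 * x * w ^ 2 + 105 * x - 6 * z + 20 *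
    w

def B9 (x y z w : R) : R :=
  13170 * x ^ 2 * y + 1289 * x ^ 3 * w - 4953 * x * y * z + 4945 * x ^ 2 * z * w - 738 * y ^ 3
    + 2550 * x * y ^ 2 * w - 3006 * y * z ^ 2 + 16 * y * z * w - 5337 * x ^ 2 * y * w ^ 2 +
    2966 * y * w ^ 2 + 2674 * x * z ^ 2 * w - 2868 * x * z * w ^ 2 + 1433 * x ^ 3 * w ^ 3 - 861
    * x * w ^ 3 + 2046 * x ^ 2 - 27 * x * z + 2979 * y ^ 2 + 1724 * x * y * w - 1419 * z ^ 2 +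
    914 * z * w - 4896 * x ^ 2 * w ^ 2 - 1110 * w ^ 2 + 1569 * y - 499 * x * w - 630

def B10 (x y z w : R) : R :=
  2564 * x ^ 2 * y + 1546 * x ^ 3 * w - 1785 * x * y * z + 2483 * x ^ 2 * z * w - 3480 * y ^ 3
    + 272 * x * y ^ 2 * w + 3635 * y * z ^ 2 - 12270 * y * z * w + 1108 * x ^ 2 * y * w ^ 2 +
    1554 * y * w ^ 2 + 36 * x * z ^ 2 * w + 233 * x * z * w ^ 2 - 551 * x ^ 3 * w ^ 3 + 195 * x
    * w ^ 3 + 4026 * x ^ 2 - 9246 * x * z + 6635 * y ^ 2 - 1941 * x * y * w - 255 * z ^ 2 -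
    4700 * z * w + 176 * x ^ 2 * w ^ 2 + 655 * w ^ 2 - 2815 * y + 1716 * x * w + 1425

def B11 (x y z w : R) : R :=
  -9668 * x ^ 2 * y - 7263 * x ^ 3 * w + 7451 * x * y * z + 12214 * x ^ 2 * z * w - 1173 * y ^
    3 - 1128 * x * y ^ 2 * w - 215 * y * z ^ 2 - 10905 * y * z * w + 731 * x ^ 2 * y * w ^ 2 -
    220 * y * w ^ 2 - 1278 * x * z ^ 2 * w + 828 * x * z * w ^ 2 - 603 * x ^ 3 * w ^ 3 + 309 *
    x * w ^ 3 + 282 * x ^ 2 - 1353 * x * z + 574 * y ^ 2 - 2833 * x * y * w + 1923 * z ^ 2 +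
    199 * z * w + 1805 * x ^ 2 * w ^ 2 + 1020 * w ^ 2 - 2246 * y + 1007 * x * w + 1095

def B12 (x y z w : R) : R :=
  9639 * x ^ 2 * y - 7122 * x ^ 3 * w - 3966 * x * y * z - 3614 * x ^ 2 * z * w - 2448 * y ^ 3
    + 6135 * x * y ^ 2 * w + 288 * y * z ^ 2 + 118 * y * z * w + 1157 * x ^ 2 * y * w ^ 2 -
    5329 * y * w ^ 2 - 1380 * x * z ^ 2 * w + 1218 * x * z * w ^ 2 - 485 * x ^ 3 * w ^ 3 + 818
    * x * w ^ 3 - 363 * x ^ 2 + 7206 * x * z - 3435 * y ^ 2 - 2662 * x * y * w + 9531 * z ^ 2 +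
    5898 * z * w - 861 * x ^ 2 * w ^ 2 + 285 * w ^ 2 + 3987 * y - 1349 * x * w - 1215

def B13 (x y z w : R) : R :=
  2580 * x ^ 2 * y + 15769 * x ^ 3 * w + 5411 * x * y * z - 2372 * x ^ 2 * z * w - 4983 * y ^ 3
    - 2745 * x * y ^ 2 * w + 1005 * y * z ^ 2 - 11304 * y * z * w + 6667 * x ^ 2 * y * w ^ 2 -
    5950 * y * w ^ 2 - 3196 * x * z ^ 2 * w + 5021 * x * z * w ^ 2 - 2145 * x ^ 3 * w ^ 3 +
    1139 * x * w ^ 3 - 1460 * x ^ 2 + 5080 * x * z + 4988 * y ^ 2 + 7564 * x * y * w + 5151 * z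
    ^ 2 + 3751 * z * w + 4530 * x ^ 2 * w ^ 2 + 220 * w ^ 2 - 669 * y + 67 * x * w + 180

def TT (x y z w : R) : R :=
  x ^ 2 + 2 * x * z - y ^ 2 - 2 * x * y * w + z ^ 2 + 2 * z * w - x ^ 2 * w ^ 2 + w ^ 2 - 2 * y
    - 1

end H10CQ.E5
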