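import Pool.Agent.H10.CQ.Wrap

/-!
# CQ Elim2: the solutions of the six equations with two elements

`s1 = t_1 + t_2`, `s2 = t_1 t_2`.  Equations 1, 2, 3: `s1 (s2 - 1) = 0`, `6 - 2 s2 - s1^2 = 0`,
`s1 (1 - s2) = 0`.  `s1 ≠ 0` gives `s2 = 1`, `s1 = ± 2`, `t_i = ± 1`.  So `s1 = 0`, `s2 = 3`.
-/

namespace H10CQ

theorem six_two {p : ℕ} [Fact p.Prime] (hp : 5 ≤ p) {Ω : Type*} [Field Ω] [CharP Ω p]
    (t : Fin 2 → Ω) (h : Six t) : ∀ k, t k ^ 2 + 3 = 0 := by
  have two : (2 : Ω) ≠ 0 := by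
    have := cast_ne p (Ω := Ω) (k := 2) (by omega) (by omega)
    exact_mod_cast this
  obtain ⟨d0, d1, d2, d3, d4, -, -, -, e1, e2, e3, -, -, -⟩ := h
  rw [Fin.sum_univ_two] at e1 e2 e3
  obtain ⟨x, hx⟩ : ∃ x, x = t 0 := ⟨_, rfl⟩
  obtain ⟨y, hy⟩ : ∃ y, y = t 1 := ⟨_, rfl⟩
  have x0 := d0 0
  have x1 := d1 0
  have x2 := d2 0
  have x3 := d3 0
  have x4 := d4 0
  have y0 := d0 1
  have y1 := d1 1
  have y2 := d2 1
  have y3 := d3 1
  have y4 := d4 1
  rw [← hx] at e1 e2 e3 x0 x1 x2 x3 x4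
  rw [← hy] at e1 e2 e3 y0 y1 y2 y3 y4
  obtain ⟨s1, hs1⟩ : ∃ s1, s1 = x + y := ⟨_, rfl⟩
  obtain ⟨s2, hs2⟩ : ∃ s2, s2 = x * y := ⟨_, rfl⟩
  have f1 : s1 * (s2 - 1) = 0 := by
    field_simp at e1
    rw [hs1, hs2]
    linear_combination e1
  have f2 : 6 + s1 - 2 * s2 - s1 ^ 2 - s1 * s2 = 0 := by
    have g : 2 * (6 + s1 - 2 * s2 - s1 ^ 2 - s1 * s2)
      = (1 / (x - 1) + 1 / (x + 3) + (1 / (y - 1) + 1 / (y + 3)))
        * (-((x - 1) * (y - 1) * ((x + 3) * (y + 3)))) := by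
      rw [hs1, hs2]
      field_simp
      ring
    rw [e2, zero_mul] at g
    exact (mul_eq_zero.1 g).resolve_left two
  have f3 : 6 - s1 - 2 * s2 - s1 ^ 2 + s1 * s2 = 0 := by
    have g : 2 * (6 - s1 - 2 * s2 - s1 ^ 2 + s1 * s2)
      = (1 / (x + 1) + 1 / (x - 3) + (1 / (y + 1) + 1 / (y - 3)))
        * (((x + 1) * (y + 1) * ((x - 3) * (y - 3)))) := by
      rw [hs1, hs2]
      field_simp
      ring
    rw [e3, zero_mul] at g
    exact (mul_eq_zero.1 g).resolve_left two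
  have f4 : 6 - 2 * s2 - s1 ^ 2 = 0 := by
    have : 2 * (6 - 2 * s2 - s1 ^ 2) = 0 := by linear_combination f2 + f3
    exact (mul_eq_zero.1 this).resolve_left two
  have hs0 : s1 = 0 := by
    rcases mul_eq_zero.1 f1 with h | h
    · exact h
    · exfalso
      have h2 : s2 = 1 := sub_eq_zero.1 h
      have h3 : (s1 - 2) * (s1 + 2) = 0 := by
        rw [h2] at f4
        linear_combination -f4
      rcases mul_eq_zero.1 h3 with h4 | h4
      · have h5 : (x - 1) * (y - 1) = 0 := by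
          have : (x - 1) * (y - 1) = s2 - s1 + 1 := by
            rw [hs1, hs2]
            ring
          rw [this, h2]
          linear_combination -h4
        exact mul_ne_zero x1 y1 h5
      · have h5 : (x + 1) * (y + 1) = 0 := by
          have : (x + 1) * (y + 1) = s2 + s1 + 1 := by
            rw [hs1, hs2]
            ring
          rw [this, h2]
          linear_combination h4
        exact mul_ne_zero x2 y2 h5
  have h2 : s2 = 3 := by
    rw [hs0] at f4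
    have : 2 * (3 - s2) = 0 := by linear_combination f4
    exact (sub_eq_zero.1 ((mul_eq_zero.1 this).resolve_left two)).symm
  intro k
  fin_cases k
  · show t 0 ^ 2 + 3 = 0
    rw [← hx]
    linear_combination x * (hs0.symm.trans hs1).symm + hs2 - h2
  · show t 1 ^ 2 + 3 = 0
    rw [← hy]
    linear_combination y * (hs0.symm.trans hs1).symm + hs2 - h2

end H10CQ
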