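import Pool.Agent.H10.CQ.Wrap

/-!
# CQ Elim4: the solutions of the six equations with four elements

`X, Y, W, Z` elementary symmetric functions of `t_1, .., t_4`; equation 1 is `W = X Z`. The sums and
differences of the equations 2, 3 and 5, 6 and equation 4 are `rA, rB, rE, rO, rC` of `core_four`.
* `X = 0`: `Z (Y + 26) = 3 Y ^ 2 + 21 Y + 54`, `(Y + 2) ^ 2 (Y - 6) = 0`; `Y = -2` gives `t_i = 1` for
  some `i`; `Y = 6` gives `Z = 9`, all `t_i ^ 2 = -3`.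
* `X ≠ 0`: `Y (Z + 3) = Z ^ 2 - 4 Z + 27`, `(Z - 1) (Z - 3) ^ 2 (Z ^ 2 + 4 Z + 27) = 0`; `Z = 1` and
  `Z = 3` give `t_i = ± 1` for some `i`; `Z ^ 2 + 4 Z + 27 = 0` gives `347 + 111 Z = 0`,
  `1325 - 7 Z = 0`, `2 ^ 11 * 73 = 0`.
-/

namespace H10CQ

theorem core_four {Ω : Type*} [Field Ω] (h2 : (2 : Ω) ≠ 0) (h3 : (3 : Ω) ≠ 0) (h5 : (5 : Ω) ≠ 0)
    (h73 : (73 : Ω) ≠ 0) (X Y Z : Ω)
    (rA : X ^ 2 * (Z ^ 2 + 4 * Z + 27) - 6 * Y ^ 2 + 2 * Y * Z - 42 * Y + 52 * Z - 108 = 0)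
    (rB : X * (Y * Z + 3 * Y - Z ^ 2 + 4 * Z - 27) = 0)
    (rC : X * (X ^ 2 * (Z - 1) ^ 2 - Z ^ 2 + 14 * Z - 1 - 4 * Y - 4 * Y * Z + Y ^ 2) = 0)
    (rE : -X ^ 2 * Y * Z ^ 2 + 32 * X ^ 2 * Y * Z + 5 * X ^ 2 * Y + 2 * X ^ 2 * Z ^ 3
      - 30 * X ^ 2 * Z ^ 2 - 46 * X ^ 2 * Z + 50 * X ^ 2 - 15 * Y ^ 3 + 14 * Y ^ 2 * Z - 3 * Y * Z ^ 2
      - 82 * Y * Z + 65 * Y + 2 * Z ^ 2 + 532 * Z - 750 = 0)
    (rO : X * (3 * X ^ 2 * Z ^ 3 + 15 * X ^ 2 * Z ^ 2 - 83 * X ^ 2 * Z + 225 * X ^ 2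
      - 11 * Y ^ 2 * Z - 5 * Y ^ 2 - 2 * Y * Z ^ 2 + 208 * Y * Z - 590 * Y + Z ^ 3 - 143 * Z ^ 2
      + 287 * Z + 175) = 0)
    (q1 : 1 - X + Y - X * Z + Z ≠ 0) (q2 : 1 + X + Y + X * Z + Z ≠ 0) :
    X = 0 ∧ Y = 6 ∧ Z = 9 := by
  have n2 : ∀ n : ℕ, (2 : Ω) ^ n ≠ 0 := fun n => pow_ne_zero n h2
  by_cases hX : X = 0
  · rw [hX] at rA rE q1
    have hz : Z * (Y + 26) = 3 * Y ^ 2 + 21 * Y + 54 := by
      have : (2 : Ω) * (Z * (Y + 26) - (3 * Y ^ 2 + 21 * Y + 54)) = 0 := by linear_combination rA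
      exact sub_eq_zero.1 ((mul_eq_zero.1 this).resolve_left h2)
    have h26 : Y + 26 ≠ 0 := by
      intro h0
      have hY : Y = -26 := eq_neg_of_add_eq_zero_left h0
      rw [hY] at hz
      have : (2 : Ω) ^ 9 * 3 = 0 := by linear_combination -hz
      exact mul_ne_zero (n2 9) h3 this
    have h1 : (2 : Ω) ^ 11 * 5 * ((Y + 2) ^ 2 * (Y - 6)) = 0 := by
      linear_combination -(Y + 26) ^ 2 * rE + ((14 * Y ^ 2 - 82 * Y + 532) * (Y + 26)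
        + (2 - 3 * Y) * (Z * (Y + 26) + (3 * Y ^ 2 + 21 * Y + 54))) * hz
    rcases mul_eq_zero.1 ((mul_eq_zero.1 h1).resolve_left (mul_ne_zero (n2 11) h5)) with h | h
    · exfalso
      have hY : Y = -2 := eq_neg_of_add_eq_zero_left ((pow_eq_zero_iff two_ne_zero).1 h)
      rw [hY] at hz q1
      apply q1
      have : (2 : Ω) ^ 3 * 3 * (Z - 1) = 0 := by linear_combination hz
      have hZ := (mul_eq_zero.1 this).resolve_left (mul_ne_zero (n2 3) h3)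
      linear_combination hZ
    · have hY : Y = 6 := sub_eq_zero.1 h
      refine ⟨hX, hY, ?_⟩
      rw [hY] at hz
      have : (2 : Ω) ^ 5 * (Z - 9) = 0 := by linear_combination hz
      exact sub_eq_zero.1 ((mul_eq_zero.1 this).resolve_left (n2 5))
  · exfalso
    have hB := (mul_eq_zero.1 rB).resolve_left hX
    have hC := (mul_eq_zero.1 rC).resolve_left hX
    have hO := (mul_eq_zero.1 rO).resolve_left hX
    have hy : Y * (Z + 3) = Z ^ 2 - 4 * Z + 27 := by linear_combination hB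
    have hZ3 : Z + 3 ≠ 0 := by
      intro h0
      have hZ : Z = -3 := eq_neg_of_add_eq_zero_left h0
      rw [hZ] at hy
      have : (2 : Ω) ^ 4 * 3 = 0 := by linear_combination -hy
      exact mul_ne_zero (n2 4) h3 this
    have hS : (2 : Ω) ^ 4 * 5 * ((Z - 1) * ((Z - 3) ^ 2 * (Z ^ 2 + 4 * Z + 27))) = 0 := by
      have ha : (Z + 3) ^ 2 * (6 * Y ^ 2 - 2 * Y * Z + 42 * Y - 52 * Z + 108)
          = 6 * (Z ^ 2 - 4 * Z + 27) ^ 2 - 2 * Z * (Z + 3) * (Z ^ 2 - 4 * Z + 27)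
            + 42 * (Z + 3) * (Z ^ 2 - 4 * Z + 27) + (-52 * Z + 108) * (Z + 3) ^ 2 := by
        linear_combination (6 * (Y * (Z + 3) + (Z ^ 2 - 4 * Z + 27)) - 2 * Z * (Z + 3)
          + 42 * (Z + 3)) * hy
      have hc : (Z + 3) ^ 2 * (Z ^ 2 - 14 * Z + 1 + 4 * Y + 4 * Y * Z - Y ^ 2)
          = (Z ^ 2 - 14 * Z + 1) * (Z + 3) ^ 2 + 4 * (Z + 3) * (Z ^ 2 - 4 * Z + 27)
            + 4 * Z * (Z + 3) * (Z ^ 2 - 4 * Z + 27) - (Z ^ 2 - 4 * Z + 27) ^ 2 := by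
        linear_combination (4 * (Z + 3) + 4 * Z * (Z + 3)
          - (Y * (Z + 3) + (Z ^ 2 - 4 * Z + 27))) * hy
      linear_combination (Z + 3) ^ 2 * ((Z - 1) ^ 2 * rA - (Z ^ 2 + 4 * Z + 27) * hC)
        + (Z - 1) ^ 2 * ha - (Z ^ 2 + 4 * Z + 27) * hc
    have hxx : ∀ m : Ω, X ^ 2 = m ^ 2 → X = m ∨ X = -m := by
      intro m hm
      exact sq_eq_sq_iff_eq_or_eq_neg.1 hm
    rcases mul_eq_zero.1 ((mul_eq_zero.1 hS).resolve_left (mul_ne_zero (n2 4) h5)) with h | h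
    · have hZ : Z = 1 := sub_eq_zero.1 h
      rw [hZ] at hy
      have hY : Y = 6 := by
        have : (2 : Ω) ^ 2 * (Y - 6) = 0 := by linear_combination hy
        exact sub_eq_zero.1 ((mul_eq_zero.1 this).resolve_left (n2 2))
      have hX2 : X ^ 2 = 4 ^ 2 := by
        rw [hZ, hY] at rA
        have : (2 : Ω) ^ 5 * (X ^ 2 - 4 ^ 2) = 0 := by linear_combination rA
        exact sub_eq_zero.1 ((mul_eq_zero.1 this).resolve_left (n2 5))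
      rcases hxx 4 hX2 with h4 | h4
      · apply q1
        rw [h4, hY, hZ]
        norm_num
      · apply q2
        rw [h4, hY, hZ]
        norm_num
    · rcases mul_eq_zero.1 h with h | h
      · have hZ : Z = 3 := sub_eq_zero.1 ((pow_eq_zero_iff two_ne_zero).1 h)
        rw [hZ] at hy
        have hY : Y = 4 := by
          have : (2 : Ω) * 3 * (Y - 4) = 0 := by linear_combination hy
          exact sub_eq_zero.1 ((mul_eq_zero.1 this).resolve_left (mul_ne_zero h2 h3))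
        have hX2 : X ^ 2 = 2 ^ 2 := by
          rw [hZ, hY] at rA
          have : (2 : Ω) ^ 4 * 3 * (X ^ 2 - 2 ^ 2) = 0 := by linear_combination rA
          exact sub_eq_zero.1 ((mul_eq_zero.1 this).resolve_left (mul_ne_zero (n2 4) h3))
        rcases hxx 2 hX2 with h4 | h4
        · apply q1
          rw [h4, hY, hZ]
          norm_num
        · apply q2
          rw [h4, hY, hZ]
          norm_num
      · have hY : Y = -9 - Z := by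
          have : (Z + 3) * (Y + 9 + Z) = 0 := by linear_combination hy + 2 * h
          have := (mul_eq_zero.1 this).resolve_left hZ3
          linear_combination this
        have hZ1 : Z - 1 ≠ 0 := by
          intro h0
          have hZ : Z = 1 := sub_eq_zero.1 h0
          rw [hZ] at h
          have : (2 : Ω) ^ 5 = 0 := by linear_combination h
          exact n2 5 this
        rw [hY] at hC rE hO
        have hU8 : 8 * X ^ 2 = 71 + 11 * Z := by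
          have : (Z - 1) ^ 2 * (8 * X ^ 2 - (71 + 11 * Z)) = 0 := by
            linear_combination 8 * hC + (-37 - 11 * Z) * h
          exact sub_eq_zero.1 ((mul_eq_zero.1 this).resolve_left (pow_ne_zero 2 hZ1))
        have e1 : 347 + 111 * Z = 0 := by
          have : (2 : Ω) ^ 6 * 5 * (347 + 111 * Z) = 0 := by
            linear_combination 8 * rE - (3 * Z ^ 3 - 53 * Z ^ 2 - 339 * Z + 5) * hU8
              - (33 * Z ^ 2 - 246 * Z - 1255) * h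
          exact (mul_eq_zero.1 this).resolve_left (mul_ne_zero (n2 6) h5)
        have e2 : 1325 - 7 * Z = 0 := by
          have : (2 : Ω) ^ 5 * 5 * (1325 - 7 * Z) = 0 := by
            linear_combination 8 * hO - (3 * Z ^ 3 + 15 * Z ^ 2 - 83 * Z + 225) * hU8
              - (33 * Z ^ 2 + 182 * Z - 5755) * h
          exact (mul_eq_zero.1 this).resolve_left (mul_ne_zero (n2 5) h5)
        have : (2 : Ω) ^ 11 * 73 = 0 := by linear_combination 7 * e1 + 111 * e2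
        exact mul_ne_zero (n2 11) h73 this

theorem inv_four {Ω : Type*} [Field Ω] (a b c d : Ω) (ha : a ≠ 0) (hb : b ≠ 0) (hc : c ≠ 0)
    (hd : d ≠ 0) : (1 / a + 1 / b + 1 / c + 1 / d) * (a * b * c * d)
      = b * c * d + a * c * d + a * b * d + a * b * c := by
  field_simp

theorem six_four {p : ℕ} [Fact p.Prime] (hp : 7 ≤ p) (h73 : p ≠ 73) {Ω : Type*} [Field Ω]
    [CharP Ω p] (t : Fin 4 → Ω) (h : Six t) : ∀ k, t k ^ 2 + 3 = 0 := by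
  have two : (2 : Ω) ≠ 0 := by
    have := cast_ne p (Ω := Ω) (k := 2) (by omega) (by omega)
    exact_mod_cast this
  have three : (3 : Ω) ≠ 0 := by
    have := cast_ne p (Ω := Ω) (k := 3) (by omega) (by omega)
    exact_mod_cast this
  have five : (5 : Ω) ≠ 0 := by
    have := cast_ne p (Ω := Ω) (k := 5) (by omega) (by omega)
    exact_mod_cast this
  have n73 : (73 : Ω) ≠ 0 := by
    intro h0
    have h1 : ((73 : ℕ) : Ω) = 0 := by exact_mod_cast h0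
    have h2 := (CharP.cast_eq_zero_iff Ω p 73).1 h1
    exact h73 ((Nat.prime_dvd_prime_iff_eq Fact.out (by norm_num)).1 h2)
  obtain ⟨d0, d1, d2, d3, d4, d5, d6, d7, e1, e2, e3, e4, e5, e6⟩ := h
  rw [Fin.sum_univ_four] at e1 e2 e3 e4 e5 e6
  obtain ⟨x, hx⟩ : ∃ x, x = t 0 := ⟨_, rfl⟩
  obtain ⟨y, hy⟩ : ∃ y, y = t 1 := ⟨_, rfl⟩
  obtain ⟨z, hz⟩ : ∃ z, z = t 2 := ⟨_, rfl⟩
  obtain ⟨w, hw⟩ : ∃ w, w = t 3 := ⟨_, rfl⟩
  have x0 := d0 0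
  have x1 := d1 0
  have x2 := d2 0
  have x3 := d3 0
  have x4 := d4 0
  have x5 := d5 0
  have x6 := d6 0
  have x7 := d7 0
  have y0 := d0 1
  have y1 := d1 1
  have y2 := d2 1
  have y3 := d3 1
  have y4 := d4 1
  have y5 := d5 1
  have y6 := d6 1
  have y7 := d7 1
  have z0 := d0 2
  have z1 := d1 2
  have z2 := d2 2
  have z3 := d3 2
  have z4 := d4 2
  have z5 := d5 2
  have z6 := d6 2
  have z7 := d7 2
  have w0 := d0 3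
  have w1 := d1 3
  have w2 := d2 3
  have w3 := d3 3
  have w4 := d4 3
  have w5 := d5 3
  have w6 := d6 3
  have w7 := d7 3
  rw [← hx] at e1 e2 e3 e4 e5 e6 x0 x1 x2 x3 x4 x5 x6 x7
  rw [← hy] at e1 e2 e3 e4 e5 e6 y0 y1 y2 y3 y4 y5 y6 y7
  rw [← hz] at e1 e2 e3 e4 e5 e6 z0 z1 z2 z3 z4 z5 z6 z7
  rw [← hw] at e1 e2 e3 e4 e5 e6 w0 w1 w2 w3 w4 w5 w6 w7
  clear d0 d1 d2 d3 d4 d5 d6 d7
  have core : x + y + z + w = 0 ∧ x * y + x * z + x * w + y * z + y * w + z * w = 6 ∧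
      x * y * z * w = 9 ∧ x * y * z + x * y * w + x * z * w + y * z * w = 0 := by
    clear hx hy hz hw
    obtain ⟨s1, hs1⟩ : ∃ s1, s1 = x + y + z + w := ⟨_, rfl⟩
    obtain ⟨s2, hs2⟩ : ∃ s2, s2 = x * y + x * z + x * w + y * z + y * w + z * w := ⟨_, rfl⟩
    obtain ⟨s3, hs3⟩ : ∃ s3, s3 = x * y * z + x * y * w + x * z * w + y * z * w := ⟨_, rfl⟩
    obtain ⟨s4, hs4⟩ : ∃ s4, s4 = x * y * z * w := ⟨_, rfl⟩
    -- the sums of the inverses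
    have a0 := inv_four x y z w x0 y0 z0 w0
    have a1 := inv_four (x - 1) (y - 1) (z - 1) (w - 1) x1 y1 z1 w1
    have a2 := inv_four (x + 1) (y + 1) (z + 1) (w + 1) x2 y2 z2 w2
    have a3 := inv_four (x - 3) (y - 3) (z - 3) (w - 3) x3 y3 z3 w3
    have a4 := inv_four (x + 3) (y + 3) (z + 3) (w + 3) x4 y4 z4 w4
    have a6 := inv_four (x ^ 2 - 2 * x + 5) (y ^ 2 - 2 * y + 5) (z ^ 2 - 2 * z + 5)
      (w ^ 2 - 2 * w + 5) x6 y6 z6 w6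
    have a7 := inv_four (x ^ 2 + 2 * x + 5) (y ^ 2 + 2 * y + 5) (z ^ 2 + 2 * z + 5)
      (w ^ 2 + 2 * w + 5) x7 y7 z7 w7
    have a5 : (x / (x ^ 2 + 1) + y / (y ^ 2 + 1) + z / (z ^ 2 + 1) + w / (w ^ 2 + 1))
        * ((x ^ 2 + 1) * (y ^ 2 + 1) * (z ^ 2 + 1) * (w ^ 2 + 1))
        = x * ((y ^ 2 + 1) * (z ^ 2 + 1) * (w ^ 2 + 1)) + y * ((x ^ 2 + 1) * (z ^ 2 + 1) * (w ^ 2 + 1))
          + z * ((x ^ 2 + 1) * (y ^ 2 + 1) * (w ^ 2 + 1))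
          + w * ((x ^ 2 + 1) * (y ^ 2 + 1) * (z ^ 2 + 1)) := by
      field_simp
    obtain ⟨S0, hS0⟩ : ∃ S0, S0 = 1 / x + 1 / y + 1 / z + 1 / w := ⟨_, rfl⟩
    obtain ⟨S1, hS1⟩ : ∃ S1, S1 = 1 / (x - 1) + 1 / (y - 1) + 1 / (z - 1) + 1 / (w - 1) := ⟨_, rfl⟩
    obtain ⟨S2, hS2⟩ : ∃ S2, S2 = 1 / (x + 1) + 1 / (y + 1) + 1 / (z + 1) + 1 / (w + 1) := ⟨_, rfl⟩
    obtain ⟨S3, hS3⟩ : ∃ S3, S3 = 1 / (x - 3) + 1 / (y - 3) + 1 / (z - 3) + 1 / (w - 3) := ⟨_, rfl⟩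
    obtain ⟨S4, hS4⟩ : ∃ S4, S4 = 1 / (x + 3) + 1 / (y + 3) + 1 / (z + 3) + 1 / (w + 3) := ⟨_, rfl⟩
    obtain ⟨S5, hS5⟩ : ∃ S5, S5 = x / (x ^ 2 + 1) + y / (y ^ 2 + 1) + z / (z ^ 2 + 1)
      + w / (w ^ 2 + 1) := ⟨_, rfl⟩
    obtain ⟨S6, hS6⟩ : ∃ S6, S6 = 1 / (x ^ 2 - 2 * x + 5) + 1 / (y ^ 2 - 2 * y + 5)
      + 1 / (z ^ 2 - 2 * z + 5) + 1 / (w ^ 2 - 2 * w + 5) := ⟨_, rfl⟩
    obtain ⟨S7, hS7⟩ : ∃ S7, S7 = 1 / (x ^ 2 + 2 * x + 5) + 1 / (y ^ 2 + 2 * y + 5)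
      + 1 / (z ^ 2 + 2 * z + 5) + 1 / (w ^ 2 + 2 * w + 5) := ⟨_, rfl⟩
    have g1 : s1 - S0 = 0 := by rw [hs1, hS0]; linear_combination e1
    have g2 : S1 + S4 = 0 := by rw [hS1, hS4]; linear_combination e2
    have g3 : S2 + S3 = 0 := by rw [hS2, hS3]; linear_combination e3
    have g4 : s1 + S0 - 4 * S5 = 0 := by
      have k1 : ∀ u : Ω, u ≠ 0 → u ^ 2 + 1 ≠ 0 →
          (u ^ 2 - 1) ^ 2 / (u * (u ^ 2 + 1)) = u + 1 / u - 4 * (u / (u ^ 2 + 1)) := by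
        intro u h1 h2
        field_simp
        ring
      rw [k1 x x0 x5, k1 y y0 y5, k1 z z0 z5, k1 w w0 w5] at e4
      rw [hs1, hS0, hS5]
      linear_combination e4
    have g5 : S1 - S4 + 4 * S7 = 0 := by
      have k1 : ∀ u : Ω, u - 1 ≠ 0 → u + 3 ≠ 0 → u ^ 2 + 2 * u + 5 ≠ 0 →
          8 * ((u + 1) ^ 2 / ((u - 1) * (u + 3) * (u ^ 2 + 2 * u + 5)))
            = 1 / (u - 1) - 1 / (u + 3) + 4 * (1 / (u ^ 2 + 2 * u + 5)) := by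
        intro u h1 h2 h3
        obtain ⟨m, hm⟩ : ∃ m, m = u ^ 2 + 2 * u + 5 := ⟨_, rfl⟩
        rw [← hm] at h3 ⊢
        field_simp
        rw [hm]
        ring
      rw [hS1, hS4, hS7]
      linear_combination 8 * e5 - k1 x x1 x4 x7 - k1 y y1 y4 y7 - k1 z z1 z4 z7 - k1 w w1 w4 w7
    have g6 : S3 - S2 + 4 * S6 = 0 := by
      have k1 : ∀ u : Ω, u + 1 ≠ 0 → u - 3 ≠ 0 → u ^ 2 - 2 * u + 5 ≠ 0 →
          8 * ((u - 1) ^ 2 / ((u + 1) * (u - 3) * (u ^ 2 - 2 * u + 5)))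
            = 1 / (u - 3) - 1 / (u + 1) + 4 * (1 / (u ^ 2 - 2 * u + 5)) := by
        intro u h1 h2 h3
        obtain ⟨m, hm⟩ : ∃ m, m = u ^ 2 - 2 * u + 5 := ⟨_, rfl⟩
        rw [← hm] at h3 ⊢
        field_simp
        rw [hm]
        ring
      rw [hS2, hS3, hS6]
      linear_combination 8 * e6 - k1 x x2 x3 x6 - k1 y y2 y3 y6 - k1 z z2 z3 z6 - k1 w w2 w3 w6
    rw [← hS0] at a0
    rw [← hS1] at a1
    rw [← hS2] at a2
    rw [← hS3] at a3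
    rw [← hS4] at a4
    rw [← hS5] at a5
    rw [← hS6] at a6
    rw [← hS7] at a7
    clear e1 e2 e3 e4 e5 e6 hS0 hS1 hS2 hS3 hS4 hS5 hS6 hS7
    have b0 : S0 * s4 = s3 := by
      rw [hs3, hs4]; linear_combination a0
    have b1 : S1 * (-s1 + s2 - s3 + s4 + 1) = 3 * s1 - 2 * s2 + s3 - 4 := by
      rw [hs1, hs2, hs3, hs4]; linear_combination a1
    have b2 : S2 * (s1 + s2 + s3 + s4 + 1) = 3 * s1 + 2 * s2 + s3 + 4 := by
      rw [hs1, hs2, hs3, hs4]; linear_combination a2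
    have b3 : S3 * (-27 * s1 + 9 * s2 - 3 * s3 + s4 + 81) = 27 * s1 - 6 * s2 + s3 - 108 := by
      rw [hs1, hs2, hs3, hs4]; linear_combination a3
    have b4 : S4 * (27 * s1 + 9 * s2 + 3 * s3 + s4 + 81) = 27 * s1 + 6 * s2 + s3 + 108 := by
      rw [hs1, hs2, hs3, hs4]; linear_combination a4
    have b5 : S5 * (s1 ^ 2 - 2 * s1 * s3 + s2 ^ 2 - 2 * s2 * s4 - 2 * s2 + s3 ^ 2 + s4 ^ 2 + 2 * s4 + 1) = s1 * s2 - 3 * s1 * s4 + s1 + s2 * s3 + s3 * s4 - 3 * s3 := by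
      rw [hs1, hs2, hs3, hs4]; linear_combination a5
    have b6 : S6 * (125 * s1 ^ 2 - 50 * s1 * s2 - 30 * s1 * s3 + 22 * s1 * s4 - 250 * s1 + 25 * s2 ^ 2 - 10 * s2 * s3 - 6 * s2 * s4 - 150 * s2 + 5 * s3 ^ 2 - 2 * s3 * s4 + 110 * s3 + s4 ^ 2 - 14 * s4 + 625) = 75 * s1 ^ 2 - 20 * s1 * s2 - 16 * s1 * s3 + 6 * s1 * s4 - 150 * s1 + 10 * s2 ^ 2 - 2 * s2 * s3 - 2 * s2 * s4 - 110 * s2 + s3 ^ 2 + 52 * s3 + 4 * s4 + 500 := by
      rw [hs1, hs2, hs3, hs4]; linear_combination a6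
    have b7 : S7 * (125 * s1 ^ 2 + 50 * s1 * s2 - 30 * s1 * s3 - 22 * s1 * s4 + 250 * s1 + 25 * s2 ^ 2 + 10 * s2 * s3 - 6 * s2 * s4 - 150 * s2 + 5 * s3 ^ 2 + 2 * s3 * s4 - 110 * s3 + s4 ^ 2 - 14 * s4 + 625) = 75 * s1 ^ 2 + 20 * s1 * s2 - 16 * s1 * s3 - 6 * s1 * s4 + 150 * s1 + 10 * s2 ^ 2 + 2 * s2 * s3 - 2 * s2 * s4 - 110 * s2 + s3 ^ 2 - 52 * s3 + 4 * s4 + 500 := by
      rw [hs1, hs2, hs3, hs4]; linear_combination a7
    have q1 : -s1 + s2 - s3 + s4 + 1 ≠ 0 := by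
      have e : -s1 + s2 - s3 + s4 + 1 = (x - 1) * (y - 1) * (z - 1) * (w - 1) := by
        rw [hs1, hs2, hs3, hs4]; ring
      rw [e]
      exact mul_ne_zero (mul_ne_zero (mul_ne_zero x1 y1) z1) w1
    have q2 : s1 + s2 + s3 + s4 + 1 ≠ 0 := by
      have e : s1 + s2 + s3 + s4 + 1 = (x + 1) * (y + 1) * (z + 1) * (w + 1) := by
        rw [hs1, hs2, hs3, hs4]; ring
      rw [e]
      exact mul_ne_zero (mul_ne_zero (mul_ne_zero x2 y2) z2) w2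
    rw [← hs1, ← hs2, ← hs4, ← hs3]
    clear hs1 hs2 hs3 hs4 a0 a1 a2 a3 a4 a5 a6 a7
    have c1 : s3 = s1 * s4 := by linear_combination -b0 - s4 * g1
    have h4 : (4 : Ω) ≠ 0 := by
      have e : (4 : Ω) = 2 * 2 := by norm_num
      rw [e]
      exact mul_ne_zero two two
    have r2 : (3 * s1 - 2 * s2 + s3 - 4) * (27 * s1 + 9 * s2 + 3 * s3 + s4 + 81) + (27 * s1 + 6 * s2 + s3 + 108) * (-s1 + s2 - s3 + s4 + 1) = 0 := by
      rw [← b1, ← b4]; linear_combination (-s1 + s2 - s3 + s4 + 1) * (27 * s1 + 9 * s2 + 3 * s3 + s4 + 81) * g2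
    have r3 : (3 * s1 + 2 * s2 + s3 + 4) * (-27 * s1 + 9 * s2 - 3 * s3 + s4 + 81) + (27 * s1 - 6 * s2 + s3 - 108) * (s1 + s2 + s3 + s4 + 1) = 0 := by
      rw [← b2, ← b3]; linear_combination (s1 + s2 + s3 + s4 + 1) * (-27 * s1 + 9 * s2 - 3 * s3 + s4 + 81) * g3
    have r4 : s1 * (s1 ^ 2 - 2 * s1 * s3 + s2 ^ 2 - 2 * s2 * s4 - 2 * s2 + s3 ^ 2 + s4 ^ 2 + 2 * s4 + 1) - 2 * (s1 * s2 - 3 * s1 * s4 + s1 + s2 * s3 + s3 * s4 - 3 * s3) = 0 := by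
      have h5 : (2 : Ω) * (s1 - 2 * S5) = 0 := by linear_combination g1 + g4
      have h6 := (mul_eq_zero.1 h5).resolve_left two
      rw [← b5]; linear_combination (s1 ^ 2 - 2 * s1 * s3 + s2 ^ 2 - 2 * s2 * s4 - 2 * s2 + s3 ^ 2 + s4 ^ 2 + 2 * s4 + 1) * h6
    have r5 : (3 * s1 - 2 * s2 + s3 - 4) * (125 * s1 ^ 2 + 50 * s1 * s2 - 30 * s1 * s3 - 22 * s1 * s4 + 250 * s1 + 25 * s2 ^ 2 + 10 * s2 * s3 - 6 * s2 * s4 - 150 * s2 + 5 * s3 ^ 2 + 2 * s3 * s4 - 110 * s3 + s4 ^ 2 - 14 * s4 + 625) + 2 * (75 * s1 ^ 2 + 20 * s1 * s2 - 16 * s1 * s3 - 6 * s1 * s4 + 150 * s1 + 10 * s2 ^ 2 + 2 * s2 * s3 - 2 * s2 * s4 - 110 * s2 + s3 ^ 2 - 52 * s3 + 4 * s4 + 500) * (-s1 + s2 - s3 + s4 + 1) = 0 := by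
      have h5 : (2 : Ω) * (S1 + 2 * S7) = 0 := by linear_combination g2 + g5
      have h6 := (mul_eq_zero.1 h5).resolve_left two
      rw [← b1, ← b7]; linear_combination (-s1 + s2 - s3 + s4 + 1) * (125 * s1 ^ 2 + 50 * s1 * s2 - 30 * s1 * s3 - 22 * s1 * s4 + 250 * s1 + 25 * s2 ^ 2 + 10 * s2 * s3 - 6 * s2 * s4 - 150 * s2 + 5 * s3 ^ 2 + 2 * s3 * s4 - 110 * s3 + s4 ^ 2 - 14 * s4 + 625) * h6
    have r6 : -(3 * s1 + 2 * s2 + s3 + 4) * (125 * s1 ^ 2 - 50 * s1 * s2 - 30 * s1 * s3 + 22 * s1 * s4 - 250 * s1 + 25 * s2 ^ 2 - 10 * s2 * s3 - 6 * s2 * s4 - 150 * s2 + 5 * s3 ^ 2 - 2 * s3 * s4 + 110 * s3 + s4 ^ 2 - 14 * s4 + 625) + 2 * (75 * s1 ^ 2 - 20 * s1 * s2 - 16 * s1 * s3 + 6 * s1 * s4 - 150 * s1 + 10 * s2 ^ 2 - 2 * s2 * s3 - 2 * s2 * s4 - 110 * s2 + s3 ^ 2 + 52 * s3 + 4 * s4 + 500) * (s1 + s2 + s3 + s4 + 1) = 0 := by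
      have h5 : (2 : Ω) * (-S2 + 2 * S6) = 0 := by linear_combination g6 - g3
      have h6 := (mul_eq_zero.1 h5).resolve_left two
      rw [← b2, ← b6]; linear_combination (s1 + s2 + s3 + s4 + 1) * (125 * s1 ^ 2 - 50 * s1 * s2 - 30 * s1 * s3 + 22 * s1 * s4 - 250 * s1 + 25 * s2 ^ 2 - 10 * s2 * s3 - 6 * s2 * s4 - 150 * s2 + 5 * s3 ^ 2 - 2 * s3 * s4 + 110 * s3 + s4 ^ 2 - 14 * s4 + 625) * h6
    clear b0 b1 b2 b3 b4 b5 b6 b7 g1 g2 g3 g4 g5 g6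
    subst c1
    have hres := core_four two three five n73 s1 s2 s4 ?_ ?_ ?_ ?_ ?_ ?_ ?_
    · exact ⟨hres.1, hres.2.1, hres.2.2, by rw [hres.1, zero_mul]⟩
    · apply (mul_eq_zero.1 (?_ : (4 : Ω) * _ = 0)).resolve_left h4
      linear_combination r2 - r3
    · apply (mul_eq_zero.1 (?_ : (4 : Ω) * _ = 0)).resolve_left h4
      linear_combination -r2 - r3
    · linear_combination r4
    · apply (mul_eq_zero.1 (?_ : (4 : Ω) * _ = 0)).resolve_left h4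
      linear_combination r5 + r6
    · apply (mul_eq_zero.1 (?_ : (2 : Ω) * _ = 0)).resolve_left two
      linear_combination r5 - r6
    · intro h0
      apply q1
      linear_combination h0
    · intro h0
      apply q2
      linear_combination h0
  obtain ⟨k1, k2, k4, k3⟩ := core
  have root : ∀ u : Ω, (u - x) * (u - y) * (u - z) * (u - w) = 0 → u ^ 2 + 3 = 0 := by
    intro u hu
    have : (u ^ 2 + 3) ^ 2 = 0 := by
      linear_combination hu + u ^ 3 * k1 - u ^ 2 * k2 + u * k3 - k4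
    exact (pow_eq_zero_iff two_ne_zero).1 this
  intro k
  fin_cases k
  · show t 0 ^ 2 + 3 = 0
    rw [← hx]
    exact root x (by ring)
  · show t 1 ^ 2 + 3 = 0
    rw [← hy]
    exact root y (by ring)
  · show t 2 ^ 2 + 3 = 0
    rw [← hz]
    exact root z (by ring)
  · show t 3 ^ 2 + 3 = 0
    rw [← hw]
    exact root w (by ring)

end H10CQ
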