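import Pool.Agent.H10.CQ.Elim5Core

/-! # Project CQ: no solution of the six equations for `n = 5` (final statement) -/

namespace H10CQ

open E5

private theorem Elim5_ne {p : ℕ} [Fact p.Prime] (hp : 37 < p) (hp' : p ≠ 2471017) {F : Type*}
    [Field F] [CharP F p] (N : ℕ) (hN : N ∣ MM ^ 20) : (N : F) ≠ 0 := by
  intro h
  have hpp : p.Prime := Fact.out
  have h1 : p ∣ N := (CharP.cast_eq_zero_iff F p N).1 h
  have h2 : p ∣ MM := hpp.dvd_of_dvd_pow (h1.trans hN)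
  have h3 : Nat.Prime 2471017 := by norm_num
  unfold MM at h2
  have key : ∀ q : ℕ, 0 < q → q ≤ 37 → ¬ p ∣ q := fun q h0 hq hd =>
    absurd (Nat.le_of_dvd h0 hd) (by omega)
  rcases hpp.dvd_mul.1 h2 with h2 | h2
  · rcases hpp.dvd_mul.1 h2 with h2 | h2
    · rcases hpp.dvd_mul.1 h2 with h2 | h2
      · rcases hpp.dvd_mul.1 h2 with h2 | h2
        · rcases hpp.dvd_mul.1 h2 with h2 | h2
          · exact key _ (by norm_num) (by norm_num) h2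
          · exact key _ (by norm_num) (by norm_num) h2
        · exact key _ (by norm_num) (by norm_num) h2
      · exact key _ (by norm_num) (by norm_num) h2
    · exact key _ (by norm_num) (by norm_num) h2
  · exact hp' ((Nat.prime_dvd_prime_iff_eq hpp h3).1 h2)

private theorem Elim5_cross {F : Type*} [Field F] {a b c d : F} (hb : b ≠ 0) (hd : d ≠ 0)
    (h : a / b + c / d = 0) : a * d + c * b = 0 := by
  rw [div_add_div _ _ hb hd, div_eq_zero_iff] at h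
  rcases h with h | h
  · linear_combination h
  · exact absurd h (mul_ne_zero hb hd)

private theorem Elim5_id4 {F : Type*} [Field F] {x : F} (hx : x ≠ 0) (hx2 : x ^ 2 + 1 ≠ 0) :
    (x ^ 2 - 1) ^ 2 / (x * (x ^ 2 + 1)) = x + 1 / x - 4 * (x / (x ^ 2 + 1)) := by
  field_simp
  ring

private theorem Elim5_id5 {F : Type*} [Field F] {x : F} (h1 : x - 1 ≠ 0) (h3 : x + 3 ≠ 0)
    (h5 : x ^ 2 + 2 * x + 5 ≠ 0) :
    8 * ((x + 1) ^ 2 / ((x - 1) * (x + 3) * (x ^ 2 + 2 * x + 5))) =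
      1 / (x - 1) - 1 / (x + 3) + 2 * (2 / (x ^ 2 + 2 * x + 5)) := by
  obtain ⟨C, hC⟩ : ∃ C, C = x ^ 2 + 2 * x + 5 := ⟨_, rfl⟩
  rw [← hC] at h5 ⊢
  field_simp
  rw [hC]
  ring

private theorem Elim5_id6 {F : Type*} [Field F] {x : F} (h1 : x + 1 ≠ 0) (h3 : x - 3 ≠ 0)
    (h5 : x ^ 2 - 2 * x + 5 ≠ 0) :
    8 * ((x - 1) ^ 2 / ((x + 1) * (x - 3) * (x ^ 2 - 2 * x + 5))) =
      1 / (x - 3) - 1 / (x + 1) + 2 * (2 / (x ^ 2 - 2 * x + 5)) := by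
  obtain ⟨C, hC⟩ : ∃ C, C = x ^ 2 - 2 * x + 5 := ⟨_, rfl⟩
  rw [← hC] at h5 ⊢
  field_simp
  rw [hC]
  ring

private theorem Elim5_Q {F : Type*} [Field F] {a b c d e : F} (r : F) (ha : a - r ≠ 0)
    (hb : b - r ≠ 0) (hc : c - r ≠ 0) (hd : d - r ≠ 0) (he : e - r ≠ 0) :
    Qs a b c d e r ≠ 0 := by
  rw [Qs_eq]
  exact mul_ne_zero (mul_ne_zero (mul_ne_zero (mul_ne_zero ha hb) hc) hd) he

/-- The six equations have no solution for `n = 5`. (For `p = 17` and `p = 37` they have solutions.) -/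
theorem no_six_five {p : ℕ} [Fact p.Prime] (hp : 37 < p) (hp' : p ≠ 2471017) {Ω : Type*}
    [Field Ω] [CharP Ω p] (t : Fin 5 → Ω) (h : Six t) : False := by
  have hn : ∀ N : ℕ, N ∣ MM ^ 20 → (N : Ω) ≠ 0 := fun N hN => Elim5_ne hp hp' N hN
  have h2 : (2 : Ω) ≠ 0 := by
    have h1 := hn 2 (by norm_num [MM])
    exact_mod_cast h1
  obtain ⟨a, ha⟩ : ∃ a, a = t 0 := ⟨_, rfl⟩
  obtain ⟨b, hb⟩ : ∃ b, b = t 1 := ⟨_, rfl⟩
  obtain ⟨c, hc⟩ : ∃ c, c = t 2 := ⟨_, rfl⟩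
  obtain ⟨d, hd⟩ : ∃ d, d = t 3 := ⟨_, rfl⟩
  obtain ⟨e, he⟩ : ∃ e, e = t 4 := ⟨_, rfl⟩
  have ea := h.e1
  have eb := h.e2
  have ec := h.e3
  have ed := h.e4
  have ee := h.e5
  have ef := h.e6
  rw [Fin.sum_univ_five, ← ha, ← hb, ← hc, ← hd, ← he] at ea eb ec ed ee ef
  have a0 := h.d0 0
  have a1 := h.d1 0
  have a2 := h.d2 0
  have a3 := h.d3 0
  have a4 := h.d4 0
  have a5 := h.d5 0
  have a6 := h.d6 0
  have a7 := h.d7 0
  have b0 := h.d0 1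
  have b1 := h.d1 1
  have b2 := h.d2 1
  have b3 := h.d3 1
  have b4 := h.d4 1
  have b5 := h.d5 1
  have b6 := h.d6 1
  have b7 := h.d7 1
  have c0 := h.d0 2
  have c1 := h.d1 2
  have c2 := h.d2 2
  have c3 := h.d3 2
  have c4 := h.d4 2
  have c5 := h.d5 2
  have c6 := h.d6 2
  have c7 := h.d7 2
  have d0 := h.d0 3
  have d1 := h.d1 3
  have d2 := h.d2 3
  have d3 := h.d3 3
  have d4 := h.d4 3
  have d5 := h.d5 3
  have d6 := h.d6 3
  have d7 := h.d7 3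
  have e0 := h.d0 4
  have e1 := h.d1 4
  have e2 := h.d2 4
  have e3 := h.d3 4
  have e4 := h.d4 4
  have e5 := h.d5 4
  have e6 := h.d6 4
  have e7 := h.d7 4
  rw [← ha] at a0 a1 a2 a3 a4 a5 a6 a7
  rw [← hb] at b0 b1 b2 b3 b4 b5 b6 b7
  rw [← hc] at c0 c1 c2 c3 c4 c5 c6 c7
  rw [← hd] at d0 d1 d2 d3 d4 d5 d6 d7
  rw [← he] at e0 e1 e2 e3 e4 e5 e6 e7
  clear ha hb hc hd he h
  -- the values at `0, 1, -3, -1, 3`
  have r0 := sum_sub (0 : Ω) (by rwa [sub_zero] : a - 0 ≠ 0) (by rwa [sub_zero] : b - 0 ≠ 0)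
    (by rwa [sub_zero] : c - 0 ≠ 0) (by rwa [sub_zero] : d - 0 ≠ 0) (by rwa [sub_zero] : e - 0 ≠ 0)
  have q0 := Elim5_Q (0 : Ω) (by rwa [sub_zero] : a - 0 ≠ 0) (by rwa [sub_zero] : b - 0 ≠ 0)
    (by rwa [sub_zero] : c - 0 ≠ 0) (by rwa [sub_zero] : d - 0 ≠ 0) (by rwa [sub_zero] : e - 0 ≠ 0)
  simp only [sub_zero] at r0
  have r1 := sum_sub (1 : Ω) a1 b1 c1 d1 e1
  have q1 := Elim5_Q (1 : Ω) a1 b1 c1 d1 e1
  have r3 := sum_sub (3 : Ω) a3 b3 c3 d3 e3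
  have q3 := Elim5_Q (3 : Ω) a3 b3 c3 d3 e3
  have rm1 := sum_sub (-1 : Ω) (by rwa [sub_neg_eq_add] : a - -1 ≠ 0)
    (by rwa [sub_neg_eq_add] : b - -1 ≠ 0) (by rwa [sub_neg_eq_add] : c - -1 ≠ 0)
    (by rwa [sub_neg_eq_add] : d - -1 ≠ 0) (by rwa [sub_neg_eq_add] : e - -1 ≠ 0)
  have qm1 := Elim5_Q (-1 : Ω) (by rwa [sub_neg_eq_add] : a - -1 ≠ 0)
    (by rwa [sub_neg_eq_add] : b - -1 ≠ 0) (by rwa [sub_neg_eq_add] : c - -1 ≠ 0)
    (by rwa [sub_neg_eq_add] : d - -1 ≠ 0) (by rwa [sub_neg_eq_add] : e - -1 ≠ 0)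
  have rm3 := sum_sub (-3 : Ω) (by rwa [sub_neg_eq_add] : a - -3 ≠ 0)
    (by rwa [sub_neg_eq_add] : b - -3 ≠ 0) (by rwa [sub_neg_eq_add] : c - -3 ≠ 0)
    (by rwa [sub_neg_eq_add] : d - -3 ≠ 0) (by rwa [sub_neg_eq_add] : e - -3 ≠ 0)
  have qm3 := Elim5_Q (-3 : Ω) (by rwa [sub_neg_eq_add] : a - -3 ≠ 0)
    (by rwa [sub_neg_eq_add] : b - -3 ≠ 0) (by rwa [sub_neg_eq_add] : c - -3 ≠ 0)
    (by rwa [sub_neg_eq_add] : d - -3 ≠ 0) (by rwa [sub_neg_eq_add] : e - -3 ≠ 0)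
  simp only [sub_neg_eq_add] at rm1 rm3
  have rn := sum_n4 a5 b5 c5 d5 e5
  have rw5 := sum_w5 a7 b7 c7 d7 e7
  have neg_sq : ∀ x : Ω, (-x) ^ 2 + 2 * -x + 5 = x ^ 2 - 2 * x + 5 := fun x => by ring
  have rw6 := sum_w5 (a := -a) (b := -b) (c := -c) (d := -d) (e := -e)
    (by rwa [neg_sq]) (by rwa [neg_sq]) (by rwa [neg_sq]) (by rwa [neg_sq]) (by rwa [neg_sq])
  simp only [neg_sq] at rw6
  have i1 : s1 (-a) (-b) (-c) (-d) (-e) = -s1 a b c d e := by simp only [s1]; ring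
  have i2 : s2 (-a) (-b) (-c) (-d) (-e) = s2 a b c d e := by simp only [s2]; ring
  have i3 : s3 (-a) (-b) (-c) (-d) (-e) = -s3 a b c d e := by simp only [s3]; ring
  have i4 : s4 (-a) (-b) (-c) (-d) (-e) = s4 a b c d e := by simp only [s4]; ring
  have i5 : s5 (-a) (-b) (-c) (-d) (-e) = -s5 a b c d e := by simp only [s5]; ring
  have nn4 : n4 (s1 a b c d e) (s2 a b c d e) (s3 a b c d e) (s4 a b c d e) (s5 a b c d e) ≠ 0 := by
    rw [n4_eq]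
    exact mul_ne_zero (mul_ne_zero (mul_ne_zero (mul_ne_zero a5 b5) c5) d5) e5
  have nw5 : w5 (s1 a b c d e) (s2 a b c d e) (s3 a b c d e) (s4 a b c d e) (s5 a b c d e) ≠ 0 := by
    rw [w5_eq]
    exact mul_ne_zero (mul_ne_zero (mul_ne_zero (mul_ne_zero a7 b7) c7) d7) e7
  have nw6 : w5 (s1 (-a) (-b) (-c) (-d) (-e)) (s2 (-a) (-b) (-c) (-d) (-e))
      (s3 (-a) (-b) (-c) (-d) (-e)) (s4 (-a) (-b) (-c) (-d) (-e))
      (s5 (-a) (-b) (-c) (-d) (-e)) ≠ 0 := by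
    rw [w5_eq, neg_sq, neg_sq, neg_sq, neg_sq, neg_sq]
    exact mul_ne_zero (mul_ne_zero (mul_ne_zero (mul_ne_zero a6 b6) c6) d6) e6
  rw [i1, i2, i3, i4, i5] at rw6 nw6
  -- the six equations
  have f1 : s1 a b c d e = Ds a b c d e 0 / Qs a b c d e 0 := by
    rw [← r0, s1]
    linear_combination ea
  have hu : s4 a b c d e = s1 a b c d e * s5 a b c d e := by
    rw [eq_div_iff q0] at f1
    simp only [Qs, Ds, qq, dd] at f1
    linear_combination -f1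
  have f2 : Ds a b c d e 1 / Qs a b c d e 1 + Ds a b c d e (-3) / Qs a b c d e (-3) = 0 := by
    rw [← r1, ← rm3]
    linear_combination eb
  have f3 : Ds a b c d e (-1) / Qs a b c d e (-1) + Ds a b c d e 3 / Qs a b c d e 3 = 0 := by
    rw [← rm1, ← r3]
    linear_combination ec
  rw [Elim5_id4 a0 a5, Elim5_id4 b0 b5, Elim5_id4 c0 c5, Elim5_id4 d0 d5, Elim5_id4 e0 e5] at ed
  have f4 : s1 a b c d e - 2 * (t4 (s1 a b c d e) (s2 a b c d e) (s3 a b c d e) (s4 a b c d e)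
      (s5 a b c d e) / n4 (s1 a b c d e) (s2 a b c d e) (s3 a b c d e) (s4 a b c d e)
      (s5 a b c d e)) = 0 := by
    have h1 : (2 : Ω) * (s1 a b c d e - 2 * (t4 (s1 a b c d e) (s2 a b c d e) (s3 a b c d e)
      (s4 a b c d e) (s5 a b c d e) / n4 (s1 a b c d e) (s2 a b c d e) (s3 a b c d e)
      (s4 a b c d e) (s5 a b c d e))) = 0 := by
      rw [← rn]
      simp only [s1]
      linear_combination ed + ea
    exact (mul_eq_zero.mp h1).resolve_left h2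
  have g4 : s1 a b c d e * n4 (s1 a b c d e) (s2 a b c d e) (s3 a b c d e) (s4 a b c d e)
      (s5 a b c d e) - 2 * t4 (s1 a b c d e) (s2 a b c d e) (s3 a b c d e) (s4 a b c d e)
      (s5 a b c d e) = 0 := by
    field_simp at f4
    rwa [mul_zero] at f4
  have k5 : Ds a b c d e 1 / Qs a b c d e 1 - Ds a b c d e (-3) / Qs a b c d e (-3) +
      2 * (u5 (s1 a b c d e) (s2 a b c d e) (s3 a b c d e) (s4 a b c d e) (s5 a b c d e) /
      w5 (s1 a b c d e) (s2 a b c d e) (s3 a b c d e) (s4 a b c d e) (s5 a b c d e)) = 0 := by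
    rw [← r1, ← rm3, ← rw5]
    linear_combination 8 * ee - Elim5_id5 a1 a4 a7 - Elim5_id5 b1 b4 b7 - Elim5_id5 c1 c4 c7 -
      Elim5_id5 d1 d4 d7 - Elim5_id5 e1 e4 e7
  have k6 : Ds a b c d e 3 / Qs a b c d e 3 - Ds a b c d e (-1) / Qs a b c d e (-1) +
      2 * (u5 (-s1 a b c d e) (s2 a b c d e) (-s3 a b c d e) (s4 a b c d e) (-s5 a b c d e) /
      w5 (-s1 a b c d e) (s2 a b c d e) (-s3 a b c d e) (s4 a b c d e) (-s5 a b c d e)) = 0 := by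
    rw [← r3, ← rm1, ← rw6]
    linear_combination 8 * ef - Elim5_id6 a2 a3 a6 - Elim5_id6 b2 b3 b6 - Elim5_id6 c2 c3 c6 -
      Elim5_id6 d2 d3 d6 - Elim5_id6 e2 e3 e6
  have two : ∀ {X : Ω}, 2 * X = 0 → X = 0 := fun hX => (mul_eq_zero.mp hX).resolve_left h2
  have g5 : Ds a b c d e 1 / Qs a b c d e 1 +
      (u5 (s1 a b c d e) (s2 a b c d e) (s3 a b c d e) (s4 a b c d e) (s5 a b c d e) /
      w5 (s1 a b c d e) (s2 a b c d e) (s3 a b c d e) (s4 a b c d e) (s5 a b c d e)) = 0 :=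
    two (by linear_combination k5 + f2)
  have g5b : -Ds a b c d e (-3) / Qs a b c d e (-3) +
      (u5 (s1 a b c d e) (s2 a b c d e) (s3 a b c d e) (s4 a b c d e) (s5 a b c d e) /
      w5 (s1 a b c d e) (s2 a b c d e) (s3 a b c d e) (s4 a b c d e) (s5 a b c d e)) = 0 :=
    two (by linear_combination k5 - f2)
  have g6 : -Ds a b c d e (-1) / Qs a b c d e (-1) +
      (u5 (-s1 a b c d e) (s2 a b c d e) (-s3 a b c d e) (s4 a b c d e) (-s5 a b c d e) /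
      w5 (-s1 a b c d e) (s2 a b c d e) (-s3 a b c d e) (s4 a b c d e) (-s5 a b c d e)) = 0 :=
    two (by linear_combination k6 - f3)
  have g6b : Ds a b c d e 3 / Qs a b c d e 3 +
      (u5 (-s1 a b c d e) (s2 a b c d e) (-s3 a b c d e) (s4 a b c d e) (-s5 a b c d e) /
      w5 (-s1 a b c d e) (s2 a b c d e) (-s3 a b c d e) (s4 a b c d e) (-s5 a b c d e)) = 0 :=
    two (by linear_combination k6 + f3)
  have hfin := core2 (s1 a b c d e) (s2 a b c d e) (s3 a b c d e) (s4 a b c d e) (s5 a b c d e)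
    hn hu (Elim5_cross q1 qm3 f2) (Elim5_cross qm1 q3 f3) g4 (Elim5_cross q1 nw5 g5)
    (Elim5_cross qm3 nw5 g5b) (Elim5_cross qm1 nw6 g6) (Elim5_cross q3 nw6 g6b)
  exact mul_ne_zero q1 qm1 hfin

end H10CQ
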