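import Pool.Agent.H10.CQ.Defs
import Pool.Agent.H10.CQ.E5A
import Pool.Agent.H10.CQ.E5B0
import Pool.Agent.H10.CQ.E5B1
import Pool.Agent.H10.CQ.E5B2
import Pool.Agent.H10.CQ.E5B3
import Pool.Agent.H10.CQ.E5B4
import Pool.Agent.H10.CQ.E5C

/-!
# Project CQ: no solution of the six equations for `n = 5`

`c1, ..., c5` are the elementary symmetric functions of the five values `t_k`. The six equations,
cleared of denominators, imply `P(1) P(-1) = 0` for `P = prod (X - t_k)`, in three steps with small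
certificates (files `E5A`, `E5B0`, ..., `E5B4`, `E5C`).
-/

namespace H10CQ.E5

variable {F : Type*} [Field F]

/-- the product of the primes of the denominators of the certificates -/
def MM : ℕ := 2 * 3 * 5 * 11 * 17 * 37 * 2471017

theorem core (x y z w : F) (hn : ∀ N : ℕ, N ∣ MM ^ 20 → (N : F) ≠ 0)
    (g0 : G0 x y z w = 0) (g1 : G1 x y z w = 0) (g2 : G2 x y z w = 0) (g3 : G3 x y z w = 0)
    (g4 : G4 x y z w = 0) (g5 : G5 x y z w = 0) (g6 : G6 x y z w = 0) : TT x y z w = 0 := by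
  have hA0e0 : A0e0 x y z w = 0 := by
    have h := A0e0_eq x y z w
    simp only [g2, mul_zero] at h
    rwa [one_mul] at h
  have hA0e1 : A0e1 x y z w = 0 := by
    have h := A0e1_eq x y z w
    simp only [g0, g1, g2, g4, g6, mul_zero, add_zero] at h
    exact (mul_eq_zero.mp h).resolve_left (by
      have h1 := hn 2560 (by norm_num [MM])
      exact_mod_cast h1)
  have hA0e2 : A0e2 x y z w = 0 := by
    have h := A0e2_eq x y z w
    simp only [g0, g2, mul_zero, add_zero] at h
    rwa [one_mul] at h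
  have hA0e3 : A0e3 x y z w = 0 := by
    have h := A0e3_eq x y z w
    simp only [g0, g1, g2, g4, g6, mul_zero, add_zero] at h
    exact (mul_eq_zero.mp h).resolve_left (by
      have h1 := hn 512 (by norm_num [MM])
      exact_mod_cast h1)
  have hA0e4 : A0e4 x y z w = 0 := by
    have h := A0e4_eq x y z w
    simp only [g0, g1, g2, g4, g6, mul_zero, add_zero] at h
    exact (mul_eq_zero.mp h).resolve_left (by
      have h1 := hn 2560 (by norm_num [MM])
      exact_mod_cast h1)
  have hA0e5 : A0e5 x y z w = 0 := by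
    have h := A0e5_eq x y z w
    simp only [g0, g2, mul_zero, add_zero] at h
    rwa [one_mul] at h
  have hA0e6 : A0e6 x y z w = 0 := by
    have h := A0e6_eq x y z w
    simp only [g0, g2, mul_zero, add_zero] at h
    rwa [one_mul] at h
  have hA0e7 : A0e7 x y z w = 0 := by
    have h := A0e7_eq x y z w
    simp only [g0, g1, g2, g4, g6, mul_zero, add_zero] at h
    exact (mul_eq_zero.mp h).resolve_left (by
      have h1 := hn 512 (by norm_num [MM])
      exact_mod_cast h1)
  have hA0e8 : A0e8 x y z w = 0 := by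
    have h := A0e8_eq x y z w
    simp only [g0, g1, g2, g4, g6, mul_zero, add_zero] at h
    exact (mul_eq_zero.mp h).resolve_left (by
      have h1 := hn 2560 (by norm_num [MM])
      exact_mod_cast h1)
  have hA1e0 : A1e0 x y z w = 0 := by
    have h := A1e0_eq x y z w
    simp only [g2, mul_zero] at h
    rwa [one_mul] at h
  have hA1e1 : A1e1 x y z w = 0 := by
    have h := A1e1_eq x y z w
    simp only [g0, g1, g2, g3, mul_zero, add_zero] at h
    exact (mul_eq_zero.mp h).resolve_left (by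
      have h1 := hn 64 (by norm_num [MM])
      exact_mod_cast h1)
  have hA1e2 : A1e2 x y z w = 0 := by
    have h := A1e2_eq x y z w
    simp only [g0, g1, g2, g3, mul_zero, add_zero] at h
    exact (mul_eq_zero.mp h).resolve_left (by
      have h1 := hn 8 (by norm_num [MM])
      exact_mod_cast h1)
  have hA1e3 : A1e3 x y z w = 0 := by
    have h := A1e3_eq x y z w
    simp only [g0, g1, g2, g3, g5, mul_zero, add_zero] at h
    exact (mul_eq_zero.mp h).resolve_left (by
      have h1 := hn 128 (by norm_num [MM])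
      exact_mod_cast h1)
  have hA1e4 : A1e4 x y z w = 0 := by
    have h := A1e4_eq x y z w
    simp only [g0, g1, g2, g3, g5, mul_zero, add_zero] at h
    exact (mul_eq_zero.mp h).resolve_left (by
      have h1 := hn 128 (by norm_num [MM])
      exact_mod_cast h1)
  have hA1e5 : A1e5 x y z w = 0 := by
    have h := A1e5_eq x y z w
    simp only [g0, g1, g2, g3, mul_zero, add_zero] at h
    exact (mul_eq_zero.mp h).resolve_left (by
      have h1 := hn 16 (by norm_num [MM])
      exact_mod_cast h1)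
  have hA1e6 : A1e6 x y z w = 0 := by
    have h := A1e6_eq x y z w
    simp only [g0, g1, g2, g3, mul_zero, add_zero] at h
    exact (mul_eq_zero.mp h).resolve_left (by
      have h1 := hn 64 (by norm_num [MM])
      exact_mod_cast h1)
  have hA1e7 : A1e7 x y z w = 0 := by
    have h := A1e7_eq x y z w
    simp only [g0, g1, g2, g3, g5, mul_zero, add_zero] at h
    exact (mul_eq_zero.mp h).resolve_left (by
      have h1 := hn 128 (by norm_num [MM])
      exact_mod_cast h1)
  have hA1e8 : A1e8 x y z w = 0 := by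
    have h := A1e8_eq x y z w
    simp only [g0, g1, g2, g3, g5, mul_zero, add_zero] at h
    exact (mul_eq_zero.mp h).resolve_left (by
      have h1 := hn 128 (by norm_num [MM])
      exact_mod_cast h1)
  have hB9 : B9 x y z w = 0 := by
    have h := B9_eq x y z w
    simp only [hA0e0, hA0e1, hA0e2, hA0e3, hA0e4, hA0e5, hA0e6, hA0e7, hA0e8, hA1e0, hA1e1, hA1e2, hA1e3, hA1e4, hA1e5, hA1e6, hA1e7, hA1e8, mul_zero, add_zero] at h
    exact (mul_eq_zero.mp h).resolve_left (by
      have h1 := hn 256 (by norm_num [MM])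
      exact_mod_cast h1)
  have hB10 : B10 x y z w = 0 := by
    have h := B10_eq x y z w
    simp only [hA0e0, hA0e1, hA0e2, hA0e3, hA0e4, hA0e5, hA0e6, hA0e7, hA0e8, hA1e0, hA1e1, hA1e2, hA1e3, hA1e4, hA1e5, hA1e6, hA1e7, hA1e8, mul_zero, add_zero] at h
    exact (mul_eq_zero.mp h).resolve_left (by
      have h1 := hn 1536 (by norm_num [MM])
      exact_mod_cast h1)
  have hB11 : B11 x y z w = 0 := by
    have h := B11_eq x y z w
    simp only [hA0e0, hA0e1, hA0e2, hA0e3, hA0e4, hA0e5, hA0e6, hA0e7, hA0e8, hA1e0, hA1e1, hA1e2, hA1e3, hA1e4, hA1e5, hA1e6, hA1e7, hA1e8, mul_zero, add_zero] at h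
    exact (mul_eq_zero.mp h).resolve_left (by
      have h1 := hn 96 (by norm_num [MM])
      exact_mod_cast h1)
  have hB12 : B12 x y z w = 0 := by
    have h := B12_eq x y z w
    simp only [hA0e0, hA0e1, hA0e2, hA0e3, hA0e4, hA0e5, hA0e6, hA0e7, hA0e8, hA1e0, hA1e1, hA1e2, hA1e3, hA1e4, hA1e5, hA1e6, hA1e7, hA1e8, mul_zero, add_zero] at h
    exact (mul_eq_zero.mp h).resolve_left (by
      have h1 := hn 256 (by norm_num [MM])
      exact_mod_cast h1)
  have hB13 : B13 x y z w = 0 := by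
    have h := B13_eq x y z w
    simp only [hA0e0, hA0e1, hA0e2, hA0e3, hA0e4, hA0e5, hA0e6, hA0e7, hA0e8, hA1e0, hA1e1, hA1e2, hA1e3, hA1e4, hA1e5, hA1e6, hA1e7, hA1e8, mul_zero, add_zero] at h
    exact (mul_eq_zero.mp h).resolve_left (by
      have h1 := hn 192 (by norm_num [MM])
      exact_mod_cast h1)
  have hTT : TT x y z w = 0 := by
    have h := TT_eq x y z w
    simp only [hA0e0, hA0e1, hA0e2, hA0e3, hA0e4, hA0e5, hA0e6, hA0e7, hA0e8, hA1e0, hA1e1, hA1e2, hA1e3, hA1e4, hA1e5, hA1e6, hA1e7, hA1e8, hB10, hB11, hB12, hB13, hB9, mul_zero, add_zero] at h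
    exact (mul_eq_zero.mp h).resolve_left (by
      have h1 := hn 664730062302240000 (by norm_num [MM])
      exact_mod_cast h1)
  exact hTT

/-- `prod (t_k - r)` -/
def qq (x y z u w r : F) : F := w - u * r + z * r ^ 2 - y * r ^ 3 + x * r ^ 4 - r ^ 5

/-- `sum_k prod_(j <> k) (t_j - r)` -/
def dd (x y z u r : F) : F := u - 2 * z * r + 3 * y * r ^ 2 - 4 * x * r ^ 3 + 5 * r ^ 4

/-- `prod (t_k ^ 2 + 1)` -/
def n4 (x y z u w : F) : F := (x - z + w) ^ 2 + (y - u - 1) ^ 2

/-- `sum_k t_k prod_(j <> k) (t_j ^ 2 + 1)` -/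
def t4 (x y z u w : F) : F :=
  (-3 * y + u + 5) * (x - z + w) + (4 * x - 2 * z) * (y - u - 1)

/-- `prod (t_k ^ 2 + 2 t_k + 5)` -/
def w5 (x y z u w : F) : F :=
  (-7 * x - 11 * y - 3 * z + u + w + 41) ^ 2 + (24 * x + 2 * y - 4 * z - 2 * u + 38) ^ 2

/-- `2 sum_k prod_(j <> k) (t_j ^ 2 + 2 t_j + 5)` -/
def u5 (x y z u w : F) : F :=
  (8 * x - 12 * y - 4 * z + 120) * (-7 * x - 11 * y - 3 * z + u + w + 41) -
    (-44 * x - 9 * y + 2 * z + u - 35) * (24 * x + 2 * y - 4 * z - 2 * u + 38)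

theorem core2 (x y z u w : F) (hn : ∀ N : ℕ, N ∣ MM ^ 20 → (N : F) ≠ 0) (hu : u = x * w)
    (f2 : dd x y z u 1 * qq x y z u w (-3) + dd x y z u (-3) * qq x y z u w 1 = 0)
    (f3 : dd x y z u (-1) * qq x y z u w 3 + dd x y z u 3 * qq x y z u w (-1) = 0)
    (f4 : x * n4 x y z u w - 2 * t4 x y z u w = 0)
    (f5 : dd x y z u 1 * w5 x y z u w + u5 x y z u w * qq x y z u w 1 = 0)
    (f5b : -dd x y z u (-3) * w5 x y z u w + u5 x y z u w * qq x y z u w (-3) = 0)
    (f6 : -dd x y z u (-1) * w5 (-x) y (-z) u (-w) +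
      u5 (-x) y (-z) u (-w) * qq x y z u w (-1) = 0)
    (f6b : dd x y z u 3 * w5 (-x) y (-z) u (-w) + u5 (-x) y (-z) u (-w) * qq x y z u w 3 = 0) :
    qq x y z u w 1 * qq x y z u w (-1) = 0 := by
  subst hu
  have h2 : (2 : F) ≠ 0 := by
    have h1 := hn 2 (by norm_num [MM])
    exact_mod_cast h1
  have h4 : (4 : F) ≠ 0 := by
    have h1 := hn 4 (by norm_num [MM])
    exact_mod_cast h1
  have h20 : (20 : F) ≠ 0 := by
    have h1 := hn 20 (by norm_num [MM])
    exact_mod_cast h1
  have g0 : G0 x y z w = 0 := by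
    have e : (4 : F) * G0 x y z w = 0 := by
      simp only [G0, dd, qq] at f2 f3 ⊢
      linear_combination f2 + f3
    exact (mul_eq_zero.mp e).resolve_left h4
  have g1 : G1 x y z w = 0 := by
    have e : (4 : F) * G1 x y z w = 0 := by
      simp only [G1, dd, qq] at f2 f3 ⊢
      linear_combination f2 - f3
    exact (mul_eq_zero.mp e).resolve_left h4
  have g2 : G2 x y z w = 0 := by
    simp only [G2, n4, t4] at f4 ⊢
    linear_combination f4
  have g3 : G3 x y z w = 0 := by
    have e : (4 : F) * G3 x y z w = 0 := by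
      simp only [G3, dd, qq, w5, u5] at f5 f6 ⊢
      linear_combination f5 + f6
    exact (mul_eq_zero.mp e).resolve_left h4
  have g4 : G4 x y z w = 0 := by
    have e : (2 : F) * G4 x y z w = 0 := by
      simp only [G4, dd, qq, w5, u5] at f5 f6 ⊢
      linear_combination f5 - f6
    exact (mul_eq_zero.mp e).resolve_left h2
  have g5 : G5 x y z w = 0 := by
    have e : (20 : F) * G5 x y z w = 0 := by
      simp only [G5, dd, qq, w5, u5] at f5b f6b ⊢
      linear_combination f5b + f6b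
    exact (mul_eq_zero.mp e).resolve_left h20
  have g6 : G6 x y z w = 0 := by
    have e : (2 : F) * G6 x y z w = 0 := by
      simp only [G6, dd, qq, w5, u5] at f5b f6b ⊢
      linear_combination f5b - f6b
    exact (mul_eq_zero.mp e).resolve_left h2
  have h := core x y z w hn g0 g1 g2 g3 g4 g5 g6
  simp only [TT] at h
  simp only [qq]
  linear_combination h

/-! ### the passage from the five values -/

theorem frac5 {a b c d e A B C D E : F} (hA : A ≠ 0) (hB : B ≠ 0) (hC : C ≠ 0) (hD : D ≠ 0)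
    (hE : E ≠ 0) : a / A + b / B + c / C + d / D + e / E =
      (a * (B * C * D * E) + b * (A * C * D * E) + c * (A * B * D * E) + d * (A * B * C * E) +
        e * (A * B * C * D)) / (A * B * C * D * E) := by
  field_simp

def s1 (a b c d e : F) : F := a + b + c + d + e
def s2 (a b c d e : F) : F :=
  a * b + a * c + a * d + a * e + b * c + b * d + b * e + c * d + c * e + d * e
def s3 (a b c d e : F) : F :=
  a * b * c + a * b * d + a * b * e + a * c * d + a * c * e + a * d * e + b * c * d + b * c * e +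
    b * d * e + c * d * e
def s4 (a b c d e : F) : F :=
  a * b * c * d + a * b * c * e + a * b * d * e + a * c * d * e + b * c * d * e
def s5 (a b c d e : F) : F := a * b * c * d * e

/-- `qq` at the elementary symmetric functions -/
def Qs (a b c d e r : F) : F :=
  qq (s1 a b c d e) (s2 a b c d e) (s3 a b c d e) (s4 a b c d e) (s5 a b c d e) r
def Ds (a b c d e r : F) : F :=
  dd (s1 a b c d e) (s2 a b c d e) (s3 a b c d e) (s4 a b c d e) r

theorem Qs_eq (a b c d e r : F) :
    Qs a b c d e r = (a - r) * (b - r) * (c - r) * (d - r) * (e - r) := by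
  simp only [Qs, qq, s1, s2, s3, s4, s5]
  ring

theorem sum_sub {a b c d e : F} (r : F) (ha : a - r ≠ 0) (hb : b - r ≠ 0) (hc : c - r ≠ 0)
    (hd : d - r ≠ 0) (he : e - r ≠ 0) :
    1 / (a - r) + 1 / (b - r) + 1 / (c - r) + 1 / (d - r) + 1 / (e - r) =
      Ds a b c d e r / Qs a b c d e r := by
  rw [frac5 ha hb hc hd he, Qs_eq]
  congr 1
  simp only [Ds, dd, s1, s2, s3, s4]
  ring

theorem n4_eq (a b c d e : F) :
    n4 (s1 a b c d e) (s2 a b c d e) (s3 a b c d e) (s4 a b c d e) (s5 a b c d e) =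
      (a ^ 2 + 1) * (b ^ 2 + 1) * (c ^ 2 + 1) * (d ^ 2 + 1) * (e ^ 2 + 1) := by
  simp only [n4, s1, s2, s3, s4, s5]
  ring

theorem sum_n4 {a b c d e : F} (ha : a ^ 2 + 1 ≠ 0) (hb : b ^ 2 + 1 ≠ 0) (hc : c ^ 2 + 1 ≠ 0)
    (hd : d ^ 2 + 1 ≠ 0) (he : e ^ 2 + 1 ≠ 0) :
    a / (a ^ 2 + 1) + b / (b ^ 2 + 1) + c / (c ^ 2 + 1) + d / (d ^ 2 + 1) + e / (e ^ 2 + 1) =
      t4 (s1 a b c d e) (s2 a b c d e) (s3 a b c d e) (s4 a b c d e) (s5 a b c d e) /
      n4 (s1 a b c d e) (s2 a b c d e) (s3 a b c d e) (s4 a b c d e) (s5 a b c d e) := by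
  rw [frac5 ha hb hc hd he, n4_eq]
  congr 1
  simp only [t4, s1, s2, s3, s4, s5]
  ring

theorem w5_eq (a b c d e : F) :
    w5 (s1 a b c d e) (s2 a b c d e) (s3 a b c d e) (s4 a b c d e) (s5 a b c d e) =
      (a ^ 2 + 2 * a + 5) * (b ^ 2 + 2 * b + 5) * (c ^ 2 + 2 * c + 5) * (d ^ 2 + 2 * d + 5) *
        (e ^ 2 + 2 * e + 5) := by
  simp only [w5, s1, s2, s3, s4, s5]
  ring

theorem sum_w5 {a b c d e : F} (ha : a ^ 2 + 2 * a + 5 ≠ 0) (hb : b ^ 2 + 2 * b + 5 ≠ 0)
    (hc : c ^ 2 + 2 * c + 5 ≠ 0) (hd : d ^ 2 + 2 * d + 5 ≠ 0) (he : e ^ 2 + 2 * e + 5 ≠ 0) :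
    2 / (a ^ 2 + 2 * a + 5) + 2 / (b ^ 2 + 2 * b + 5) + 2 / (c ^ 2 + 2 * c + 5) +
      2 / (d ^ 2 + 2 * d + 5) + 2 / (e ^ 2 + 2 * e + 5) =
      u5 (s1 a b c d e) (s2 a b c d e) (s3 a b c d e) (s4 a b c d e) (s5 a b c d e) /
      w5 (s1 a b c d e) (s2 a b c d e) (s3 a b c d e) (s4 a b c d e) (s5 a b c d e) := by
  rw [frac5 ha hb hc hd he, w5_eq]
  congr 1
  simp only [u5, s1, s2, s3, s4, s5]
  ring

end H10CQ.E5
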