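import Pool.Agent.H9.FC.WCond
import Pool.Agent.H9.FC.LocDeg
import Pool.Agent.H10.CQ.Defs

/-!
# Project CQ, module Even: the primes above `2` in degrees `2` and `4`

`even_count`: let `[K : ℚ] ≤ 4`, `[K : ℚ] ≠ 3`, and suppose that the numbers `n_a, n_b, n_c` of the
zeros of `a, b, c` among the reductions of the embeddings modulo `2` are equal.  Then all of them are
`0`: otherwise `[K : ℚ] = 4` and exactly one reduction `ψ` has none of the three zeros, the traces of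
`a b c y` show that the values of `ψ` lie in `𝔽_2`, and `1 + 1 + 1 ≠ 0` in `𝔽_2`.
`even_case`: if for the reductions modulo `p` of a first case solution `t_k = (a_k - b_k)/c_k` has
`t_k^2 + 3 = 0` and `∑ t_k = 0`, then, by the trace relation for the prime `2` (`wief_cond`), no prime
above `2` contains one of `a, b, c`, and all the residue fields above `2` have `4` elements.
-/

open NumberField H9FC

namespace H10CQ

/-- exactly one reduction without zeros is impossible -/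
lemma ev_unique {K : Type*} [Field K] [NumberField K] {p : ℕ} [Fact p.Prime] {a b c : 𝓞 K}
    (h : FSol K p a b c) {Ω : Type*} [Field Ω] [CharP Ω 2]
    {ψ : Fin (Module.finrank ℚ K) → (𝓞 K →+* Ω)} (hψ : IsRedFam ψ)
    (i₀ : Fin (Module.finrank ℚ K)) (h0 : ψ i₀ a ≠ 0 ∧ ψ i₀ b ≠ 0 ∧ ψ i₀ c ≠ 0)
    (hu : ∀ i, i ≠ i₀ → ψ i a = 0 ∨ ψ i b = 0 ∨ ψ i c = 0) : False := by
  have hint : ∀ m : ℤ, (m : Ω) = 0 ∨ (m : Ω) = 1 := by
    intro m
    rcases Int.emod_two_eq_zero_or_one m with h1 | h1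
    · left
      exact (CharP.intCast_eq_zero_iff Ω 2 m).2 (by exact_mod_cast Int.dvd_of_emod_eq_zero h1)
    · right
      have h2 : ((m - 1 : ℤ) : Ω) = 0 :=
        (CharP.intCast_eq_zero_iff Ω 2 (m - 1)).2 (by push_cast; omega)
      push_cast at h2
      exact sub_eq_zero.mp h2
  have htr : ∀ y : 𝓞 K, ψ i₀ (a * b * c) * ψ i₀ y = 0 ∨ ψ i₀ (a * b * c) * ψ i₀ y = 1 := by
    intro y
    have h1 := redFam_trace hψ (a * b * c * y)
    have h2 : ∑ i, ψ i (a * b * c * y) = ψ i₀ (a * b * c) * ψ i₀ y := by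
      rw [Finset.sum_eq_single i₀, map_mul]
      · intro i _ hi
        rw [map_mul, map_mul, map_mul]
        rcases hu i hi with h3 | h3 | h3 <;> rw [h3] <;> ring
      · intro h3
        exact absurd (Finset.mem_univ _) h3
    rw [h2] at h1
    rw [← h1]
    exact hint _
  have habc : ψ i₀ (a * b * c) ≠ 0 := by
    rw [map_mul, map_mul]
    exact mul_ne_zero (mul_ne_zero h0.1 h0.2.1) h0.2.2
  have habc1 : ψ i₀ (a * b * c) = 1 := by
    have h1 := htr 1
    rw [map_one, mul_one] at h1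
    exact h1.resolve_left habc
  have hone : ∀ y : 𝓞 K, ψ i₀ y ≠ 0 → ψ i₀ y = 1 := by
    intro y hy
    have h1 := htr y
    rw [habc1, one_mul] at h1
    exact h1.resolve_left hy
  have h3 := congrArg (ψ i₀) h.2.2.2
  rw [map_add, map_add, map_pow, map_pow, map_pow, hone a h0.1, hone b h0.2.1, hone c h0.2.2,
    one_pow, map_zero] at h3
  have h4 : (1 + 1 : Ω) = 0 := by
    have := CharP.cast_eq_zero Ω 2
    push_cast at this
    rw [one_add_one_eq_two]
    exact this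
  rw [h4, zero_add] at h3
  exact one_ne_zero h3

/-- equal numbers of zeros modulo `2` in degrees `1, 2, 4`: there are none -/
lemma even_count {K : Type*} [Field K] [NumberField K] (hn : Module.finrank ℚ K ≤ 4)
    (hn3 : Module.finrank ℚ K ≠ 3) {p : ℕ} [Fact p.Prime] {a b c : 𝓞 K}
    (h : FSol K p a b c) (hc2 : CopAt K 2 a b c) (hab : mm K 2 a = mm K 2 b)
    (hbc : mm K 2 b = mm K 2 c) : mm K 2 a = 0 := by
  classical
  have : Fact (Nat.Prime 2) := ⟨Nat.prime_two⟩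
  obtain ⟨ψ, hψ⟩ := exists_redFam K 2 (AlgebraicClosure (ZMod 2))
  have hA := card_zero_eq_mm 2 hψ a
  have hB := card_zero_eq_mm 2 hψ b
  have hC := card_zero_eq_mm 2 hψ c
  rw [Nat.card_eq_fintype_card, Fintype.card_subtype] at hA hB hC
  set A : Finset (Fin (Module.finrank ℚ K)) := Finset.univ.filter (fun i => ψ i a = 0) with hAd
  set B : Finset (Fin (Module.finrank ℚ K)) := Finset.univ.filter (fun i => ψ i b = 0) with hBd
  set C : Finset (Fin (Module.finrank ℚ K)) := Finset.univ.filter (fun i => ψ i c = 0) with hCd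
  have hcop := fun i => cop_hom h hc2 (ψ i)
  have hAB : Disjoint A B := by
    rw [Finset.disjoint_left]
    intro i h1 h2
    rw [hAd, Finset.mem_filter] at h1
    rw [hBd, Finset.mem_filter] at h2
    exact (hcop i).1 ⟨h1.2, h2.2⟩
  have hABC : Disjoint (A ∪ B) C := by
    rw [Finset.disjoint_left]
    intro i h1 h2
    rw [hCd, Finset.mem_filter] at h2
    rcases Finset.mem_union.mp h1 with h3 | h3
    · rw [hAd, Finset.mem_filter] at h3
      exact (hcop i).2.2 ⟨h2.2, h3.2⟩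
    · rw [hBd, Finset.mem_filter] at h3
      exact (hcop i).2.1 ⟨h3.2, h2.2⟩
  have hcard : ((A ∪ B) ∪ C).card = mm K 2 a + mm K 2 a + mm K 2 a := by
    rw [Finset.card_union_of_disjoint hABC, Finset.card_union_of_disjoint hAB, hA, hB, hC, ← hbc,
      ← hab]
  have hle : ((A ∪ B) ∪ C).card ≤ Module.finrank ℚ K := by
    have := Finset.card_le_univ ((A ∪ B) ∪ C)
    simpa using this
  by_contra hm
  have hm1 : mm K 2 a = 1 := by omega
  have hn4 : Module.finrank ℚ K = 4 := by omega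
  have hcompl : (((A ∪ B) ∪ C)ᶜ).card = 1 := by
    rw [Finset.card_compl, Fintype.card_fin, hcard, hm1, hn4]
  obtain ⟨i₀, hi₀⟩ := Finset.card_eq_one.mp hcompl
  have hmem : ∀ i, i ∈ ((A ∪ B) ∪ C) ↔ ψ i a = 0 ∨ ψ i b = 0 ∨ ψ i c = 0 := by
    intro i
    rw [Finset.mem_union, Finset.mem_union, hAd, hBd, hCd, Finset.mem_filter, Finset.mem_filter,
      Finset.mem_filter]
    simp only [Finset.mem_univ, true_and, or_assoc]
  have hi₀' : i₀ ∈ ((A ∪ B) ∪ C)ᶜ := by rw [hi₀]; exact Finset.mem_singleton_self _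
  rw [Finset.mem_compl, hmem, not_or, not_or] at hi₀'
  refine ev_unique h hψ i₀ hi₀' fun i hi => ?_
  rw [← hmem]
  by_contra h5
  have h6 : i ∈ ((A ∪ B) ∪ C)ᶜ := Finset.mem_compl.mpr h5
  rw [hi₀, Finset.mem_singleton] at h6
  exact hi h6

/-- from `t^2 = -3` modulo `p`: all the residue fields above `2` have `4` elements -/
theorem even_case (K : Type*) [Field K] [NumberField K] (p : ℕ) [Fact p.Prime] (hp : 7 ≤ p)
    (hn : Module.finrank ℚ K ≤ 4) (hn3 : Module.finrank ℚ K ≠ 3)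
    (hW : ¬ p ^ 2 ∣ 2 ^ (p - 1) - 1)
    (h2 : ∀ P : Ideal (𝓞 K), P.IsPrime → ((2 : ℕ) : 𝓞 K) ∈ P → Nat.card (𝓞 K ⧸ P) ≤ 4)
    (a b c : 𝓞 K) (h : FSol K p a b c) (hcp : CopAt K p a b c) (hc2 : CopAt K 2 a b c)
    {Ω : Type*} [Field Ω] [CharP Ω p] {ψ : Fin (Module.finrank ℚ K) → (𝓞 K →+* Ω)}
    (hψ : IsRedFam ψ) (hne : ∀ k, ψ k a ≠ 0 ∧ ψ k b ≠ 0 ∧ ψ k c ≠ 0)
    (ht : ∀ k, ((ψ k a - ψ k b) / ψ k c) ^ 2 + 3 = 0)
    (hs : ∑ k, (ψ k a - ψ k b) / ψ k c = 0) :
    ∀ P : Ideal (𝓞 K), P.IsPrime → ((2 : ℕ) : 𝓞 K) ∈ P →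
      (a ∉ P ∧ b ∉ P ∧ c ∉ P) ∧ Nat.card (𝓞 K ⧸ P) ≠ 2 := by
  classical
  have : Fact (Nat.Prime 2) := ⟨Nat.prime_two⟩
  have hpp : p.Prime := Fact.out
  have hd : Module.finrank ℚ K + 2 < p := by omega
  have e1 := wief_cond K p (by omega) hd 2 hW (Or.inl ⟨rfl, h2⟩) a b c h hcp hc2 hψ
  have e2 := wief_cond K p (by omega) hd 2 hW (Or.inl ⟨rfl, h2⟩) b c a h.rot hcp.rot hc2.rot hψ
  have hrot : ∀ k, (ψ k b - ψ k c) / ψ k a = (ψ k a - ψ k b) / ψ k c := by
    intro k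
    obtain ⟨ha, hb, hc⟩ := hne k
    have hsum := fsol_hom h (ψ k)
    have htk := ht k
    rw [div_eq_div_iff ha hc]
    have h3 : (ψ k a - ψ k b) ^ 2 + 3 * ψ k c ^ 2 = 0 := by
      rw [div_pow] at htk
      field_simp at htk
      linear_combination htk
    have h4 : (4 : Ω) ≠ 0 := by
      intro h5
      have h6 : ((4 : ℕ) : Ω) = 0 := by exact_mod_cast h5
      have := Nat.le_of_dvd (by norm_num) ((CharP.cast_eq_zero_iff Ω p 4).mp h6)
      omega
    have h5 : (4 : Ω) * ((ψ k b - ψ k c) * ψ k c - (ψ k a - ψ k b) * ψ k a) = 0 := by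
      have hc' : ψ k c = -(ψ k a + ψ k b) := by linear_combination hsum
      rw [hc'] at h3 ⊢
      linear_combination (-2 : Ω) * h3
    exact sub_eq_zero.mp ((mul_eq_zero.mp h5).resolve_left h4)
  have hs2 : ∑ k, (ψ k b - ψ k c) / ψ k a = 0 := by
    rw [Finset.sum_congr rfl fun k _ => hrot k]
    exact hs
  rw [hs] at e1
  rw [hs2] at e2
  obtain ⟨ψ₂, hψ₂⟩ := exists_redFam K 2 (AlgebraicClosure (ZMod 2))
  have hmle : ∀ x : 𝓞 K, mm K 2 x < p := by
    intro x
    rw [← card_zero_eq_mm 2 hψ₂ x, Nat.card_eq_fintype_card]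
    have := Fintype.card_subtype_le (fun i => ψ₂ i x = 0)
    rw [Fintype.card_fin] at this
    omega
  have hcast : ∀ x y : 𝓞 K, (0 : Ω) = (mm K 2 x : Ω) - (mm K 2 y : Ω) → mm K 2 x = mm K 2 y := by
    intro x y hxy
    have h3 : ((mm K 2 x : ℕ) : Ω) = ((mm K 2 y : ℕ) : Ω) := by linear_combination -hxy
    exact CharP.natCast_injOn_Iio Ω p (Set.mem_Iio.mpr (hmle x)) (Set.mem_Iio.mpr (hmle y)) h3
  have hab := hcast a b e1
  have hbc := hcast b c e2
  have hm := even_count hn hn3 h hc2 hab hbc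
  have hno : ∀ x : 𝓞 K, mm K 2 x = 0 → ∀ P : Ideal (𝓞 K), P.IsPrime → ((2 : ℕ) : 𝓞 K) ∈ P →
      x ∉ P := by
    intro x hx P hP hP2 hxP
    obtain ⟨i, hi⟩ := exists_redFam_ker hψ₂ 2 P hP hP2
    have h3 : ψ₂ i x = 0 := by rw [← hi] at hxP; exact (RingHom.mem_ker).1 hxP
    have h4 := card_zero_eq_mm 2 hψ₂ x
    rw [hx, Nat.card_eq_zero] at h4
    rcases h4 with h4 | h4
    · exact h4.false ⟨i, h3⟩
    · exact h4.not_finite inferInstance
  intro P hP hP2
  have hPa := hno a hm P hP hP2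
  have hPb := hno b (hab ▸ hm) P hP hP2
  have hPc := hno c (hbc ▸ hab ▸ hm) P hP hP2
  refine ⟨⟨hPa, hPb, hPc⟩, fun hcard => ?_⟩
  rcases res_two h P hP hcard with h5 | h5 | h5
  · exact hPa h5
  · exact hPb h5
  · exact hPc h5

end H10CQ
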