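import Pool.Agent.H10.CQ.Pass
import Pool.Agent.H10.CQ.Even
import Pool.Agent.H65.CQ.EvenB

/-!
# CQ Fin4: degree four (and two), from the solution of the six equations
-/

open NumberField IsDedekindDomain H9FC

namespace H10CQ

/-- for a family with `t_k ^ 2 = -3` the residues satisfy `a ^ 2 + a b + b ^ 2 = 0` -/
theorem sq_of_t {Ω : Type*} [Field Ω] {a b c : Ω} (hc : c ≠ 0) (h0 : a + b + c = 0)
    (h4 : (4 : Ω) ≠ 0) (ht : ((a - b) / c) ^ 2 + 3 = 0) : a ^ 2 + a * b + b ^ 2 = 0 := by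
  have h1 : (a - b) ^ 2 + 3 * c ^ 2 = 0 := by
    rw [div_pow] at ht
    field_simp at ht
    linear_combination ht
  have h2 : (4 : Ω) * (a ^ 2 + a * b + b ^ 2) = 0 := by
    have hc' : c = -(a + b) := by linear_combination h0
    rw [hc'] at h1
    linear_combination h1
  exact (mul_eq_zero.1 h2).resolve_left h4

theorem four_ne {p : ℕ} [Fact p.Prime] (hp : 5 ≤ p) {Ω : Type*} [Field Ω] [CharP Ω p] :
    (4 : Ω) ≠ 0 := by
  have := cast_ne p (Ω := Ω) (k := 4) (by omega) (by omega)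
  exact_mod_cast this

/-- `(a : b : c) = (1 : ω : ω ^ 2)` modulo all places above `p` -/
theorem cubic_at (K : Type*) [Field K] [NumberField K] (p : ℕ) [Fact p.Prime] (hp : 5 ≤ p)
    (hn : Module.finrank ℚ K < p) (hW : ¬ p ^ 2 ∣ 2 ^ (p - 1) - 1)
    (hsix : ∀ t : Fin (Module.finrank ℚ K) → AlgebraicClosure (ZMod p), Six t → ∀ k, t k ^ 2 + 3 = 0)
    (a b c : K) (ha : a ≠ 0) (hb : b ≠ 0) (hc : c ≠ 0) (h : a ^ p + b ^ p + c ^ p = 0)
    (hf : ∀ v : HeightOneSpectrum (𝓞 K), (p : 𝓞 K) ∈ v.asIdeal →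
      v.valuation K a = v.valuation K b ∧ v.valuation K b = v.valuation K c)
    (v : HeightOneSpectrum (𝓞 K)) (hv : (p : 𝓞 K) ∈ v.asIdeal) :
    v.valuation K (a ^ 2 + a * b + b ^ 2) < v.valuation K (a ^ 2) ∧
      v.valuation K (((a - b) / c) ^ 2 + 3) < 1 := by
  obtain ⟨l, a', b', c', hl, ea, eb, ec, hF, -, hfc⟩ := exists_first p a b c ha hb hc h hf
  obtain ⟨ψ, hψ⟩ := exists_redFam K p (AlgebraicClosure (ZMod p))
  have hS := six_of_sol K p hp hn hW a' b' c' hF hfc hψ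
  have ht := hsix _ hS
  obtain ⟨k, hk⟩ := exists_redFam_ker hψ p v.asIdeal v.isPrime hv
  obtain ⟨n1, n2, n3⟩ := hfc v.asIdeal v.isPrime hv
  have hkc : ψ k c' ≠ 0 := fun h0 => n3 (by rw [← hk, RingHom.mem_ker]; exact h0)
  have hz1 : a' ^ 2 + a' * b' + b' ^ 2 ∈ v.asIdeal := by
    rw [← hk, RingHom.mem_ker]
    have := sq_of_t hkc (fsol_hom hF (ψ k)) (four_ne (p := p) hp) (ht k)
    simpa [map_add, map_mul, map_pow] using this
  have hz2 : (a' - b') ^ 2 + 3 * c' ^ 2 ∈ v.asIdeal := by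
    rw [← hk, RingHom.mem_ker]
    have h1 := ht k
    have h2 : (ψ k a' - ψ k b') ^ 2 + 3 * ψ k c' ^ 2 = 0 := by
      have h1' : ((ψ k a' - ψ k b') / ψ k c') ^ 2 + 3 = 0 := h1
      rw [div_pow] at h1'
      field_simp at h1'
      linear_combination h1'
    simpa [map_add, map_sub, map_mul, map_pow, map_ofNat] using h2
  have hone : ∀ x : 𝓞 K, x ∉ v.asIdeal → v.valuation K (x : K) = 1 := by
    intro x hx
    refine le_antisymm (v.valuation_le_one x) ?_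
    by_contra h6
    exact hx ((HeightOneSpectrum.valuation_lt_one_iff_mem (K := K) v x).mp (not_le.mp h6))
  have h5 := hone a' n1
  have h5c := hone c' n3
  constructor
  · have h4 : v.valuation K ((a' ^ 2 + a' * b' + b' ^ 2 : 𝓞 K) : K) < 1 := by
      rw [HeightOneSpectrum.valuation_lt_one_iff_mem]
      exact hz1
    have h6 : ((a' ^ 2 + a' * b' + b' ^ 2 : 𝓞 K) : K) = l ^ 2 * (a ^ 2 + a * b + b ^ 2) := by
      have h8 : ((a' ^ 2 + a' * b' + b' ^ 2 : 𝓞 K) : K)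
          = (a' : K) ^ 2 + (a' : K) * (b' : K) + (b' : K) ^ 2 := by
        simp only [map_add, map_mul, map_pow]
      rw [h8, ea, eb]
      ring
    have h7 : v.valuation K (l ^ 2) * v.valuation K (a ^ 2) = 1 := by
      rw [← map_mul, ← mul_pow, ← ea, map_pow, h5, one_pow]
    rw [h6, map_mul, ← h7] at h4
    exact lt_of_mul_lt_mul_left' h4
  · have h4 : v.valuation K (((a' - b') ^ 2 + 3 * c' ^ 2 : 𝓞 K) : K) < 1 := by
      rw [HeightOneSpectrum.valuation_lt_one_iff_mem]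
      exact hz2
    have h6 : (((a' - b') ^ 2 + 3 * c' ^ 2 : 𝓞 K) : K) = (c' : K) ^ 2 * (((a - b) / c) ^ 2 + 3) := by
      have h8 : (((a' - b') ^ 2 + 3 * c' ^ 2 : 𝓞 K) : K)
          = ((a' : K) - (b' : K)) ^ 2 + 3 * (c' : K) ^ 2 := by
        simp only [map_add, map_sub, map_mul, map_pow, map_ofNat]
      rw [h8, ea, eb, ec]
      field_simp
    rw [h6, map_mul, map_pow, h5c, one_pow, one_mul] at h4
    exact h4

theorem six_sum {p : ℕ} [Fact p.Prime] (hp : 5 ≤ p) {Ω : Type*} [Field Ω] [CharP Ω p] {n : ℕ}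
    {t : Fin n → Ω} (h : Six t) (ht : ∀ k, t k ^ 2 + 3 = 0) : ∑ k, t k = 0 := by
  have h3 : (3 : Ω) ≠ 0 := by
    have := cast_ne p (Ω := Ω) (k := 3) (by omega) (by omega)
    exact_mod_cast this
  have h4 := four_ne (p := p) hp (Ω := Ω)
  have e : ∑ k, (t k - 1 / t k) = (4 / 3) * ∑ k, t k := by
    rw [Finset.mul_sum]
    refine Finset.sum_congr rfl fun k _ => ?_
    have := h.d0 k
    field_simp
    linear_combination -ht k
  have e1 := h.e1
  rw [e] at e1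
  exact (mul_eq_zero.1 e1).resolve_left (div_ne_zero h4 h3)

/-- even degree, all residue fields above 2 have at most four elements, and one of them two -/
theorem even_two (K : Type*) [Field K] [NumberField K] (p : ℕ) [Fact p.Prime] (hp : 7 ≤ p)
    (hn : Module.finrank ℚ K ≤ 4) (hn3 : Module.finrank ℚ K ≠ 3) (hW : ¬ p ^ 2 ∣ 2 ^ (p - 1) - 1)
    (hsix : ∀ t : Fin (Module.finrank ℚ K) → AlgebraicClosure (ZMod p), Six t → ∀ k, t k ^ 2 + 3 = 0)
    (a b c : K) (ha : a ≠ 0) (hb : b ≠ 0) (hc : c ≠ 0) (h : a ^ p + b ^ p + c ^ p = 0)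
    (hf : ∀ v : HeightOneSpectrum (𝓞 K), (p : 𝓞 K) ∈ v.asIdeal →
      v.valuation K a = v.valuation K b ∧ v.valuation K b = v.valuation K c)
    (h2 : ∀ v : HeightOneSpectrum (𝓞 K), (2 : 𝓞 K) ∈ v.asIdeal → Nat.card (𝓞 K ⧸ v.asIdeal) ≤ 4)
    (Q : HeightOneSpectrum (𝓞 K)) (hQ : Nat.card (𝓞 K ⧸ Q.asIdeal) = 2) : False := by
  haveI : Fact (Nat.Prime 2) := ⟨Nat.prime_two⟩
  obtain ⟨l, a', b', c', hl, ea, eb, ec, hF, hcq, hfc⟩ := exists_first 2 a b c ha hb hc h hf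
  obtain ⟨ψ, hψ⟩ := exists_redFam K p (AlgebraicClosure (ZMod p))
  have hS := six_of_sol K p (by omega) (by omega) hW a' b' c' hF hfc hψ
  have ht := hsix _ hS
  have hker : ∀ k, ψ k a' ≠ 0 ∧ ψ k b' ≠ 0 ∧ ψ k c' ≠ 0 := by
    intro k
    have h1 := hfc (RingHom.ker (ψ k)) (RingHom.ker_isPrime _) (by
      rw [RingHom.mem_ker, map_natCast, CharP.cast_eq_zero])
    exact ⟨fun h0 => h1.1 h0, fun h0 => h1.2.1 h0, fun h0 => h1.2.2 h0⟩
  have h2Q : ((2 : ℕ) : 𝓞 K) ∈ Q.asIdeal := by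
    have h3 : ((Ideal.absNorm Q.asIdeal : ℕ) : 𝓞 K) ∈ Q.asIdeal := Ideal.absNorm_mem Q.asIdeal
    have h4 : Ideal.absNorm Q.asIdeal = 2 := by
      rw [← hQ]
      rfl
    rwa [h4] at h3
  refine (even_case K p hp hn hn3 hW ?_ a' b' c' hF (fun P hP hpP h3 => (hfc P hP hpP).1 h3.1) hcq hψ
    hker ht (six_sum (by omega) hS ht) Q.asIdeal Q.isPrime h2Q).2 hQ
  intro P hP h2P
  have hne : P ≠ ⊥ := by
    rintro rfl
    rw [Ideal.mem_bot, Nat.cast_eq_zero] at h2P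
    omega
  exact h2 ⟨P, hP, hne⟩ (by exact_mod_cast h2P)

/-- even degree, one residue field above 2 has two elements, `p` unramified, prime to the class
number -/
theorem even_one (K : Type*) [Field K] [NumberField K] (p : ℕ) [Fact p.Prime] (hp : 7 ≤ p)
    (hn : Module.finrank ℚ K < p) (hW : ¬ p ^ 2 ∣ 2 ^ (p - 1) - 1)
    (hsix : ∀ t : Fin (Module.finrank ℚ K) → AlgebraicClosure (ZMod p), Six t → ∀ k, t k ^ 2 + 3 = 0)
    (hu : H91SP.Unr p K) (hcl : ¬ p ∣ NumberField.classNumber K)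
    (a b c : K) (ha : a ≠ 0) (hb : b ≠ 0) (hc : c ≠ 0) (h : a ^ p + b ^ p + c ^ p = 0)
    (hf : ∀ v : HeightOneSpectrum (𝓞 K), (p : 𝓞 K) ∈ v.asIdeal →
      v.valuation K a = v.valuation K b ∧ v.valuation K b = v.valuation K c)
    (Q : HeightOneSpectrum (𝓞 K)) (hQ : Nat.card (𝓞 K ⧸ Q.asIdeal) = 2) : False :=
  H65CQ.even_f2 p K (by omega) hu hcl a b c ha hb hc h hf
    (fun v hv => (cubic_at K p (by omega) hn hW hsix a b c ha hb hc h hf v hv).2) Q hQ hW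

end H10CQ
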