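import Mathlib
import Pool.Agent.H10.CQ.Defs

/-!
# Project CQ, module K2a: Fourier expansion of `H_{y-1}` modulo `p`

Faulhaber's formula for the exponent `p - 2`, reduced modulo `p`; the Bernoulli numbers with index
`≤ p - 2` are `p`-integral (recursion).
-/

namespace H10CQ

section

variable (Ω : Type*) [Field Ω]

/-- the rational numbers whose denominator is not zero in `Ω` -/
def fourS : Subring ℚ where
  carrier := {q | (q.den : Ω) ≠ 0}
  mul_mem' := by
    intro a b ha hb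
    simp only [Set.mem_setOf_eq] at ha hb ⊢
    intro h
    obtain ⟨m, hm⟩ := Rat.mul_den_dvd a b
    have h1 : ((a.den * b.den : ℕ) : Ω) = 0 := by rw [hm, Nat.cast_mul, h, zero_mul]
    rw [Nat.cast_mul] at h1
    exact (mul_ne_zero ha hb) h1
  one_mem' := by simp
  add_mem' := by
    intro a b ha hb
    simp only [Set.mem_setOf_eq] at ha hb ⊢
    intro h
    obtain ⟨m, hm⟩ := Rat.add_den_dvd a b
    have h1 : ((a.den * b.den : ℕ) : Ω) = 0 := by rw [hm, Nat.cast_mul, h, zero_mul]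
    rw [Nat.cast_mul] at h1
    exact (mul_ne_zero ha hb) h1
  zero_mem' := by simp
  neg_mem' := by
    intro a ha
    simpa using ha

/-- the reduction map -/
def fourR : fourS Ω →+* Ω where
  toFun q := ((q : ℚ) : Ω)
  map_one' := by simp
  map_mul' a b := Rat.cast_mul_of_ne_zero a.2 b.2
  map_zero' := by simp
  map_add' a b := Rat.cast_add_of_ne_zero a.2 b.2

theorem mem_fourS {q : ℚ} : q ∈ fourS Ω ↔ (q.den : Ω) ≠ 0 := Iff.rfl

theorem natCast_mem_fourS (n : ℕ) : (n : ℚ) ∈ fourS Ω := natCast_mem _ n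

theorem inv_natCast_mem_fourS {n : ℕ} (hn : (n : Ω) ≠ 0) : ((n : ℚ)⁻¹) ∈ fourS Ω := by
  rw [mem_fourS]
  have h0 : 0 < n := Nat.pos_of_ne_zero (by rintro rfl; simp at hn)
  rw [Rat.inv_natCast_den_of_pos h0]
  exact hn

end

theorem bernoulli'_mem_fourS (p : ℕ) [Fact p.Prime] (Ω : Type*) [Field Ω] [CharP Ω p] (n : ℕ)
    (hn : n + 1 < p) : bernoulli' n ∈ fourS Ω := by
  induction n using Nat.strong_induction_on with
  | _ n ih =>
    rw [bernoulli'_def]
    refine sub_mem (one_mem _) (sum_mem fun k hk => ?_)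
    have hkn : k < n := Finset.mem_range.mp hk
    refine mul_mem ?_ (ih k hkn (by omega))
    have h1 : ((n.choose k : ℚ) / (n - k + 1)) = (n.choose k : ℚ) * (((n - k + 1 : ℕ) : ℚ))⁻¹ := by
      rw [div_eq_mul_inv]
      congr 2
      push_cast [Nat.cast_sub hkn.le]
      ring
    rw [h1]
    refine mul_mem (natCast_mem_fourS Ω _) (inv_natCast_mem_fourS Ω ?_)
    intro h0
    rw [CharP.cast_eq_zero_iff Ω p] at h0
    exact absurd (Nat.le_of_dvd (by omega) h0) (by omega)

theorem bernoulli_mem_fourS (p : ℕ) [Fact p.Prime] (Ω : Type*) [Field Ω] [CharP Ω p] (n : ℕ)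
    (hn : n + 1 < p) : bernoulli n ∈ fourS Ω := by
  rw [bernoulli]
  refine mul_mem ?_ (bernoulli'_mem_fourS p Ω n hn)
  exact pow_mem (neg_mem (one_mem _)) n

theorem exists_fourier (p : ℕ) [Fact p.Prime] (hp : 5 ≤ p) (Ω : Type*) [Field Ω] [CharP Ω p] :
    ∃ c : ℕ → Ω, (∀ y : ℕ, 1 ≤ y → y ≤ p - 1 →
        Hh Ω (y - 1) = ∑ i ∈ Finset.range (p - 1), c i * (y : Ω) ^ (p - 1 - i)) ∧
      ∀ i, 2 ≤ i → i ≤ p - 2 → ¬ (Even i ∧ i + 3 ≤ p ∧ ¬ (p : ℤ) ∣ (bernoulli i).num) → c i = 0 := by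
  have hpp : p.Prime := Fact.out
  have hp1 : ((p - 1 : ℕ) : Ω) ≠ 0 := by
    intro h0
    rw [CharP.cast_eq_zero_iff Ω p] at h0
    exact absurd (Nat.le_of_dvd (by omega) h0) (by omega)
  -- coefficients in the subring
  have hmem : ∀ i, i < p - 1 →
      bernoulli i * ((p - 1).choose i : ℚ) * (((p - 1 : ℕ) : ℚ))⁻¹ ∈ fourS Ω := fun i hi =>
    mul_mem (mul_mem (bernoulli_mem_fourS p Ω i (by omega)) (natCast_mem_fourS Ω _))
      (inv_natCast_mem_fourS Ω hp1)
  refine ⟨fun i => ((bernoulli i * ((p - 1).choose i : ℚ) * (((p - 1 : ℕ) : ℚ))⁻¹ : ℚ) : Ω), ?_, ?_⟩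
  · intro y hy1 hy2
    have hF := sum_range_pow y (p - 2)
    have hp2 : p - 2 + 1 = p - 1 := by omega
    -- the identity in the subring
    have hF2 : (∑ k ∈ Finset.range y, ((k : fourS Ω)) ^ (p - 2)) =
        ∑ i : Fin (p - 1), (⟨_, hmem i i.2⟩ : fourS Ω) * (y : fourS Ω) ^ (p - 1 - (i : ℕ)) := by
      apply Subtype.ext
      push_cast
      rw [hF, hp2, ← Fin.sum_univ_eq_sum_range (fun i => bernoulli i * ((p - 1).choose i : ℚ) *
        (y : ℚ) ^ (p - 1 - i) / ((p - 2 : ℕ) + 1))]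
      refine Finset.sum_congr rfl fun i _ => ?_
      have h3 : (((p - 2 : ℕ) : ℚ) + 1) = ((p - 1 : ℕ) : ℚ) := by
        rw [← hp2]; push_cast; ring
      rw [h3]
      ring
    have hF3 := congrArg (fourR Ω) hF2
    rw [map_sum, map_sum] at hF3
    simp only [map_mul, map_pow, map_natCast] at hF3
    have hH : Hh Ω (y - 1) = ∑ k ∈ Finset.range y, (k : Ω) ^ (p - 2) := by
      obtain ⟨z, rfl⟩ : ∃ z, y = z + 1 := ⟨y - 1, by omega⟩
      have hI : Finset.Icc 1 z = Finset.Ico 1 (z + 1) := by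
        ext k
        simp only [Finset.mem_Icc, Finset.mem_Ico]
        omega
      rw [Hh, Finset.sum_range_succ', Nat.cast_zero, zero_pow (by omega), add_zero,
        Nat.add_sub_cancel, hI, Finset.sum_Ico_eq_sum_range, Nat.add_sub_cancel]
      refine Finset.sum_congr rfl fun k hk => ?_
      have hkz : k < z := Finset.mem_range.mp hk
      have hne : ((k + 1 : ℕ) : Ω) ≠ 0 := by
        intro h0
        rw [CharP.cast_eq_zero_iff Ω p] at h0
        exact absurd (Nat.le_of_dvd (by omega) h0) (by omega)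
      have hfr : ((k + 1 : ℕ) : Ω) ^ p = ((k + 1 : ℕ) : Ω) := by
        have := map_natCast (frobenius Ω p) (k + 1)
        rwa [frobenius_def] at this
      have h4 : ((k + 1 : ℕ) : Ω) ^ (p - 2) * ((k + 1 : ℕ) : Ω) = 1 := by
        apply mul_right_cancel₀ hne
        rw [one_mul, mul_assoc, ← pow_two, ← pow_add, Nat.sub_add_cancel (by omega)]
        exact hfr
      rw [Nat.add_comm 1 k]
      exact (eq_inv_of_mul_eq_one_left h4).symm
    rw [hH, hF3, ← Fin.sum_univ_eq_sum_range (fun i =>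
      (((bernoulli i * ((p - 1).choose i : ℚ) * (((p - 1 : ℕ) : ℚ))⁻¹ : ℚ) : Ω)) *
        (y : Ω) ^ (p - 1 - i))]
    rfl
  · intro i hi2 hip hcon
    have hB : ((bernoulli i : ℚ) : Ω) = 0 := by
      rcases Nat.even_or_odd i with he | ho
      · have h3 : i + 3 ≤ p := by
          rcases hpp.eq_two_or_odd' with h | h
          · omega
          · obtain ⟨a, ha⟩ := he
            obtain ⟨b, hb⟩ := h
            omega
        have h4 : (p : ℤ) ∣ (bernoulli i).num := by
          by_contra h5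
          exact hcon ⟨he, h3, h5⟩
        rw [Rat.cast_def, (CharP.intCast_eq_zero_iff Ω p _).mpr h4, zero_div]
      · rw [bernoulli_eq_zero_of_odd ho (by omega), Rat.cast_zero]
    show ((bernoulli i * ((p - 1).choose i : ℚ) * (((p - 1 : ℕ) : ℚ))⁻¹ : ℚ) : Ω) = 0
    rw [mul_assoc, Rat.cast_mul_of_ne_zero (bernoulli_mem_fourS p Ω i (by omega)), hB, zero_mul]
    exact mul_mem (natCast_mem_fourS Ω _) (inv_natCast_mem_fourS Ω hp1)

end H10CQ
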