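import Pool.Agent.H10.CQ.Defs
import Pool.Agent.H22.WQ.Harm

/-!
# Project CQ: `H_{(p-1)/2} ≠ 0` when `2` is not a Wieferich base of `p`
-/

namespace H10CQ

/-- `Hh` commutes with a ring homomorphism of fields -/
theorem Hh_map {K Ω : Type*} [Field K] [Field Ω] (f : K →+* Ω) (m : ℕ) :
    f (Hh K m) = Hh Ω m := by
  unfold Hh
  rw [map_sum]
  refine Finset.sum_congr rfl fun k _ => ?_
  rw [map_inv₀, map_natCast]

theorem Hh_half_ne (p : ℕ) [Fact p.Prime] (hp : 5 ≤ p) (hW : ¬ p ^ 2 ∣ 2 ^ (p - 1) - 1)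
    (Ω : Type*) [Field Ω] [CharP Ω p] : Hh Ω ((p - 1) / 2) ≠ 0 := by
  intro h
  apply hW
  apply Pool.Agent.H22.WQ.wieferich_of_SS p (by omega)
  rw [Pool.Agent.H22.WQ.Harm_SS p (by omega)]
  have h1 := Hh_map (ZMod.castHom (dvd_refl p) Ω) ((p - 1) / 2)
  rw [h] at h1
  exact (map_eq_zero _).mp h1

end H10CQ
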