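import Pool.Agent.H10.CQ.Defs

/-!
# Project CQ, module Subst (K2c): the change of variables `m = N y mod p`
-/

namespace H10CQ

theorem sb_cast (p : ℕ) {Ω : Type*} [Field Ω] [CharP Ω p] (N y : ℕ) :
    ((N * y % p : ℕ) : Ω) = (N : Ω) * (y : Ω) := by
  have h := CharP.cast_eq_mod Ω p (N * y)
  rw [← h]
  push_cast
  ring

theorem sb_pow (p : ℕ) [Fact p.Prime] {Ω : Type*} [Field Ω] [CharP Ω p] (N : ℕ)
    (hN : 1 ≤ N) (hNp : N < p) : (N : Ω) ^ (p - 1) = 1 := by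
  have hp : p.Prime := Fact.out
  have h1 : ((N : ZMod p)) ≠ 0 := by
    rw [Ne, ZMod.natCast_eq_zero_iff]
    exact Nat.not_dvd_of_pos_of_lt hN hNp
  have h2 := ZMod.pow_card_sub_one_eq_one h1
  have h3 := congrArg (ZMod.castHom (dvd_refl p) Ω) h2
  simpa using h3

theorem subst_one (p : ℕ) [Fact p.Prime] {Ω : Type*} [Field Ω] [CharP Ω p] (N : ℕ)
    (hN : 1 ≤ N) (hNp : N < p) (s : Ω) (i : ℕ) (hi : i < p - 1) :
    ∑ y ∈ Finset.Icc 1 (p - 1), (y : Ω) ^ (p - 1 - i) * s ^ (N * y % p)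
      = (N : Ω) ^ i * el p i s := by
  have hp : p.Prime := Fact.out
  rw [el, Finset.mul_sum]
  have hmaps : ∀ y ∈ Finset.Icc 1 (p - 1), N * y % p ∈ Finset.Icc 1 (p - 1) := by
    intro y hy
    rw [Finset.mem_Icc] at hy ⊢
    have h1 : N * y % p < p := Nat.mod_lt _ hp.pos
    have h2 : N * y % p ≠ 0 := by
      intro h0
      have h3 : p ∣ N * y := Nat.dvd_of_mod_eq_zero h0
      rcases hp.dvd_mul.1 h3 with h4 | h4
      · exact Nat.not_dvd_of_pos_of_lt hN hNp h4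
      · exact Nat.not_dvd_of_pos_of_lt hy.1 (by omega) h4
    omega
  have hinj : Set.InjOn (fun y => N * y % p) (Finset.Icc 1 (p - 1) : Finset ℕ) := by
    intro y hy z hz hyz
    simp only [Finset.coe_Icc, Set.mem_Icc] at hy hz
    have h1 : N * y ≡ N * z [MOD p] := hyz
    have h2 : Nat.gcd p N = 1 := by
      exact (Nat.Prime.coprime_iff_not_dvd hp).2 (Nat.not_dvd_of_pos_of_lt hN hNp)
    have h3 := Nat.ModEq.cancel_left_of_coprime h2 h1
    exact Nat.ModEq.eq_of_lt_of_lt h3 (by omega) (by omega)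
  refine Finset.sum_nbij (fun y => N * y % p) hmaps hinj ?_ ?_
  · exact Finset.surjOn_of_injOn_of_card_le _ hmaps hinj le_rfl
  · intro y hy
    have h1 : ((N * y % p : ℕ) : Ω) = (N : Ω) * (y : Ω) := sb_cast p N y
    have h2 : (N : Ω) ^ i * (N : Ω) ^ (p - 1 - i) = 1 := by
      rw [← pow_add, Nat.add_sub_cancel' hi.le, sb_pow p N hN hNp]
    rw [h1, mul_pow]
    calc (y : Ω) ^ (p - 1 - i) * s ^ (N * y % p)
        = ((N : Ω) ^ i * (N : Ω) ^ (p - 1 - i)) * ((y : Ω) ^ (p - 1 - i) * s ^ (N * y % p)) := by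
          rw [h2, one_mul]
      _ = _ := by ring

theorem subst_id (p : ℕ) [Fact p.Prime] (hp : 5 ≤ p) {Ω : Type*} [Field Ω] [CharP Ω p] (N : ℕ)
    (hN : 1 ≤ N) (hNp : N < p) (s : Ω) (c : ℕ → Ω)
    (hc : ∀ y : ℕ, 1 ≤ y → y ≤ p - 1 →
        Hh Ω (y - 1) = ∑ i ∈ Finset.range (p - 1), c i * (y : Ω) ^ (p - 1 - i)) :
    ∑ y ∈ Finset.Icc 1 (p - 1), Hh Ω (y - 1) * s ^ (N * y % p)
      = ∑ i ∈ Finset.range (p - 1), c i * (N : Ω) ^ i * el p i s := by
  have h1 : ∀ y ∈ Finset.Icc 1 (p - 1), Hh Ω (y - 1) * s ^ (N * y % p) =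
      ∑ i ∈ Finset.range (p - 1), c i * ((y : Ω) ^ (p - 1 - i) * s ^ (N * y % p)) := by
    intro y hy
    rw [Finset.mem_Icc] at hy
    rw [hc y hy.1 hy.2, Finset.sum_mul]
    exact Finset.sum_congr rfl fun i _ => by ring
  rw [Finset.sum_congr rfl h1, Finset.sum_comm]
  refine Finset.sum_congr rfl fun i hi => ?_
  rw [← Finset.mul_sum, subst_one p N hN hNp s i (Finset.mem_range.1 hi)]
  ring

end H10CQ
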