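import Pool.Agent.H10.CQ.Defs

/-!
# CQ Wrap: telescoping

`r(y) = N y mod p`, `T = ∑_{0<y<p} H_{y-1} s^r(y)`.  `A = ∑_{0<y<p} H_{y-1} s^r(y-1)`.
`A = T + ∑_z s^r(z) / z = T + N ℓ_1(s) = T` (`H_0 = H_{p-1} = 0`), and
`s^N A = T + (s^p - 1) WW`, because `N + r(y-1) = r(y)` or `r(y) + p`.
-/

namespace H10CQ

/-- `y ↦ N y mod p` is a permutation of `1, …, p - 1` -/
theorem perm_sum (p : ℕ) [Fact p.Prime] {Ω : Type*} [AddCommMonoid Ω] (N : ℕ)
    (hN : 1 ≤ N) (hNp : N < p) (f : ℕ → Ω) :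
    ∑ y ∈ Finset.Icc 1 (p - 1), f (N * y % p) = ∑ m ∈ Finset.Icc 1 (p - 1), f m := by
  have hp : p.Prime := Fact.out
  have hcop : Nat.Coprime p N := by
    refine (Nat.coprime_or_dvd_of_prime hp N).resolve_right fun h => ?_
    exact absurd (Nat.le_of_dvd hN h) (by omega)
  have hmaps : Set.MapsTo (fun y => N * y % p) (Finset.Icc 1 (p - 1) : Finset ℕ)
      (Finset.Icc 1 (p - 1) : Finset ℕ) := by
    intro y hy
    rw [Finset.mem_coe, Finset.mem_Icc] at hy ⊢
    have h1 : N * y % p < p := Nat.mod_lt _ hp.pos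
    have h2 : N * y % p ≠ 0 := by
      intro h
      have h3 : p ∣ N * y := Nat.dvd_of_mod_eq_zero h
      have h4 : p ∣ y := hcop.dvd_of_dvd_mul_left h3
      have h5 := Nat.le_of_dvd (by omega) h4
      omega
    show 1 ≤ N * y % p ∧ N * y % p ≤ p - 1
    omega
  have hinj : Set.InjOn (fun y => N * y % p) (Finset.Icc 1 (p - 1) : Finset ℕ) := by
    intro y hy z hz h
    rw [Finset.mem_coe, Finset.mem_Icc] at hy hz
    have h1 : N * y ≡ N * z [MOD p] := h
    have h2 : y ≡ z [MOD p] := Nat.ModEq.cancel_left_of_coprime hcop h1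
    exact Nat.ModEq.eq_of_lt_of_lt h2 (by omega) (by omega)
  have hsurj := Finset.surjOn_of_injOn_of_card_le _ hmaps hinj le_rfl
  exact Finset.sum_nbij (fun y => N * y % p) hmaps hinj hsurj fun y _ => rfl

theorem Hh_succ (Ω : Type*) [Field Ω] (m : ℕ) :
    Hh Ω (m + 1) = Hh Ω m + ((m + 1 : ℕ) : Ω)⁻¹ := by
  rw [Hh, Hh, Finset.sum_Icc_succ_top (by omega)]

theorem Hh_zero (Ω : Type*) [Field Ω] : Hh Ω 0 = 0 := by
  rw [Hh]
  simp

theorem cast_ne (p : ℕ) [Fact p.Prime] {Ω : Type*} [Field Ω] [CharP Ω p] {k : ℕ} (h1 : 1 ≤ k)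
    (h2 : k ≤ p - 1) : ((k : ℕ) : Ω) ≠ 0 := by
  have hp : p.Prime := Fact.out
  have hp0 := hp.pos
  rw [Ne, CharP.cast_eq_zero_iff Ω p]
  intro h
  have := Nat.le_of_dvd (by omega) h
  omega

/-- `H_{p-1} = 0` -/
theorem Hh_last (p : ℕ) [Fact p.Prime] (hp3 : 3 ≤ p) (Ω : Type*) [Field Ω] [CharP Ω p] :
    Hh Ω (p - 1) = 0 := by
  have hp : p.Prime := Fact.out
  have h1 : Hh Ω (p - 1) = - Hh Ω (p - 1) := by
    unfold Hh
    rw [← Finset.sum_neg_distrib]
    refine Finset.sum_nbij' (fun k => p - k) (fun k => p - k) ?_ ?_ ?_ ?_ ?_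
    · intro k hk
      rw [Finset.mem_Icc] at hk ⊢
      show 1 ≤ p - k ∧ p - k ≤ p - 1
      omega
    · intro k hk
      rw [Finset.mem_Icc] at hk ⊢
      show 1 ≤ p - k ∧ p - k ≤ p - 1
      omega
    · intro k hk
      rw [Finset.mem_Icc] at hk
      show p - (p - k) = k
      omega
    · intro k hk
      rw [Finset.mem_Icc] at hk
      show p - (p - k) = k
      omega
    · intro k hk
      rw [Finset.mem_Icc] at hk
      show ((k : ℕ) : Ω)⁻¹ = -((p - k : ℕ) : Ω)⁻¹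
      rw [Nat.cast_sub (by omega), CharP.cast_eq_zero Ω p, zero_sub, inv_neg, neg_neg]
  have h2 : (2 : Ω) * Hh Ω (p - 1) = 0 := by linear_combination h1
  have h3 : ((2 : ℕ) : Ω) ≠ 0 := cast_ne p (by omega) (by omega)
  rcases mul_eq_zero.1 h2 with h | h
  · exact absurd (by exact_mod_cast h) h3
  · exact h

/-- `z⁻¹ = z^(p-2)` in `Ω` -/
theorem inv_eq_pow (p : ℕ) [Fact p.Prime] {Ω : Type*} [Field Ω] [CharP Ω p] {k : ℕ} (h1 : 1 ≤ k)
    (h2 : k ≤ p - 1) : ((k : ℕ) : Ω)⁻¹ = (k : Ω) ^ (p - 1 - 1) := by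
  have hp : p.Prime := Fact.out
  have hp2 := hp.two_le
  have h3 := cast_ne p (Ω := Ω) h1 h2
  have h4 : (k : ZMod p) ^ (p - 1) = 1 := by
    refine ZMod.pow_card_sub_one_eq_one ?_
    exact cast_ne p h1 h2
  have h5 : ((k : ℕ) : Ω) ^ (p - 1) = 1 := by
    have h6 := congrArg (ZMod.castHom (dvd_refl p) Ω) h4
    rwa [map_pow, map_natCast, map_one] at h6
  have h7 : (k : Ω) ^ (p - 1) = (k : Ω) * (k : Ω) ^ (p - 1 - 1) := by
    conv_lhs => rw [show p - 1 = (p - 1 - 1) + 1 by omega]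
    rw [pow_succ]
    ring
  rw [h7] at h5
  exact inv_eq_of_mul_eq_one_right h5

theorem wrap_id (p : ℕ) [Fact p.Prime] (hp : 5 ≤ p) {Ω : Type*} [Field Ω] [CharP Ω p] (N : ℕ)
    (hN : 1 ≤ N) (hNp : N < p) (s : Ω) (h1 : el p 1 s = 0) :
    (s ^ N - 1) * ∑ y ∈ Finset.Icc 1 (p - 1), Hh Ω (y - 1) * s ^ (N * y % p)
      = (s ^ p - 1) * WW p N s := by
  classical
  have hpp : p.Prime := Fact.out
  obtain ⟨T, hT⟩ : ∃ T, T = ∑ y ∈ Finset.Icc 1 (p - 1), Hh Ω (y - 1) * s ^ (N * y % p) := ⟨_, rfl⟩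
  obtain ⟨A, hA⟩ : ∃ A, A = ∑ y ∈ Finset.Icc 1 (p - 1), Hh Ω (y - 1) * s ^ (N * (y - 1) % p) :=
    ⟨_, rfl⟩
  -- `A = T`
  have hz : ∑ z ∈ Finset.Icc 1 (p - 1), ((z : ℕ) : Ω)⁻¹ * s ^ (N * z % p) = 0 := by
    have h2 : ∑ z ∈ Finset.Icc 1 (p - 1), ((z : ℕ) : Ω)⁻¹ * s ^ (N * z % p)
        = ∑ z ∈ Finset.Icc 1 (p - 1), (fun m : ℕ => (N : Ω) * ((m : Ω)⁻¹ * s ^ m)) (N * z % p) := by
      refine Finset.sum_congr rfl fun z hz => ?_
      rw [Finset.mem_Icc] at hz
      have h3 : ((N * z % p : ℕ) : Ω) = (N : Ω) * (z : Ω) := by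
        have h4 : ((p * (N * z / p) + N * z % p : ℕ) : Ω) = ((N * z : ℕ) : Ω) := by
          rw [Nat.div_add_mod]
        rw [Nat.cast_add, Nat.cast_mul p, CharP.cast_eq_zero Ω p, zero_mul, zero_add, Nat.cast_mul] at h4
        exact h4
      show ((z : ℕ) : Ω)⁻¹ * s ^ (N * z % p)
        = (N : Ω) * (((N * z % p : ℕ) : Ω)⁻¹ * s ^ (N * z % p))
      rw [h3, mul_inv]
      have h5 := cast_ne p (Ω := Ω) hN (by omega : N ≤ p - 1)
      field_simp
    rw [h2, perm_sum p N hN hNp (fun m : ℕ => (N : Ω) * ((m : Ω)⁻¹ * s ^ m)), ← Finset.mul_sum]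
    have h6 : ∑ m ∈ Finset.Icc 1 (p - 1), ((m : ℕ) : Ω)⁻¹ * s ^ m = el p 1 s := by
      unfold el
      refine Finset.sum_congr rfl fun m hm => ?_
      rw [Finset.mem_Icc] at hm
      rw [inv_eq_pow p hm.1 hm.2]
    rw [h6, h1, mul_zero]
  have hAT : A = T := by
    have e1 : A = ∑ z ∈ Finset.range (p - 1), Hh Ω z * s ^ (N * z % p) := by
      rw [hA, Finset.range_eq_Ico]
      refine Finset.sum_nbij' (fun y => y - 1) (fun z => z + 1) ?_ ?_ ?_ ?_ ?_
      · intro y hy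
        rw [Finset.mem_Icc] at hy
        rw [Finset.mem_Ico]
        show 0 ≤ y - 1 ∧ y - 1 < p - 1
        omega
      · intro z hz
        rw [Finset.mem_Ico] at hz
        rw [Finset.mem_Icc]
        show 1 ≤ z + 1 ∧ z + 1 ≤ p - 1
        omega
      · intro y hy
        rw [Finset.mem_Icc] at hy
        show y - 1 + 1 = y
        omega
      · intro z hz
        rfl
      · intro y hy
        rfl
    have e2 : ∑ z ∈ Finset.range (p - 1), Hh Ω z * s ^ (N * z % p)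
        = ∑ z ∈ Finset.Icc 1 (p - 1), Hh Ω z * s ^ (N * z % p) := by
      have e3 : ∑ z ∈ Finset.range p, Hh Ω z * s ^ (N * z % p)
          = ∑ z ∈ Finset.range (p - 1), Hh Ω z * s ^ (N * z % p) := by
        conv_lhs => rw [show p = (p - 1) + 1 by omega]
        rw [Finset.sum_range_succ]
        have e4 : Hh Ω (p - 1) = 0 := Hh_last p (by omega) Ω
        rw [Nat.sub_add_cancel (by omega : 1 ≤ p), e4, zero_mul, add_zero]
      rw [← e3]
      have e5 : Finset.range p = insert 0 (Finset.Icc 1 (p - 1)) := by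
        ext z
        rw [Finset.mem_range, Finset.mem_insert, Finset.mem_Icc]
        omega
      rw [e5, Finset.sum_insert (by rw [Finset.mem_Icc]; omega), Hh_zero, zero_mul, zero_add]
    have e6 : ∑ z ∈ Finset.Icc 1 (p - 1), Hh Ω z * s ^ (N * z % p) = T + 0 := by
      rw [← hz, hT, ← Finset.sum_add_distrib]
      refine Finset.sum_congr rfl fun z hz => ?_
      rw [Finset.mem_Icc] at hz
      have e7 := Hh_succ Ω (z - 1)
      rw [Nat.sub_add_cancel hz.1] at e7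
      rw [e7]
      ring
    rw [e1, e2, e6, add_zero]
  -- `s^N A = T + (s^p - 1) WW`
  have hW : s ^ N * A = T + (s ^ p - 1) * WW p N s := by
    have e1 : WW p N s = ∑ y ∈ Finset.Icc 1 (p - 1),
        (if N * y / p ≠ N * (y - 1) / p then Hh Ω (y - 1) * s ^ (N * y % p) else 0) := by
      unfold WW Wr
      rw [Finset.sum_filter]
    rw [e1, hA, hT, Finset.mul_sum, Finset.mul_sum, ← Finset.sum_add_distrib]
    refine Finset.sum_congr rfl fun y hy => ?_
    rw [Finset.mem_Icc] at hy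
    have e2 : N * y = N * (y - 1) + N := by
      conv_lhs => rw [show y = (y - 1) + 1 by omega]
      ring
    have e3 := Nat.div_add_mod (N * y) p
    have e4 := Nat.div_add_mod (N * (y - 1)) p
    have e5 : N * y % p < p := Nat.mod_lt _ hpp.pos
    have e6 : N * (y - 1) % p < p := Nat.mod_lt _ hpp.pos
    have e7 : s ^ N * s ^ (N * (y - 1) % p) = s ^ (N + N * (y - 1) % p) := by rw [pow_add]
    have e8 : s ^ N * (Hh Ω (y - 1) * s ^ (N * (y - 1) % p))
        = Hh Ω (y - 1) * s ^ (N + N * (y - 1) % p) := by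
      rw [← e7]
      ring
    rw [e8]
    obtain ⟨q, hq⟩ : ∃ q, q = N * y / p := ⟨_, rfl⟩
    obtain ⟨q', hq'⟩ : ∃ q', q' = N * (y - 1) / p := ⟨_, rfl⟩
    obtain ⟨r, hr⟩ : ∃ r, r = N * y % p := ⟨_, rfl⟩
    obtain ⟨r', hr'⟩ : ∃ r', r' = N * (y - 1) % p := ⟨_, rfl⟩
    rw [← hq, ← hr] at e3
    rw [← hq', ← hr'] at e4
    rw [← hr] at e5
    rw [← hr'] at e6
    rw [← hq, ← hq', ← hr, ← hr']
    have e9 : p * q + r = p * q' + r' + N := by
      rw [e3, e4, e2]
    by_cases hqq : q = q'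
    · rw [if_neg (by rw [hqq]; simp)]
      have e10 : N + r' = r := by
        rw [hqq] at e9
        omega
      rw [e10]
      ring
    · rw [if_pos hqq]
      have h11 : q' < q := by
        by_contra h12
        have h13 : q + 1 ≤ q' := by omega
        have h14 : p * (q + 1) ≤ p * q' := Nat.mul_le_mul_left _ h13
        rw [mul_add, mul_one] at h14
        omega
      have h15 : q = q' + 1 := by
        by_contra h16
        have h17 : q' + 2 ≤ q := by omega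
        have h18 : p * (q' + 2) ≤ p * q := Nat.mul_le_mul_left _ h17
        rw [mul_add] at h18
        omega
      have e10 : N + r' = r + p := by
        rw [h15, mul_add, mul_one] at e9
        omega
      rw [e10, pow_add]
      ring
  rw [hAT] at hW
  rw [← hT]
  linear_combination hW

end H10CQ
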