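import Mathlib
import Pool.Agent.H10.CQ.Defs
import Pool.Agent.H10.CQ.Four
import Pool.Agent.H10.CQ.Wrap
import Pool.Agent.H10.CQ.Subst

/-!
# Project CQ, module K2d: the relations for every `N`

From the Fourier expansion of the harmonic numbers (`exists_fourier`), the telescoping identity
(`wrap_id`), the substitution `m = N y mod p` (`subst_id`) and `Dat`.
-/

namespace H10CQ

/-- `ℓ_0(s)/(1-s^p) = 1/(1-s) - 1/(1-s^p)` -/
lemma mr_el_zero (p : ℕ) [hp : Fact p.Prime] {Ω : Type*} [Field Ω] [CharP Ω p] {s : Ω}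
    (h1 : s ≠ 1) : el p 0 s / (1 - s ^ p) = 1 / (1 - s) - 1 / (1 - s ^ p) := by
  have hs1 : (1 - s : Ω) ≠ 0 := sub_ne_zero.mpr (Ne.symm h1)
  have hsp : (1 - s ^ p : Ω) ≠ 0 := by
    have : (1 - s ^ p : Ω) = (1 - s) ^ p := by rw [sub_pow_char, one_pow]
    rw [this]
    exact pow_ne_zero _ hs1
  have he : el p 0 s = ∑ k ∈ Finset.Icc 1 (p - 1), s ^ k := by
    unfold el
    refine Finset.sum_congr rfl fun k hk => ?_
    rw [Finset.mem_Icc] at hk
    have hk0 : ((k : ℕ) : Ω) ≠ 0 := by
      intro h0
      have := (CharP.cast_eq_zero_iff Ω p k).mp h0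
      have := Nat.le_of_dvd (by omega) this
      have := hp.out.two_le
      omega
    have hkp : ((k : ℕ) : Ω) ^ (p - 1) = 1 := by
      have hz : ((k : ℕ) : ZMod p) ≠ 0 := by
        intro h0
        have := (ZMod.natCast_eq_zero_iff k p).mp h0
        have := Nat.le_of_dvd (by omega) this
        have := hp.out.two_le
        omega
      have h2 := ZMod.pow_card_sub_one_eq_one hz
      have h3 := congrArg (ZMod.castHom (dvd_refl p) Ω) h2
      rw [map_pow, map_natCast, map_one] at h3
      exact h3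
    rw [Nat.sub_zero, hkp, one_mul]
  have hgeo : (∑ k ∈ Finset.Icc 1 (p - 1), s ^ k) * (1 - s) = s - s ^ p := by
    have hIcc : Finset.Icc 1 (p - 1) = Finset.Ico 1 p := by
      ext x
      have := hp.out.two_le
      simp only [Finset.mem_Icc, Finset.mem_Ico]
      omega
    rw [hIcc]
    have h4 := Finset.sum_Ico_eq_sub (fun k => s ^ k) (m := 1) (n := p) hp.out.one_lt.le
    have h5 := geom_sum_mul s p
    rw [h4, Finset.sum_range_one, pow_zero]
    linear_combination -h5
  rw [he]
  field_simp
  linear_combination hgeo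

/-- the relations for every `N` -/
theorem main_rel (p : ℕ) [Fact p.Prime] (hp : 5 ≤ p) {Ω : Type*} [Field Ω] [CharP Ω p] {n : ℕ}
    {s : Fin n → Ω} (h : Dat p s) (N : ℕ) (hN : 2 ≤ N) (hNp : N < p) :
    (∀ k, s k ^ N = 1 → WW p N (s k) = 0) ∧
      ((∀ k, s k ^ N ≠ 1) → ∑ k, WW p N (s k) / (s k ^ N - 1) = 0) := by
  have hsp : ∀ k, (1 - s k ^ p : Ω) ≠ 0 := by
    intro k
    have h1 : (1 - s k ^ p : Ω) = (1 - s k) ^ p := by rw [sub_pow_char, one_pow]
    rw [h1]
    exact pow_ne_zero _ (sub_ne_zero.mpr (Ne.symm (h.ne1 k)))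
  have hwrap := fun k => wrap_id p hp N (by omega) hNp (s k) (h.l1 k)
  refine ⟨fun k hk => ?_, fun hk => ?_⟩
  · have h1 := hwrap k
    rw [hk, sub_self, zero_mul] at h1
    have h2 : (s k ^ p - 1 : Ω) ≠ 0 := by
      intro h3
      exact hsp k (by linear_combination -h3)
    rcases mul_eq_zero.mp h1.symm with h3 | h3
    · exact absurd h3 h2
    · exact h3
  · obtain ⟨c, hc, hc0⟩ := exists_fourier p hp Ω
    have hsub := fun k => subst_id p hp N (by omega) hNp (s k) c hc
    have hterm : ∀ k, WW p N (s k) / (s k ^ N - 1)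
        = -(∑ i ∈ Finset.range (p - 1), c i * (N : Ω) ^ i * (el p i (s k) / (1 - s k ^ p))) := by
      intro k
      have h1 := hwrap k
      rw [hsub k] at h1
      have h2 : (s k ^ N - 1 : Ω) ≠ 0 := sub_ne_zero.mpr (hk k)
      have h3 : ∑ i ∈ Finset.range (p - 1), c i * (N : Ω) ^ i * (el p i (s k) / (1 - s k ^ p))
          = (∑ i ∈ Finset.range (p - 1), c i * (N : Ω) ^ i * el p i (s k)) / (1 - s k ^ p) := by
        rw [Finset.sum_div]
        exact Finset.sum_congr rfl fun i _ => by rw [mul_div_assoc]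
      rw [h3, div_eq_iff h2]
      have h4 := hsp k
      field_simp
      linear_combination h1
    calc ∑ k, WW p N (s k) / (s k ^ N - 1)
        = ∑ k, -(∑ i ∈ Finset.range (p - 1),
            c i * (N : Ω) ^ i * (el p i (s k) / (1 - s k ^ p))) :=
          Finset.sum_congr rfl fun k _ => hterm k
      _ = -(∑ i ∈ Finset.range (p - 1),
            c i * (N : Ω) ^ i * ∑ k, el p i (s k) / (1 - s k ^ p)) := by
          rw [Finset.sum_neg_distrib, Finset.sum_comm]
          simp_rw [Finset.mul_sum]
      _ = 0 := by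
          rw [neg_eq_zero]
          refine Finset.sum_eq_zero fun i hi => ?_
          rw [Finset.mem_range] at hi
          rcases Nat.eq_zero_or_pos i with hi0 | hi0
          · subst hi0
            have h5 : ∑ k, el p 0 (s k) / (1 - s k ^ p) = 0 := by
              rw [Finset.sum_congr rfl fun k _ => mr_el_zero p (h.ne1 k),
                Finset.sum_sub_distrib, h.frob, sub_self]
            rw [h5, mul_zero]
          · rcases Nat.lt_or_ge i 2 with hi1 | hi2
            · have hi1' : i = 1 := by omega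
              subst hi1'
              have h5 : ∑ k, el p 1 (s k) / (1 - s k ^ p) = 0 :=
                Finset.sum_eq_zero fun k _ => by rw [h.l1 k, zero_div]
              rw [h5, mul_zero]
            · by_cases hcase : Even i ∧ i + 3 ≤ p ∧ ¬ (p : ℤ) ∣ (bernoulli i).num
              · rw [h.kum i hcase.1 hi2 hcase.2.1 hcase.2.2, mul_zero]
              · rw [hc0 i hi2 (by omega) hcase, zero_mul, zero_mul]

end H10CQ
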