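import Pool.Agent.H10.CQ.SixEq
import Pool.Agent.H22.CQ.Dat
import Pool.Agent.H45.KC.KVal

/-!
# CQ Pass: the six equations for a first case solution
-/

open NumberField IsDedekindDomain H9FC

namespace H10CQ

theorem six_of_sol (K : Type*) [Field K] [NumberField K] (p : ℕ) [Fact p.Prime] (hp : 5 ≤ p)
    (hn : Module.finrank ℚ K < p) (hW : ¬ p ^ 2 ∣ 2 ^ (p - 1) - 1) (a b c : 𝓞 K)
    (h : FSol K p a b c)
    (hfc : ∀ P : Ideal (𝓞 K), P.IsPrime → (p : 𝓞 K) ∈ P → a ∉ P ∧ b ∉ P ∧ c ∉ P)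
    {Ω : Type*} [Field Ω] [CharP Ω p] {ψ : Fin (Module.finrank ℚ K) → (𝓞 K →+* Ω)}
    (hψ : IsRedFam ψ) : Six (fun k => (ψ k a - ψ k b) / ψ k c) := by
  have hker : ∀ k, ψ k a ≠ 0 ∧ ψ k b ≠ 0 ∧ ψ k c ≠ 0 := by
    intro k
    have h1 := hfc (RingHom.ker (ψ k)) (RingHom.ker_isPrime _) (by
      rw [RingHom.mem_ker, map_natCast, CharP.cast_eq_zero])
    exact ⟨fun h0 => h1.1 h0, fun h0 => h1.2.1 h0, fun h0 => h1.2.2 h0⟩
  exact six p hp hW (fun k => ψ k a) (fun k => ψ k b) (fun k => ψ k c) (fun k => (hker k).1)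
    (fun k => (hker k).2.1) (fun k => (hker k).2.2) (fun k => fsol_hom h (ψ k))
    (dat_of_sol K p hp hn a b c h hfc hψ)
    (dat_of_sol K p hp hn b c a h.rot (fun P hP hpP => ⟨(hfc P hP hpP).2.1, (hfc P hP hpP).2.2,
      (hfc P hP hpP).1⟩) hψ)
    (dat_of_sol K p hp hn c a b h.rot.rot (fun P hP hpP => ⟨(hfc P hP hpP).2.2, (hfc P hP hpP).1,
      (hfc P hP hpP).2.1⟩) hψ)

/-- normalisation of a first case solution -/
theorem exists_first {K : Type*} [Field K] [NumberField K] {p : ℕ} [Fact p.Prime] (q : ℕ)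
    [Fact q.Prime] (a b c : K) (ha : a ≠ 0) (hb : b ≠ 0) (hc : c ≠ 0) (h : a ^ p + b ^ p + c ^ p = 0)
    (hf : ∀ v : HeightOneSpectrum (𝓞 K), (p : 𝓞 K) ∈ v.asIdeal →
      v.valuation K a = v.valuation K b ∧ v.valuation K b = v.valuation K c) :
    ∃ (l : K) (a' b' c' : 𝓞 K), l ≠ 0 ∧ (a' : K) = l * a ∧ (b' : K) = l * b ∧ (c' : K) = l * c ∧
      FSol K p a' b' c' ∧ CopAt K q a' b' c' ∧
      ∀ P : Ideal (𝓞 K), P.IsPrime → (p : 𝓞 K) ∈ P → a' ∉ P ∧ b' ∉ P ∧ c' ∉ P := by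
  have hp : p.Prime := Fact.out
  obtain ⟨l, a', b', c', hl, ea, eb, ec, hF, hcp, hcq⟩ := H45KC.exists_norm K p q a b c ha hb hc h
  refine ⟨l, a', b', c', hl, ea, eb, ec, hF, hcq, fun P hP hpP => ?_⟩
  have hne : P ≠ ⊥ := by
    rintro rfl
    rw [Ideal.mem_bot, Nat.cast_eq_zero] at hpP
    exact hp.ne_zero hpP
  obtain ⟨n1, n2, n3⟩ := (H45KC.not_dv_iff ha hb hc h ⟨P, hP, hne⟩).2 (hf ⟨P, hP, hne⟩ hpP)
  rw [H45KC.dv_iff hl ea eb ec hcp _ hpP] at n1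
  rw [H45KC.dv_iff hl eb ec ea hcp.rot _ hpP] at n2
  rw [H45KC.dv_iff hl ec ea eb hcp.rot.rot _ hpP] at n3
  exact ⟨n1, n2, n3⟩

/-- a family of `n` residues, `n = [K : ℚ]`, which satisfies the six equations -/
theorem exists_six (K : Type*) [Field K] [NumberField K] (p : ℕ) [Fact p.Prime] (hp : 5 ≤ p)
    (n : ℕ) (hK : Module.finrank ℚ K = n) (hn : n < p) (hW : ¬ p ^ 2 ∣ 2 ^ (p - 1) - 1)
    (a b c : K) (ha : a ≠ 0) (hb : b ≠ 0) (hc : c ≠ 0) (h : a ^ p + b ^ p + c ^ p = 0)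
    (hf : ∀ v : HeightOneSpectrum (𝓞 K), (p : 𝓞 K) ∈ v.asIdeal →
      v.valuation K a = v.valuation K b ∧ v.valuation K b = v.valuation K c) :
    ∃ t : Fin n → AlgebraicClosure (ZMod p), Six t := by
  subst hK
  obtain ⟨-, a', b', c', -, -, -, -, hF, -, hfc⟩ := exists_first p a b c ha hb hc h hf
  obtain ⟨ψ, hψ⟩ := exists_redFam K p (AlgebraicClosure (ZMod p))
  exact ⟨_, six_of_sol K p hp hn hW a' b' c' hF hfc hψ⟩

end H10CQ
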