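import Pool.Agent.H10.CQ.Defs

/-!
# Project CQ, K3: the wrapping sums for the bases `2` and `4`

`p` odd, `h = (p-1)/2`.  The wrapping points for `N = 2`: `y = (p+1)/2`, with `2y mod p = 1`.
For `N = 4`: `y = ⌊p/4⌋ + 1`, `(p+1)/2`, `p - ⌊p/4⌋` with `4y mod p` in `{1,3}`, `2`, `{3,1}`.
`H_{p-1-m} = H_m` and `2 H_{⌊p/4⌋} = 3 H_{(p-1)/2}`.
-/

namespace H10CQ

variable {Ω : Type*} [Field Ω]

theorem Two_cast_ne (p : ℕ) [CharP Ω p] {k : ℕ} (h1 : 1 ≤ k) (h2 : k < p) :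
    ((k : ℕ) : Ω) ≠ 0 := by
  rw [Ne, CharP.cast_eq_zero_iff Ω p]
  exact Nat.not_dvd_of_pos_of_lt h1 h2

theorem Two_Hh_succ (m : ℕ) : Hh Ω (m + 1) = Hh Ω m + ((m + 1 : ℕ) : Ω)⁻¹ := by
  unfold Hh
  rw [Finset.sum_Icc_succ_top (by omega)]

theorem Hh_symm_aux (p : ℕ) [CharP Ω p] (m : ℕ) (hm : m + 1 ≤ p) :
    Hh Ω (p - 1 - m) = Hh Ω (p - 1) + Hh Ω m := by
  induction m with
  | zero => simp [Hh]
  | succ m ih =>
    have h1 := ih (by omega)
    have e : p - 1 - m = (p - 1 - (m + 1)) + 1 := by omega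
    rw [e, Two_Hh_succ] at h1
    have e2 : (p - 1 - (m + 1)) + 1 = p - (m + 1) := by omega
    rw [e2, Nat.cast_sub (by omega), CharP.cast_eq_zero, zero_sub, inv_neg] at h1
    rw [Two_Hh_succ]
    linear_combination h1

theorem Two_Hh_last (p : ℕ) [Fact p.Prime] (hp : 3 ≤ p) [CharP Ω p] : Hh Ω (p - 1) = 0 := by
  have hodd : Odd p := (Fact.out : p.Prime).odd_of_ne_two (by omega)
  obtain ⟨r, hr⟩ := hodd
  have h := Hh_symm_aux (Ω := Ω) p ((p - 1) / 2) (by omega)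
  have e : p - 1 - (p - 1) / 2 = (p - 1) / 2 := by omega
  rw [e] at h
  linear_combination -h

theorem Hh_symm (p : ℕ) [Fact p.Prime] (hp : 3 ≤ p) [CharP Ω p] (m : ℕ) (hm : m + 1 ≤ p) :
    Hh Ω (p - 1 - m) = Hh Ω m := by
  rw [Hh_symm_aux p m hm, Two_Hh_last p hp, zero_add]

/-- the sum over the odd numbers -/
def Od (Ω : Type*) [Field Ω] (m : ℕ) : Ω :=
  ∑ k ∈ (Finset.Icc 1 m).filter (fun k => Odd k), ((k : ℕ) : Ω)⁻¹

theorem Hh_split (h2 : (2 : Ω) ≠ 0) (m : ℕ) : 2 * Hh Ω m = Hh Ω (m / 2) + 2 * Od Ω m := by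
  unfold Hh Od
  rw [← Finset.sum_filter_add_sum_filter_not (Finset.Icc 1 m) (fun k => Odd k), mul_add,
    add_comm]
  congr 1
  rw [Finset.mul_sum]
  refine Finset.sum_nbij' (fun k => k / 2) (fun j => 2 * j) ?_ ?_ ?_ ?_ ?_
  · intro k hk
    obtain ⟨h1, h2⟩ := Finset.mem_filter.mp hk
    have h3 := Finset.mem_Icc.mp h1
    obtain ⟨r, hr⟩ := Nat.not_odd_iff_even.mp h2
    simp only [Finset.mem_Icc]; omega
  · intro j hj
    have h3 := Finset.mem_Icc.mp hj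
    refine Finset.mem_filter.mpr ⟨?_, Nat.not_odd_iff_even.mpr (even_two_mul j)⟩
    simp only [Finset.mem_Icc]
    omega
  · intro k hk
    obtain ⟨h1, h2⟩ := Finset.mem_filter.mp hk
    obtain ⟨r, hr⟩ := Nat.not_odd_iff_even.mp h2
    show 2 * (k / 2) = k
    omega
  · intro j hj
    show 2 * j / 2 = j
    omega
  · intro k hk
    obtain ⟨h1, h4⟩ := Finset.mem_filter.mp hk
    obtain ⟨r, hr⟩ := Nat.not_odd_iff_even.mp h4
    have e : k / 2 = r := by omega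
    have e2 : k = 2 * r := by omega
    rw [e, e2]
    push_cast
    rw [mul_inv, ← mul_assoc, mul_inv_cancel₀ h2, one_mul]

theorem Od_half (p : ℕ) [Fact p.Prime] (hp : 3 ≤ p) [CharP Ω p] (h2 : (2 : Ω) ≠ 0) :
    2 * Od Ω ((p - 1) / 2) = -(Hh Ω ((p - 1) / 2) - Hh Ω ((p - 1) / 2 / 2)) := by
  have hodd : Odd p := (Fact.out : p.Prime).odd_of_ne_two (by omega)
  obtain ⟨r, hr⟩ := hodd
  have h3 : Hh Ω ((p - 1) / 2) - Hh Ω ((p - 1) / 2 / 2)
      = ∑ k ∈ Finset.Icc ((p - 1) / 2 / 2 + 1) ((p - 1) / 2), ((k : ℕ) : Ω)⁻¹ := by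
    unfold Hh
    rw [sub_eq_iff_eq_add]
    have e : Finset.Icc 1 ((p - 1) / 2) = Finset.Icc ((p - 1) / 2 / 2 + 1) ((p - 1) / 2) ∪
        Finset.Icc 1 ((p - 1) / 2 / 2) := by
      ext x
      simp only [Finset.mem_union, Finset.mem_Icc]
      omega
    rw [e, Finset.sum_union]
    rw [Finset.disjoint_left]
    intro x hx hx'
    simp only [Finset.mem_Icc] at hx hx'
    omega
  rw [h3, ← Finset.sum_neg_distrib]
  unfold Od
  rw [Finset.mul_sum]
  refine Finset.sum_nbij' (fun k => (p - k) / 2) (fun j => p - 2 * j) ?_ ?_ ?_ ?_ ?_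
  · intro k hk
    obtain ⟨h1, h4⟩ := Finset.mem_filter.mp hk
    have h3 := Finset.mem_Icc.mp h1
    obtain ⟨u, hu⟩ := h4
    simp only [Finset.mem_Icc]; omega
  · intro j hj
    have h3 := Finset.mem_Icc.mp hj
    refine Finset.mem_filter.mpr ⟨?_, ?_⟩
    · simp only [Finset.mem_Icc]
      omega
    · exact ⟨r - j, by omega⟩
  · intro k hk
    obtain ⟨h1, h4⟩ := Finset.mem_filter.mp hk
    have h3 := Finset.mem_Icc.mp h1
    obtain ⟨u, hu⟩ := h4
    show p - 2 * ((p - k) / 2) = k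
    omega
  · intro j hj
    have h3 := Finset.mem_Icc.mp hj
    show (p - (p - 2 * j)) / 2 = j
    omega
  · intro k hk
    obtain ⟨h1, h4⟩ := Finset.mem_filter.mp hk
    have h3 := Finset.mem_Icc.mp h1
    obtain ⟨u, hu⟩ := h4
    have e2 : ((2 * ((p - k) / 2) : ℕ) : Ω) = -(k : Ω) := by
      have : 2 * ((p - k) / 2) = p - k := by omega
      rw [this, Nat.cast_sub (by omega), CharP.cast_eq_zero, zero_sub]
    have e3 : (((p - k) / 2 : ℕ) : Ω) = -(k : Ω) / 2 := by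
      rw [← e2]; push_cast; rw [mul_div_cancel_left₀ _ h2]
    show 2 * ((k : ℕ) : Ω)⁻¹ = -(((p - k) / 2 : ℕ) : Ω)⁻¹
    have hk0 : (k : Ω) ≠ 0 := Two_cast_ne p (by omega) (by omega)
    rw [e3]
    field_simp

theorem Hh_quarter (p : ℕ) [Fact p.Prime] (hp : 3 ≤ p) [CharP Ω p] :
    2 * Hh Ω (p / 4) = 3 * Hh Ω ((p - 1) / 2) := by
  have hodd : Odd p := (Fact.out : p.Prime).odd_of_ne_two (by omega)
  obtain ⟨r, hr⟩ := hodd
  have h2 : (2 : Ω) ≠ 0 := by
    have := Two_cast_ne (Ω := Ω) p (k := 2) (by omega) (by omega)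
    exact_mod_cast this
  have h1 := Hh_split h2 ((p - 1) / 2)
  rw [Od_half p hp h2] at h1
  have e : (p - 1) / 2 / 2 = p / 4 := by omega
  rw [e] at h1
  linear_combination -h1

theorem Wr_two (p : ℕ) [Fact p.Prime] (hp : 3 ≤ p) : Wr p 2 = {(p + 1) / 2} := by
  have hodd : Odd p := (Fact.out : p.Prime).odd_of_ne_two (by omega)
  obtain ⟨r, hr⟩ := hodd
  ext y
  unfold Wr
  simp only [Finset.mem_filter, Finset.mem_Icc, Finset.mem_singleton]
  constructor
  · rintro ⟨⟨h1, h2⟩, h3⟩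
    by_contra hne
    apply h3
    rcases lt_or_gt_of_ne hne with h | h
    · rw [Nat.div_eq_of_lt (by omega), Nat.div_eq_of_lt (by omega)]
    · have e1 : 2 * y / p = 1 := by
        rw [Nat.div_eq_iff (by omega)]; omega
      have e2 : 2 * (y - 1) / p = 1 := by
        rw [Nat.div_eq_iff (by omega)]; omega
      rw [e1, e2]
  · intro h
    subst h
    refine ⟨⟨by omega, by omega⟩, ?_⟩
    have e1 : 2 * ((p + 1) / 2) / p = 1 := by
      rw [Nat.div_eq_iff (by omega)]; omega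
    have e2 : 2 * ((p + 1) / 2 - 1) / p = 0 := Nat.div_eq_of_lt (by omega)
    rw [e1, e2]
    exact one_ne_zero

theorem WW_two (p : ℕ) [Fact p.Prime] (hp : 5 ≤ p) {Ω : Type*} [Field Ω] [CharP Ω p] (s : Ω) :
    WW p 2 s = Hh Ω ((p - 1) / 2) * s := by
  have hodd : Odd p := (Fact.out : p.Prime).odd_of_ne_two (by omega)
  obtain ⟨r, hr⟩ := hodd
  unfold WW
  rw [Wr_two p (by omega), Finset.sum_singleton]
  have e1 : (p + 1) / 2 - 1 = (p - 1) / 2 := by omega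
  have e2 : 2 * ((p + 1) / 2) % p = 1 := by
    have : 2 * ((p + 1) / 2) = p + 1 := by omega
    rw [this, Nat.add_mod_left, Nat.mod_eq_of_lt (by omega)]
  rw [e1, e2, pow_one]

theorem Wr_four (p : ℕ) [Fact p.Prime] (hp : 5 ≤ p) :
    Wr p 4 = {p / 4 + 1, (p + 1) / 2, p - p / 4} := by
  have hodd : Odd p := (Fact.out : p.Prime).odd_of_ne_two (by omega)
  obtain ⟨r, hr⟩ := hodd
  ext y
  unfold Wr
  simp only [Finset.mem_filter, Finset.mem_Icc, Finset.mem_singleton, Finset.mem_insert]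
  have hdiv : ∀ z, z ≤ p - 1 → 4 * z / p = if z ≤ p / 4 then 0 else if 2 * z < p then 1 else
      if z < p - p / 4 then 2 else 3 := by
    intro z hz
    split_ifs with c1 c2 c3
    · exact Nat.div_eq_of_lt (by omega)
    · rw [Nat.div_eq_iff (by omega)]; omega
    · rw [Nat.div_eq_iff (by omega)]; omega
    · rw [Nat.div_eq_iff (by omega)]; omega
  constructor
  · rintro ⟨⟨h1, h2⟩, h3⟩
    rw [hdiv y h2, hdiv (y - 1) (by omega)] at h3
    by_contra hne
    push Not at hne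
    obtain ⟨n1, n2, n3⟩ := hne
    apply h3
    split_ifs <;> omega
  · intro h
    have hy : 1 ≤ y ∧ y ≤ p - 1 := by rcases h with h | h | h <;> omega
    refine ⟨hy, ?_⟩
    rw [hdiv y hy.2, hdiv (y - 1) (by omega)]
    split_ifs <;> omega

theorem WW_four (p : ℕ) [Fact p.Prime] (hp : 5 ≤ p) {Ω : Type*} [Field Ω] [CharP Ω p] (s : Ω) :
    2 * WW p 4 s = Hh Ω ((p - 1) / 2) * (3 * (s ^ 3 + s) + 2 * s ^ 2) := by
  have hodd : Odd p := (Fact.out : p.Prime).odd_of_ne_two (by omega)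
  obtain ⟨r, hr⟩ := hodd
  unfold WW
  rw [Wr_four p hp, Finset.sum_insert (by simp; omega), Finset.sum_insert (by simp; omega),
    Finset.sum_singleton]
  have q1 : Hh Ω (p / 4 + 1 - 1) = Hh Ω (p / 4) := by rw [Nat.add_sub_cancel]
  have q2 : Hh Ω ((p + 1) / 2 - 1) = Hh Ω ((p - 1) / 2) := by
    congr 1; omega
  have q3 : Hh Ω (p - p / 4 - 1) = Hh Ω (p / 4) := by
    have e : p - p / 4 - 1 = p - 1 - p / 4 := by omega
    rw [e, Hh_symm p (by omega) _ (by omega)]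
  have e2 : 4 * ((p + 1) / 2) % p = 2 := by
    have : 4 * ((p + 1) / 2) = 2 + p * 2 := by omega
    rw [this, Nat.add_mul_mod_self_left, Nat.mod_eq_of_lt (by omega)]
  have hq := Hh_quarter (Ω := Ω) p (by omega)
  have h34 : p % 4 = 1 ∨ p % 4 = 3 := by omega
  rw [q1, q2, q3, e2]
  rcases h34 with h | h
  · have e1 : 4 * (p / 4 + 1) % p = 3 := by
      have : 4 * (p / 4 + 1) = 3 + p * 1 := by omega
      rw [this, Nat.add_mul_mod_self_left, Nat.mod_eq_of_lt (by omega)]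
    have e3 : 4 * (p - p / 4) % p = 1 := by
      have : 4 * (p - p / 4) = 1 + p * 3 := by omega
      rw [this, Nat.add_mul_mod_self_left, Nat.mod_eq_of_lt (by omega)]
    rw [e1, e3, pow_one]
    linear_combination (s ^ 3 + s) * hq
  · have e1 : 4 * (p / 4 + 1) % p = 1 := by
      have : 4 * (p / 4 + 1) = 1 + p * 1 := by omega
      rw [this, Nat.add_mul_mod_self_left, Nat.mod_eq_of_lt (by omega)]
    have e3 : 4 * (p - p / 4) % p = 3 := by
      have : 4 * (p - p / 4) = 3 + p * 3 := by omega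
      rw [this, Nat.add_mul_mod_self_left, Nat.mod_eq_of_lt (by omega)]
    rw [e1, e3, pow_one]
    linear_combination (s ^ 3 + s) * hq

end H10CQ
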