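import Pool.Agent.H10.CQ.MainRel
import Pool.Agent.H10.CQ.HalfNe
import Pool.Agent.H10.CQ.Two

/-!
# CQ SixEq: the six equations
-/

namespace H10CQ

theorem two_four (p : ℕ) [Fact p.Prime] (hp : 5 ≤ p) (hW : ¬ p ^ 2 ∣ 2 ^ (p - 1) - 1)
    {Ω : Type*} [Field Ω] [CharP Ω p] {n : ℕ} {s : Fin n → Ω} (h : Dat p s) :
    (∀ k, s k ^ 2 - 1 ≠ 0) ∧ (∀ k, s k ^ 4 - 1 ≠ 0) ∧ ∑ k, s k / (s k ^ 2 - 1) = 0 ∧
      ∑ k, s k ^ 2 / (s k ^ 4 - 1) = 0 := by
  have hH := Hh_half_ne p hp hW Ω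
  have h2 : (2 : Ω) ≠ 0 := by
    have := cast_ne p (Ω := Ω) (k := 2) (by omega) (by omega)
    exact_mod_cast this
  obtain ⟨a1, a2⟩ := main_rel p hp h 2 le_rfl (by omega)
  obtain ⟨b1, b2⟩ := main_rel p hp h 4 (by omega) (by omega)
  have hs2 : ∀ k, s k ^ 2 ≠ 1 := by
    intro k hk
    have h3 := a1 k hk
    rw [WW_two p hp] at h3
    exact mul_ne_zero hH (h.ne0 k) h3
  have hs4 : ∀ k, s k ^ 4 ≠ 1 := by
    intro k hk
    have h3 := b1 k hk
    have h4 := WW_four p hp (s k)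
    rw [h3, mul_zero] at h4
    have h5 : (s k ^ 2 - 1) * (s k ^ 2 + 1) = 0 := by linear_combination hk
    have h6 : s k ^ 2 + 1 = 0 :=
      (mul_eq_zero.1 h5).resolve_left (sub_ne_zero.2 (hs2 k))
    have h7 : Hh Ω ((p - 1) / 2) * 2 = 0 := by
      linear_combination h4 + Hh Ω ((p - 1) / 2) * (3 * s k + 2) * h6
    exact mul_ne_zero hH h2 h7
  have e2 : ∑ k, s k / (s k ^ 2 - 1) = 0 := by
    have h3 := a2 hs2
    have h4 : Hh Ω ((p - 1) / 2) * ∑ k, s k / (s k ^ 2 - 1) = 0 := by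
      rw [← h3, Finset.mul_sum]
      refine Finset.sum_congr rfl fun k _ => ?_
      rw [WW_two p hp, mul_div_assoc]
    exact (mul_eq_zero.1 h4).resolve_left hH
  refine ⟨fun k => sub_ne_zero.2 (hs2 k), fun k => sub_ne_zero.2 (hs4 k), e2, ?_⟩
  have h3 := b2 hs4
  have h4 : Hh Ω ((p - 1) / 2) * (3 * ∑ k, s k / (s k ^ 2 - 1)
      + 2 * ∑ k, s k ^ 2 / (s k ^ 4 - 1)) = 2 * ∑ k, WW p 4 (s k) / (s k ^ 4 - 1) := by
    rw [Finset.mul_sum, Finset.mul_sum, Finset.mul_sum, ← Finset.sum_add_distrib, Finset.mul_sum]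
    refine Finset.sum_congr rfl fun k _ => ?_
    have h5 := WW_four p hp (s k)
    have h6 : s k ^ 2 - 1 ≠ 0 := sub_ne_zero.2 (hs2 k)
    have h7 : s k ^ 4 - 1 ≠ 0 := sub_ne_zero.2 (hs4 k)
    have h8 : s k / (s k ^ 2 - 1) = (s k ^ 3 + s k) / (s k ^ 4 - 1) := by
      rw [div_eq_div_iff h6 h7]
      ring
    rw [h8, ← mul_div_assoc 2 (WW p 4 (s k)), h5]
    ring
  rw [e2, mul_zero, zero_add, h3, mul_zero] at h4
  exact (mul_eq_zero.1 ((mul_eq_zero.1 h4).resolve_left hH)).resolve_left h2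

theorem six (p : ℕ) [Fact p.Prime] (hp : 5 ≤ p) (hW : ¬ p ^ 2 ∣ 2 ^ (p - 1) - 1)
    {Ω : Type*} [Field Ω] [CharP Ω p] {n : ℕ} (a b c : Fin n → Ω) (ha : ∀ k, a k ≠ 0)
    (hb : ∀ k, b k ≠ 0) (hc : ∀ k, c k ≠ 0) (h0 : ∀ k, a k + b k + c k = 0)
    (h1 : Dat p (fun k => -(b k) / a k)) (h2 : Dat p (fun k => -(c k) / b k))
    (h3 : Dat p (fun k => -(a k) / c k)) : Six (fun k => (a k - b k) / c k) := by
  have two : (2 : Ω) ≠ 0 := by
    have := cast_ne p (Ω := Ω) (k := 2) (by omega) (by omega)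
    exact_mod_cast this
  obtain ⟨-, p2, p3, p4⟩ := two_four p hp hW h1
  obtain ⟨-, q2, q3, q4⟩ := two_four p hp hW h2
  obtain ⟨-, r2, r3, r4⟩ := two_four p hp hW h3
  -- nonvanishing
  have key : ∀ x y : Ω, x ≠ 0 → (-y / x) ^ 4 - 1 ≠ 0 → y - x ≠ 0 ∧ y + x ≠ 0 ∧ y ^ 2 + x ^ 2 ≠ 0 := by
    intro x y hx h
    have e : (-y / x) ^ 4 - 1 = (y - x) * (y + x) * (y ^ 2 + x ^ 2) / x ^ 4 := by
      field_simp
      ring
    rw [e] at h
    refine ⟨?_, ?_, ?_⟩ <;>
    · intro h5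
      apply h
      rw [h5]
      simp
  have kp := fun k => key _ _ (ha k) (p2 k)
  have kq := fun k => key _ _ (hb k) (q2 k)
  have kr := fun k => key _ _ (hc k) (r2 k)
  have hcab : ∀ k, c k = -a k - b k := fun k => by linear_combination h0 k
  have t1 : ∀ k, (a k - b k) / c k - 1 = 2 * a k / c k := by
    intro k
    have := hc k
    field_simp
    linear_combination -h0 k
  have t2 : ∀ k, (a k - b k) / c k + 1 = -(2 * b k) / c k := by
    intro k
    have := hc k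
    field_simp
    linear_combination h0 k
  have t3 : ∀ k, (a k - b k) / c k - 3 = 2 * (a k - c k) / c k := by
    intro k
    have := hc k
    field_simp
    linear_combination -h0 k
  have t4 : ∀ k, (a k - b k) / c k + 3 = 2 * (c k - b k) / c k := by
    intro k
    have := hc k
    field_simp
    linear_combination h0 k
  have t5 : ∀ k, ((a k - b k) / c k) ^ 2 + 1 = 2 * (b k ^ 2 + a k ^ 2) / c k ^ 2 := by
    intro k
    have := hc k
    field_simp
    linear_combination (c k - a k - b k) * h0 k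
  have t6 : ∀ k, ((a k - b k) / c k) ^ 2 - 2 * ((a k - b k) / c k) + 5
      = 4 * (a k ^ 2 + c k ^ 2) / c k ^ 2 := by
    intro k
    have e : ((a k - b k) / c k) ^ 2 - 2 * ((a k - b k) / c k) + 5
      = ((a k - b k) / c k - 1) ^ 2 + 4 := by ring
    rw [e, t1]
    have := hc k
    field_simp
    ring
  have t7 : ∀ k, ((a k - b k) / c k) ^ 2 + 2 * ((a k - b k) / c k) + 5
      = 4 * (c k ^ 2 + b k ^ 2) / c k ^ 2 := by
    intro k
    have e : ((a k - b k) / c k) ^ 2 + 2 * ((a k - b k) / c k) + 5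
      = ((a k - b k) / c k + 1) ^ 2 + 4 := by ring
    rw [e, t2]
    have := hc k
    field_simp
    ring
  have four : (4 : Ω) ≠ 0 := by
    have e : (4 : Ω) = 2 * 2 := by norm_num
    rw [e]
    exact mul_ne_zero two two
  have n0 : ∀ k, (a k - b k) / c k ≠ 0 := fun k =>
    div_ne_zero (fun h => (kp k).1 (by linear_combination -h)) (hc k)
  have n1 : ∀ k, (a k - b k) / c k - 1 ≠ 0 := fun k => by
    rw [t1]
    exact div_ne_zero (mul_ne_zero two (ha k)) (hc k)
  have n2 : ∀ k, (a k - b k) / c k + 1 ≠ 0 := fun k => by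
    rw [t2]
    exact div_ne_zero (neg_ne_zero.2 (mul_ne_zero two (hb k))) (hc k)
  have n3 : ∀ k, (a k - b k) / c k - 3 ≠ 0 := fun k => by
    rw [t3]
    exact div_ne_zero (mul_ne_zero two (kr k).1) (hc k)
  have n4 : ∀ k, (a k - b k) / c k + 3 ≠ 0 := fun k => by
    rw [t4]
    exact div_ne_zero (mul_ne_zero two (kq k).1) (hc k)
  have n5 : ∀ k, ((a k - b k) / c k) ^ 2 + 1 ≠ 0 := fun k => by
    rw [t5]
    exact div_ne_zero (mul_ne_zero two (kp k).2.2) (pow_ne_zero 2 (hc k))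
  have n6 : ∀ k, ((a k - b k) / c k) ^ 2 - 2 * ((a k - b k) / c k) + 5 ≠ 0 := fun k => by
    rw [t6]
    exact div_ne_zero (mul_ne_zero four (kr k).2.2) (pow_ne_zero 2 (hc k))
  have n7 : ∀ k, ((a k - b k) / c k) ^ 2 + 2 * ((a k - b k) / c k) + 5 ≠ 0 := fun k => by
    rw [t7]
    exact div_ne_zero (mul_ne_zero four (kq k).2.2) (pow_ne_zero 2 (hc k))
  -- the values `s`
  have u1 : ∀ k, -b k / a k = ((a k - b k) / c k + 1) / ((a k - b k) / c k - 1) := by
    intro k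
    rw [t1, t2]
    have := hc k
    have := ha k
    field_simp
  have u2 : ∀ k, -c k / b k = 2 / ((a k - b k) / c k + 1) := by
    intro k
    rw [t2]
    have := hc k
    have := hb k
    field_simp
  have u3 : ∀ k, -a k / c k = -((a k - b k) / c k - 1) / 2 := by
    intro k
    rw [t1]
    have := hc k
    field_simp
  obtain ⟨t, ht⟩ : ∃ t : Fin n → Ω, t = fun k => (a k - b k) / c k := ⟨_, rfl⟩
  have htk : ∀ k, (a k - b k) / c k = t k := fun k => by rw [ht]
  simp only [u1, u2, u3, htk] at p3 p4 q3 q4 r3 r4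
  simp only [htk] at n0 n1 n2 n3 n4 n5 n6 n7
  rw [← ht]
  refine ⟨n0, n1, n2, n3, n4, n5, n6, n7, ?_, ?_, ?_, ?_, ?_, ?_⟩
  · have e : ∑ k, (t k - 1 / t k)
        = 4 * ∑ k, (t k + 1) / (t k - 1) / (((t k + 1) / (t k - 1)) ^ 2 - 1) := by
      rw [Finset.mul_sum]
      refine Finset.sum_congr rfl fun k _ => ?_
      have m0 := n0 k
      have m1 := n1 k
      have e1 : ((t k + 1) / (t k - 1)) ^ 2 - 1 = 4 * t k / (t k - 1) ^ 2 := by
        field_simp
        ring
      rw [e1]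
      field_simp
      ring
    rw [e, p3, mul_zero]
  · have e : ∑ k, (1 / (t k - 1) + 1 / (t k + 3))
        = -∑ k, 2 / (t k + 1) / ((2 / (t k + 1)) ^ 2 - 1) := by
      rw [← Finset.sum_neg_distrib]
      refine Finset.sum_congr rfl fun k _ => ?_
      have m1 := n1 k
      have m2 := n2 k
      have m4 := n4 k
      have e1 : (2 / (t k + 1)) ^ 2 - 1 = -((t k - 1) * (t k + 3)) / (t k + 1) ^ 2 := by
        field_simp
        ring
      rw [e1]
      field_simp
      ring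
    rw [e, q3, neg_zero]
  · have e : ∑ k, (1 / (t k + 1) + 1 / (t k - 3))
        = -∑ k, -(t k - 1) / 2 / ((-(t k - 1) / 2) ^ 2 - 1) := by
      rw [← Finset.sum_neg_distrib]
      refine Finset.sum_congr rfl fun k _ => ?_
      have m1 := n1 k
      have m2 := n2 k
      have m3 := n3 k
      have e1 : (-(t k - 1) / 2) ^ 2 - 1 = ((t k + 1) * (t k - 3)) / 4 := by
        field_simp
        ring
      rw [e1]
      field_simp
      ring
    rw [e, r3, neg_zero]
  · have e : ∑ k, (t k ^ 2 - 1) ^ 2 / (t k * (t k ^ 2 + 1))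
        = 8 * ∑ k, ((t k + 1) / (t k - 1)) ^ 2 / (((t k + 1) / (t k - 1)) ^ 4 - 1) := by
      rw [Finset.mul_sum]
      refine Finset.sum_congr rfl fun k _ => ?_
      have m0 := n0 k
      have m1 := n1 k
      have m5 := n5 k
      have e1 : ((t k + 1) / (t k - 1)) ^ 4 - 1 = 8 * (t k * (t k ^ 2 + 1)) / (t k - 1) ^ 4 := by
        field_simp
        ring
      rw [e1]
      have m8 : (8 : Ω) ≠ 0 := by
        have e : (8 : Ω) = 2 * 4 := by norm_num
        rw [e]
        exact mul_ne_zero two four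
      field_simp
      ring
    rw [e, p4, mul_zero]
  · have e : ∑ k, (t k + 1) ^ 2 / ((t k - 1) * (t k + 3) * (t k ^ 2 + 2 * t k + 5))
        = (-1 / 4) * ∑ k, (2 / (t k + 1)) ^ 2 / ((2 / (t k + 1)) ^ 4 - 1) := by
      rw [Finset.mul_sum]
      refine Finset.sum_congr rfl fun k _ => ?_
      have m1 := n1 k
      have m2 := n2 k
      have m4 := n4 k
      have m7 := n7 k
      have e1 : (2 / (t k + 1)) ^ 4 - 1
          = -((t k - 1) * (t k + 3) * (t k ^ 2 + 2 * t k + 5)) / (t k + 1) ^ 4 := by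
        field_simp
        ring
      rw [e1]
      field_simp
      norm_num
    rw [e, q4, mul_zero]
  · have e : ∑ k, (t k - 1) ^ 2 / ((t k + 1) * (t k - 3) * (t k ^ 2 - 2 * t k + 5))
        = (1 / 4) * ∑ k, (-(t k - 1) / 2) ^ 2 / ((-(t k - 1) / 2) ^ 4 - 1) := by
      rw [Finset.mul_sum]
      refine Finset.sum_congr rfl fun k _ => ?_
      have m1 := n1 k
      have m2 := n2 k
      have m3 := n3 k
      have m6 := n6 k
      have m16 : (16 : Ω) ≠ 0 := by
        have e : (16 : Ω) = 4 * 4 := by norm_num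
        rw [e]
        exact mul_ne_zero four four
      have e1 : (-(t k - 1) / 2) ^ 4 - 1
          = ((t k + 1) * (t k - 3) * (t k ^ 2 - 2 * t k + 5)) / 16 := by
        rw [div_pow, show (2 : Ω) ^ 4 = 16 by norm_num, eq_div_iff m16, sub_mul,
          div_mul_cancel₀ _ m16]
        ring
      rw [e1]
      field_simp
      ring
    rw [e, r4, mul_zero]

end H10CQ
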